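import Mathlib
import Pool.Agent.R412.RT.A2
set_option autoImplicit false

/-! Plancherel inequalities on the line and in the plane. -/

namespace Pool.Agent.J6H76.TS

open MeasureTheory Complex Set Filter Topology
open scoped ENNReal RealInnerProductSpace ComplexConjugate
open Pool.Agent.R412.RT (E ee ee_norm ee_add ee_conj ee_meas ee_cont planch)

/-- the coordinate of a point of the Euclidean line -/
noncomputable def T1 : E 1 ≃ᵐ ℝ := (MeasurableEquiv.toLp 2 (Fin 1 → ℝ)).symm.trans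
    (MeasurableEquiv.funUnique (Fin 1) ℝ)

theorem T1_mp : MeasurePreserving T1 volume volume :=
  (volume_preserving_funUnique (Fin 1) ℝ).comp (PiLp.volume_preserving_ofLp (Fin 1))

/-- one dimensional Plancherel inequality -/
theorem planch1 (H : ℝ → ℂ) (hH : Integrable H) :
    ∫⁻ β : ℝ, ‖∫ u, ee (u * β) * H u‖ₑ ^ 2 ≤ ∫⁻ u, ‖H u‖ₑ ^ 2 := by
  have hTi : ∀ x y : E 1, ⟪x, y⟫ = T1 x * T1 y := by
    intro x y
    have h : ⟪x, y⟫ = ∑ i, x i * y i := by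
      simp only [PiLp.inner_apply, RCLike.inner_apply, conj_trivial]
      exact Finset.sum_congr rfl fun i _ => mul_comm _ _
    rw [h, Fin.sum_univ_one]
    rfl
  have hg : Integrable fun x : E 1 => H (T1 x) :=
    (T1_mp.integrable_comp_emb T1.measurableEmbedding).2 hH
  have hdet : (ContinuousLinearMap.id ℝ (E 1)).det = 1 := by
    unfold ContinuousLinearMap.det
    simp
  have h := planch (id : E 1 → E 1) measurable_id (fun _ => ContinuousLinearMap.id ℝ (E 1))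
    univ MeasurableSet.univ (fun x _ => hasFDerivWithinAt_id x univ) (injOn_id _)
    (fun x _ => by rw [hdet]; exact one_ne_zero) (by simp) (fun x => H (T1 x)) hg
    (fun x hx => absurd (mem_univ x) hx)
  have h1 : ∀ t : E 1, ∫ x : E 1, ee ⟪id x, t⟫ * H (T1 x) = ∫ u, ee (u * T1 t) * H u := by
    intro t
    rw [← T1_mp.integral_comp T1.measurableEmbedding]
    refine integral_congr_ae (Eventually.of_forall fun x => ?_)
    simp only [id, hTi]
  simp_rw [h1] at h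
  have h2 : ∫⁻ t : E 1, ‖∫ u, ee (u * T1 t) * H u‖ₑ ^ 2 =
      ∫⁻ β : ℝ, ‖∫ u, ee (u * β) * H u‖ₑ ^ 2 :=
    T1_mp.lintegral_comp_emb T1.measurableEmbedding (fun β => ‖∫ u, ee (u * β) * H u‖ₑ ^ 2)
  have h3 : ∫⁻ x : E 1, ‖H (T1 x)‖ₑ ^ 2 / ENNReal.ofReal |(ContinuousLinearMap.id ℝ (E 1)).det| =
      ∫⁻ u, ‖H u‖ₑ ^ 2 := by
    rw [← T1_mp.lintegral_comp_emb T1.measurableEmbedding (fun u => ‖H u‖ₑ ^ 2)]
    refine lintegral_congr fun x => ?_
    rw [hdet, abs_one, ENNReal.ofReal_one, div_one]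
  rw [h2, h3] at h
  exact h

/-- coordinates of the Euclidean plane -/
noncomputable def T2 : E 2 ≃ᵐ ℝ × ℝ := (MeasurableEquiv.toLp 2 (Fin 2 → ℝ)).symm.trans
    MeasurableEquiv.finTwoArrow

theorem T2_mp : MeasurePreserving T2 volume volume :=
  (volume_preserving_finTwoArrow ℝ).comp (PiLp.volume_preserving_ofLp (Fin 2))

theorem T2_apply (x : E 2) : T2 x = (x 0, x 1) := rfl

/-- sum and sum of squares -/
noncomputable def P2 (x : E 2) : E 2 := !₂[x 0 + x 1, x 0 ^ 2 + x 1 ^ 2]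

/-- the Jacobian matrix -/
noncomputable def M2 (x : E 2) : Matrix (Fin 2) (Fin 2) ℝ := !![1, 1; 2 * x 0, 2 * x 1]

noncomputable def D2 (x : E 2) : E 2 →L[ℝ] E 2 :=
  LinearMap.toContinuousLinearMap (Matrix.toLin (EuclideanSpace.basisFun (Fin 2) ℝ).toBasis
    (EuclideanSpace.basisFun (Fin 2) ℝ).toBasis (M2 x))

theorem D2_det (x : E 2) : (D2 x).det = 2 * x 1 - 2 * x 0 := by
  unfold D2 ContinuousLinearMap.det
  rw [LinearMap.coe_toContinuousLinearMap, LinearMap.det_toLin, M2, Matrix.det_fin_two_of]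
  ring

theorem D2_apply (x v : E 2) (i : Fin 2) : D2 x v i = ∑ j, M2 x i j * v j := by
  unfold D2
  rw [LinearMap.coe_toContinuousLinearMap']
  have h := Matrix.toLin_apply (EuclideanSpace.basisFun (Fin 2) ℝ).toBasis
    (EuclideanSpace.basisFun (Fin 2) ℝ).toBasis (M2 x) v
  rw [h]
  simp only [OrthonormalBasis.coe_toBasis, WithLp.ofLp_sum, WithLp.ofLp_smul, Finset.sum_apply,
    Pi.smul_apply, smul_eq_mul, EuclideanSpace.basisFun_apply, PiLp.single_apply,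
    Matrix.mulVec, dotProduct, mul_ite, mul_one, mul_zero, Finset.sum_ite_eq,
    Finset.mem_univ, if_true]
  rfl

theorem P2_deriv (x : E 2) : HasFDerivAt P2 (D2 x) x := by
  rw [← hasFDerivWithinAt_univ, hasFDerivWithinAt_euclidean]
  intro i
  rw [hasFDerivWithinAt_univ]
  have h1 : ∀ j : Fin 2, HasFDerivAt (fun y : E 2 => y j) (EuclideanSpace.proj j : E 2 →L[ℝ] ℝ) x :=
    fun j => (EuclideanSpace.proj (𝕜 := ℝ) j).hasFDerivAt
  fin_cases i
  · have h2 : HasFDerivAt (fun y : E 2 => y 0 + y 1)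
        ((EuclideanSpace.proj 0 : E 2 →L[ℝ] ℝ) + (EuclideanSpace.proj 1 : E 2 →L[ℝ] ℝ)) x :=
      (h1 0).add (h1 1)
    refine h2.congr_fderiv ?_
    ext v
    have hR : ((PiLp.proj 2 (fun _ : Fin 2 => ℝ) 0 : E 2 →L[ℝ] ℝ).comp (D2 x)) v =
      ∑ j, M2 x 0 j * v j := D2_apply x v 0
    refine Eq.trans ?_ hR.symm
    simp [M2, Fin.sum_univ_two]
  · have h2 : HasFDerivAt (fun y : E 2 => y 0 ^ 2 + y 1 ^ 2)
        ((2 * x 0) • (EuclideanSpace.proj 0 : E 2 →L[ℝ] ℝ) +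
          (2 * x 1) • (EuclideanSpace.proj 1 : E 2 →L[ℝ] ℝ)) x := by
      refine HasFDerivAt.add ?_ ?_
      · have := (h1 0).pow 2
        simpa using this
      · have := (h1 1).pow 2
        simpa using this
    refine h2.congr_fderiv ?_
    ext v
    have hR : ((PiLp.proj 2 (fun _ : Fin 2 => ℝ) 1 : E 2 →L[ℝ] ℝ).comp (D2 x)) v =
      ∑ j, M2 x 1 j * v j := D2_apply x v 1
    refine Eq.trans ?_ hR.symm
    simp [M2, Fin.sum_univ_two]

theorem P2_cont : Continuous P2 := by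
  rw [continuous_iff_continuousAt]
  exact fun x => (P2_deriv x).continuousAt

theorem P2_inj (σ : ℝ) : InjOn P2 {x : E 2 | 0 < σ * (x 0 - x 1)} := by
  intro x hx y hy hxy
  have h0 : x 0 + x 1 = y 0 + y 1 := by
    have := congrArg (fun z : E 2 => z 0) hxy
    simpa [P2] using this
  have h1 : x 0 ^ 2 + x 1 ^ 2 = y 0 ^ 2 + y 1 ^ 2 := by
    have := congrArg (fun z : E 2 => z 1) hxy
    simpa [P2] using this
  have hx' : 0 < σ * (x 0 - x 1) := hx
  have hy' : 0 < σ * (y 0 - y 1) := hy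
  have h2 : (x 0 - x 1) ^ 2 = (y 0 - y 1) ^ 2 := by
    have e1 : (x 0 - x 1) ^ 2 = 2 * (x 0 ^ 2 + x 1 ^ 2) - (x 0 + x 1) ^ 2 := by ring
    have e2 : (y 0 - y 1) ^ 2 = 2 * (y 0 ^ 2 + y 1 ^ 2) - (y 0 + y 1) ^ 2 := by ring
    rw [e1, e2, h0, h1]
  have h3 : x 0 - x 1 = y 0 - y 1 := by
    rcases sq_eq_sq_iff_eq_or_eq_neg.1 h2 with h | h
    · exact h
    · exfalso
      rw [h] at hx'
      nlinarith
  ext i
  fin_cases i
  · show x 0 = y 0
    linarith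
  · show x 1 = y 1
    linarith

/-- Plancherel for sum and sum of squares -/
theorem planch2 (σ : ℝ) (g : ℝ × ℝ → ℂ) (hg : Integrable g)
    (hgV : ∀ p : ℝ × ℝ, ¬ 0 < σ * (p.1 - p.2) → g p = 0) :
    ∫⁻ y : ℝ × ℝ, ‖∫ p : ℝ × ℝ, ee ((p.1 + p.2) * y.1 + (p.1 ^ 2 + p.2 ^ 2) * y.2) * g p‖ₑ ^ 2 ≤
      ∫⁻ p : ℝ × ℝ, ‖g p‖ₑ ^ 2 / ENNReal.ofReal (2 * |p.1 - p.2|) := by
  have hTi : ∀ x y : E 2, ⟪P2 x, y⟫ =
      ((T2 x).1 + (T2 x).2) * (T2 y).1 + ((T2 x).1 ^ 2 + (T2 x).2 ^ 2) * (T2 y).2 := by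
    intro x y
    have h : ⟪P2 x, y⟫ = ∑ i, P2 x i * y i := by
      simp only [PiLp.inner_apply, RCLike.inner_apply, conj_trivial]
      exact Finset.sum_congr rfl fun i _ => mul_comm _ _
    rw [h, Fin.sum_univ_two]
    rfl
  have hgT : Integrable fun x : E 2 => g (T2 x) :=
    (T2_mp.integrable_comp_emb T2.measurableEmbedding).2 hg
  have hV : MeasurableSet {x : E 2 | 0 < σ * (x 0 - x 1)} := by
    have hc : Continuous fun x : E 2 => σ * (x 0 - x 1) := by fun_prop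
    exact (isOpen_lt continuous_const hc).measurableSet
  have h := planch P2 P2_cont.measurable D2 {x : E 2 | 0 < σ * (x 0 - x 1)} hV
    (fun x _ => (P2_deriv x).hasFDerivWithinAt) (P2_inj σ)
    (fun x hx => by
      rw [D2_det]
      intro h0
      have hx' : 0 < σ * (x 0 - x 1) := hx
      have : x 0 - x 1 = 0 := by linarith
      rw [this, mul_zero] at hx'
      exact lt_irrefl _ hx')
    (by
      simp_rw [D2_det]
      have hc : Continuous fun x : E 2 => |2 * x 1 - 2 * x 0| := by fun_prop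
      exact hc.measurable) (fun x => g (T2 x)) hgT
    (fun x hx => hgV _ hx)
  have h1 : ∀ t : E 2, ∫ x : E 2, ee ⟪P2 x, t⟫ * g (T2 x) =
      ∫ p : ℝ × ℝ, ee ((p.1 + p.2) * (T2 t).1 + (p.1 ^ 2 + p.2 ^ 2) * (T2 t).2) * g p := by
    intro t
    rw [← T2_mp.integral_comp T2.measurableEmbedding]
    refine integral_congr_ae (Eventually.of_forall fun x => ?_)
    simp only [hTi]
  simp_rw [h1] at h
  have h2 : ∫⁻ t : E 2, ‖∫ p : ℝ × ℝ, ee ((p.1 + p.2) * (T2 t).1 +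
      (p.1 ^ 2 + p.2 ^ 2) * (T2 t).2) * g p‖ₑ ^ 2 =
      ∫⁻ y : ℝ × ℝ, ‖∫ p : ℝ × ℝ, ee ((p.1 + p.2) * y.1 + (p.1 ^ 2 + p.2 ^ 2) * y.2) * g p‖ₑ ^ 2 :=
    T2_mp.lintegral_comp_emb T2.measurableEmbedding
      (fun y => ‖∫ p : ℝ × ℝ, ee ((p.1 + p.2) * y.1 + (p.1 ^ 2 + p.2 ^ 2) * y.2) * g p‖ₑ ^ 2)
  have h3 : ∫⁻ x : E 2, ‖g (T2 x)‖ₑ ^ 2 / ENNReal.ofReal |(D2 x).det| =
      ∫⁻ p : ℝ × ℝ, ‖g p‖ₑ ^ 2 / ENNReal.ofReal (2 * |p.1 - p.2|) := by
    rw [← T2_mp.lintegral_comp_emb T2.measurableEmbedding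
      (fun p => ‖g p‖ₑ ^ 2 / ENNReal.ofReal (2 * |p.1 - p.2|))]
    refine lintegral_congr fun x => ?_
    rw [D2_det, T2_apply]
    congr 2
    show |2 * x 1 - 2 * x 0| = 2 * |x 0 - x 1|
    rw [← mul_sub, abs_mul, abs_two, abs_sub_comm]
  rw [h2, h3] at h
  exact h

end Pool.Agent.J6H76.TS
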