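import Mathlib
import Pool.Agent.J6H76.TS.A
set_option autoImplicit false

/-! The extension operator of the parabola: the bilinear local estimate. -/

namespace Pool.Agent.J6H76.TS

open MeasureTheory Complex Set Filter Topology
open scoped ENNReal ComplexConjugate
open Pool.Agent.R412.RT (E ee ee_norm ee_add ee_conj ee_meas ee_cont planch)

theorem ee_enorm (s : ℝ) : ‖ee s‖ₑ = 1 := by
  rw [← ofReal_norm, ee_norm, ENNReal.ofReal_one]

/-- the Plancherel inequality without hypotheses -/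
theorem planch1' (H : ℝ → ℂ) :
    ∫⁻ β : ℝ, ‖∫ u, ee (u * β) * H u‖ₑ ^ 2 ≤ ∫⁻ u, ‖H u‖ₑ ^ 2 := by
  by_cases hH : Integrable H
  · exact planch1 H hH
  · have h0 : ∀ β : ℝ, ∫ u, ee (u * β) * H u = 0 := by
      intro β
      refine integral_undef fun hi => hH ?_
      have h1 : Integrable fun u => ee (-(u * β)) * (ee (u * β) * H u) := by
        refine hi.bdd_mul (c := 1) ?_ (Eventually.of_forall fun u => (ee_norm _).le)
        exact (ee_meas.comp (by fun_prop)).aestronglyMeasurable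
      refine h1.congr (Eventually.of_forall fun u => ?_)
      simp only
      rw [← mul_assoc, ← ee_add, neg_add_cancel]
      unfold ee
      simp
    simp [h0]

/-- the extension operator of the parabola -/
noncomputable def E1 (c : ℝ → ℂ) (ξ t : ℝ) : ℂ := ∫ x, ee (x * ξ + x ^ 2 * t) * c x

theorem E1_meas (c : ℝ → ℂ) (hc : Measurable c) : Measurable fun p : ℝ × ℝ => E1 c p.1 p.2 := by
  unfold E1
  have : StronglyMeasurable (Function.uncurry fun (p : ℝ × ℝ) (x : ℝ) =>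
      ee (x * p.1 + x ^ 2 * p.2) * c x) := by
    refine Measurable.stronglyMeasurable ?_
    exact (ee_meas.comp (by fun_prop)).mul (hc.comp measurable_snd)
  exact this.integral_prod_right.measurable

/-- the `L²` identity at fixed time -/
theorem E1_l2 (c : ℝ → ℂ) (t : ℝ) : ∫⁻ ξ, ‖E1 c ξ t‖ₑ ^ 2 ≤ ∫⁻ x, ‖c x‖ₑ ^ 2 := by
  have h := planch1' fun x => ee (x ^ 2 * t) * c x
  have h1 : ∀ ξ, E1 c ξ t = ∫ x, ee (x * ξ) * (ee (x ^ 2 * t) * c x) := by
    intro ξ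
    unfold E1
    refine integral_congr_ae (Eventually.of_forall fun x => ?_)
    simp only
    rw [ee_add, mul_assoc]
  simp_rw [h1]
  refine h.trans (le_of_eq ?_)
  refine lintegral_congr fun x => ?_
  rw [enorm_mul, ee_enorm, one_mul]

/-- the double integral over a region -/
noncomputable def II (S : Set (ℝ × ℝ)) (g h : ℝ → ℂ) (y : ℝ × ℝ) : ℂ :=
  ∫ p : ℝ × ℝ, ee ((p.1 + p.2) * y.1 + (p.1 ^ 2 + p.2 ^ 2) * y.2) *
    S.indicator (fun p => g p.1 * h p.2) p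

theorem prod_int {g h : ℝ → ℂ} (hg : Integrable g) (hh : Integrable h) (S : Set (ℝ × ℝ))
    (hS : MeasurableSet S) : Integrable (S.indicator fun p : ℝ × ℝ => g p.1 * h p.2) :=
  (hg.mul_prod hh).indicator hS

theorem ph_int {f : ℝ × ℝ → ℂ} (hf : Integrable f) (y : ℝ × ℝ) :
    Integrable fun p : ℝ × ℝ => ee ((p.1 + p.2) * y.1 + (p.1 ^ 2 + p.2 ^ 2) * y.2) * f p := by
  refine hf.bdd_mul (c := 1) ?_ (Eventually.of_forall fun u => (ee_norm _).le)
  exact (ee_meas.comp (by fun_prop)).aestronglyMeasurable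

theorem II_meas {g h : ℝ → ℂ} (hg : Measurable g) (hh : Measurable h) (S : Set (ℝ × ℝ))
    (hS : MeasurableSet S) : Measurable (II S g h) := by
  unfold II
  have : StronglyMeasurable (Function.uncurry fun (y : ℝ × ℝ) (p : ℝ × ℝ) =>
      ee ((p.1 + p.2) * y.1 + (p.1 ^ 2 + p.2 ^ 2) * y.2) *
        S.indicator (fun p => g p.1 * h p.2) p) := by
    refine Measurable.stronglyMeasurable ?_
    exact (ee_meas.comp (by fun_prop)).mul
      ((((hg.comp measurable_fst).mul (hh.comp measurable_snd)).indicator hS).comp measurable_snd)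
  exact this.integral_prod_right.measurable

/-- the product as a double integral -/
theorem E1_mul {g h : ℝ → ℂ} (ξ t : ℝ) :
    E1 g ξ t * E1 h ξ t = II univ g h (ξ, t) := by
  unfold E1 II
  rw [← integral_prod_mul]
  refine integral_congr_ae (Eventually.of_forall fun p => ?_)
  simp only [indicator_univ]
  rw [show (p.1 + p.2) * ξ + (p.1 ^ 2 + p.2 ^ 2) * t =
    (p.1 * ξ + p.1 ^ 2 * t) + (p.2 * ξ + p.2 ^ 2 * t) by ring,
    ee_add (p.1 * ξ + p.1 ^ 2 * t) (p.2 * ξ + p.2 ^ 2 * t)]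
  ring

/-- the three regions -/
def Sp (δ : ℝ) : Set (ℝ × ℝ) := {p | δ < p.1 - p.2}
def Sm (δ : ℝ) : Set (ℝ × ℝ) := {p | p.1 - p.2 < -δ}
def S0 (δ : ℝ) : Set (ℝ × ℝ) := {p | |p.1 - p.2| ≤ δ}

theorem Sp_meas (δ : ℝ) : MeasurableSet (Sp δ) :=
  (isOpen_lt continuous_const (by fun_prop : Continuous fun p : ℝ × ℝ => p.1 - p.2)).measurableSet
theorem Sm_meas (δ : ℝ) : MeasurableSet (Sm δ) :=
  (isOpen_lt (by fun_prop : Continuous fun p : ℝ × ℝ => p.1 - p.2) continuous_const).measurableSet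
theorem S0_meas (δ : ℝ) : MeasurableSet (S0 δ) :=
  (isClosed_le (by fun_prop : Continuous fun p : ℝ × ℝ => |p.1 - p.2|)
    continuous_const).measurableSet

theorem II_split (δ : ℝ) (hδ : 0 < δ) {g h : ℝ → ℂ} (hg : Integrable g) (hh : Integrable h)
    (y : ℝ × ℝ) : II univ g h y = II (Sp δ) g h y + II (Sm δ) g h y + II (S0 δ) g h y := by
  unfold II
  have i1 := ph_int (prod_int hg hh _ (Sp_meas δ)) y
  have i2 := ph_int (prod_int hg hh _ (Sm_meas δ)) y
  have i3 := ph_int (prod_int hg hh _ (S0_meas δ)) y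
  have e1 := integral_add i1 i2
  have e2 := integral_add (i1.add i2) i3
  simp only [Pi.add_apply] at e2
  rw [← e1, ← e2]
  refine integral_congr_ae (Eventually.of_forall fun p => ?_)
  simp only [indicator_univ, ← mul_add]
  congr 1
  rcases lt_or_ge δ (p.1 - p.2) with h1 | h1
  · have a : p ∈ Sp δ := h1
    have b : p ∉ Sm δ := fun h2 => by
      have : p.1 - p.2 < -δ := h2
      linarith
    have c : p ∉ S0 δ := fun h2 => by
      have := (abs_le.1 (show |p.1 - p.2| ≤ δ from h2)).2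
      linarith
    rw [indicator_of_mem a, indicator_of_notMem b, indicator_of_notMem c, add_zero, add_zero]
  · rcases lt_or_ge (p.1 - p.2) (-δ) with h3 | h3
    · have a : p ∉ Sp δ := fun h2 => by
        have : δ < p.1 - p.2 := h2
        linarith
      have b : p ∈ Sm δ := h3
      have c : p ∉ S0 δ := fun h2 => by
        have := (abs_le.1 (show |p.1 - p.2| ≤ δ from h2)).1
        linarith
      rw [indicator_of_notMem a, indicator_of_mem b, indicator_of_notMem c, add_zero, zero_add]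
    · have a : p ∉ Sp δ := fun h2 => by
        have : δ < p.1 - p.2 := h2
        linarith
      have b : p ∉ Sm δ := fun h2 => by
        have : p.1 - p.2 < -δ := h2
        linarith
      have c : p ∈ S0 δ := abs_le.2 ⟨h3, h1⟩
      rw [indicator_of_notMem a, indicator_of_notMem b, indicator_of_mem c, add_zero, zero_add]

/-- the off-diagonal part -/
theorem off_diag (σ : ℝ) (S : Set (ℝ × ℝ)) (hS : MeasurableSet S)
    (hσ : ∀ p ∈ S, 0 < σ * (p.1 - p.2)) {g h : ℝ → ℂ} (hg : Integrable g) (hh : Integrable h) :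
    ∫⁻ y : ℝ × ℝ, ‖II S g h y‖ₑ ^ 2 ≤
      ∫⁻ p : ℝ × ℝ, S.indicator (fun p => ‖g p.1‖ₑ ^ 2 * ‖h p.2‖ₑ ^ 2 /
        ENNReal.ofReal (2 * |p.1 - p.2|)) p := by
  refine (planch2 σ _ (prod_int hg hh S hS) (fun p hp => ?_)).trans (le_of_eq ?_)
  · exact indicator_of_notMem (fun h => hp (hσ p h)) _
  · refine lintegral_congr fun p => ?_
    by_cases hp : p ∈ S
    · rw [indicator_of_mem hp, indicator_of_mem hp, enorm_mul, mul_pow]
    · rw [indicator_of_notMem hp, indicator_of_notMem hp, enorm_zero]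
      simp

theorem scale (c : ℝ) (hc : c ≠ 0) (G : ℝ → ℝ≥0∞) (hG : Measurable G) :
    ∫⁻ x, G (c * x) = ENNReal.ofReal |c|⁻¹ * ∫⁻ x, G x := by
  have h5 := Measure.map_addHaar_smul (volume : Measure ℝ) hc
  have h6 : ∫⁻ a, G a ∂(Measure.map (c • ·) (volume : Measure ℝ)) = ∫⁻ a, G (c * a) :=
    lintegral_map hG (measurable_const_smul c)
  rw [← h6, h5, lintegral_smul_measure, smul_eq_mul, Module.finrank_self, pow_one, abs_inv]

/-- the slices of the near diagonal part -/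
noncomputable def Jd (g h : ℝ → ℂ) (t ξ d : ℝ) : ℂ :=
  ∫ v, ee ((2 * v + d) * ξ + ((v + d) ^ 2 + v ^ 2) * t) * (g (v + d) * h v)

theorem Jd_l2 {g h : ℝ → ℂ} (hg : Measurable g) (hh : Measurable h) (t d : ℝ) :
    ∫⁻ ξ, ‖Jd g h t ξ d‖ₑ ^ 2 ≤ 2⁻¹ * ∫⁻ v, ‖g (v + d)‖ₑ ^ 2 * ‖h v‖ₑ ^ 2 := by
  set W : ℝ → ℂ := fun v => ee (((v + d) ^ 2 + v ^ 2) * t) * (g (v + d) * h v) with hW
  have h1 : ∀ ξ, ‖Jd g h t ξ d‖ₑ = ‖∫ v, ee (v * (2 * ξ)) * W v‖ₑ := by
    intro ξ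
    have : Jd g h t ξ d = ee (d * ξ) * ∫ v, ee (v * (2 * ξ)) * W v := by
      unfold Jd
      rw [← integral_const_mul]
      refine integral_congr_ae (Eventually.of_forall fun v => ?_)
      simp only [hW]
      rw [show (2 * v + d) * ξ + ((v + d) ^ 2 + v ^ 2) * t =
        (d * ξ) + (v * (2 * ξ) + ((v + d) ^ 2 + v ^ 2) * t) by ring,
        ee_add (d * ξ) (v * (2 * ξ) + ((v + d) ^ 2 + v ^ 2) * t),
        ee_add (v * (2 * ξ)) (((v + d) ^ 2 + v ^ 2) * t)]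
      ring
    rw [this, enorm_mul, ee_enorm, one_mul]
  simp_rw [h1]
  have hWm : Measurable W := by
    refine (ee_meas.comp (by fun_prop)).mul ?_
    exact (hg.comp (by fun_prop)).mul hh
  have hGm : Measurable fun β : ℝ => ‖∫ v, ee (v * β) * W v‖ₑ ^ 2 := by
    have : StronglyMeasurable (Function.uncurry fun (β : ℝ) (v : ℝ) => ee (v * β) * W v) := by
      refine Measurable.stronglyMeasurable ?_
      exact (ee_meas.comp (by fun_prop)).mul (hWm.comp measurable_snd)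
    exact (this.integral_prod_right.measurable.enorm.pow_const 2)
  have h2 := scale 2 two_ne_zero (fun β : ℝ => ‖∫ v, ee (v * β) * W v‖ₑ ^ 2) hGm
  rw [h2]
  have h3 : ENNReal.ofReal |(2 : ℝ)|⁻¹ = 2⁻¹ := by
    rw [abs_two, ENNReal.ofReal_inv_of_pos two_pos]
    simp
  rw [h3]
  refine mul_le_mul' le_rfl ((planch1' W).trans (le_of_eq ?_))
  refine lintegral_congr fun v => ?_
  rw [hW]
  simp only
  rw [enorm_mul, ee_enorm, one_mul, enorm_mul, mul_pow]

theorem Jd_meas {g h : ℝ → ℂ} (hg : Measurable g) (hh : Measurable h) (t : ℝ) :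
    Measurable fun q : ℝ × ℝ => Jd g h t q.1 q.2 := by
  unfold Jd
  have : StronglyMeasurable (Function.uncurry fun (q : ℝ × ℝ) (v : ℝ) =>
      ee ((2 * v + q.2) * q.1 + ((v + q.2) ^ 2 + v ^ 2) * t) * (g (v + q.2) * h v)) := by
    refine Measurable.stronglyMeasurable ?_
    exact (ee_meas.comp (by fun_prop)).mul ((hg.comp (by fun_prop)).mul (hh.comp measurable_snd))
  exact this.integral_prod_right.measurable

theorem Jd_meas1 {g h : ℝ → ℂ} (hg : Measurable g) (hh : Measurable h) (t ξ : ℝ) :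
    Measurable fun d : ℝ => Jd g h t ξ d := by
  unfold Jd
  have : StronglyMeasurable (Function.uncurry fun (d : ℝ) (v : ℝ) =>
      ee ((2 * v + d) * ξ + ((v + d) ^ 2 + v ^ 2) * t) * (g (v + d) * h v)) := by
    refine Measurable.stronglyMeasurable ?_
    exact (ee_meas.comp (by fun_prop)).mul ((hg.comp (by fun_prop)).mul (hh.comp measurable_snd))
  exact this.integral_prod_right.measurable

/-- the near diagonal part as an average of slices -/
theorem II0_eq (δ : ℝ) {g h : ℝ → ℂ} (hg : Integrable g) (hh : Integrable h) (ξ t : ℝ) :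
    II (S0 δ) g h (ξ, t) = ∫ d in Icc (-δ) δ, Jd g h t ξ d := by
  set F : ℝ × ℝ → ℂ := fun p => ee ((p.1 + p.2) * ξ + (p.1 ^ 2 + p.2 ^ 2) * t) *
    (S0 δ).indicator (fun p => g p.1 * h p.2) p with hF
  have hFi : Integrable F := ph_int (prod_int hg hh _ (S0_meas δ)) (ξ, t)
  have hmp : MeasurePreserving (fun z : ℝ × ℝ => (z.1 + z.2, z.2)) (volume.prod volume)
      ((volume : Measure ℝ).prod volume) := measurePreserving_add_prod _ _
  have hemb : MeasurableEmbedding (fun z : ℝ × ℝ => (z.1 + z.2, z.2)) := by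
    refine Measurable.measurableEmbedding (by fun_prop) ?_
    rintro ⟨a, b⟩ ⟨c, d⟩ h
    simp only [Prod.mk.injEq] at h
    ext
    · simp only; linarith [h.1, h.2]
    · simp only; exact h.2
  have hFi2 : Integrable (fun z : ℝ × ℝ => F (z.1 + z.2, z.2)) :=
    (hmp.integrable_comp_emb hemb).2 hFi
  have e1 : II (S0 δ) g h (ξ, t) = ∫ z : ℝ × ℝ, F (z.1 + z.2, z.2) := by
    have := hmp.integral_comp hemb F
    exact this.symm
  rw [e1]
  have e2 : ∫ z : ℝ × ℝ, F (z.1 + z.2, z.2) = ∫ d : ℝ, ∫ v : ℝ, F (d + v, v) :=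
    integral_prod _ hFi2
  rw [e2, ← integral_indicator measurableSet_Icc]
  refine integral_congr_ae (Eventually.of_forall fun d => ?_)
  simp only
  by_cases hd : d ∈ Icc (-δ) δ
  · rw [indicator_of_mem hd]
    unfold Jd
    refine integral_congr_ae (Eventually.of_forall fun v => ?_)
    simp only [hF]
    have hm : ((d + v, v) : ℝ × ℝ) ∈ S0 δ := by
      show |d + v - v| ≤ δ
      rw [add_sub_cancel_right]
      exact abs_le.2 hd
    rw [indicator_of_mem hm, show d + v + v = 2 * v + d by ring, add_comm d v]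
  · rw [indicator_of_notMem hd]
    have : ∀ v, F (d + v, v) = 0 := by
      intro v
      simp only [hF]
      have hm : ((d + v, v) : ℝ × ℝ) ∉ S0 δ := by
        intro h2
        have h3 : |d + v - v| ≤ δ := h2
        rw [add_sub_cancel_right] at h3
        exact hd (abs_le.1 h3)
      rw [indicator_of_notMem hm, mul_zero]
    simp [this]

/-- Cauchy-Schwarz on an interval -/
theorem cs_int (δ : ℝ) (hδ : 0 < δ) (f : ℝ → ℂ) (hf : Measurable f) :
    ‖∫ d in Icc (-δ) δ, f d‖ₑ ^ 2 ≤ ENNReal.ofReal (2 * δ) * ∫⁻ d in Icc (-δ) δ, ‖f d‖ₑ ^ 2 := by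
  have h1 : ‖∫ d in Icc (-δ) δ, f d‖ₑ ≤ ∫⁻ d in Icc (-δ) δ, ‖f d‖ₑ :=
    enorm_integral_le_lintegral_enorm _
  have h2 := ENNReal.lintegral_mul_le_Lp_mul_Lq (volume.restrict (Icc (-δ) δ))
    Real.HolderConjugate.two_two (f := fun d => ‖f d‖ₑ) (g := fun _ => 1)
    hf.enorm.aemeasurable aemeasurable_const
  simp only [Pi.mul_apply, mul_one, ENNReal.one_rpow, lintegral_const,
    Measure.restrict_apply_univ, one_mul, Real.volume_Icc] at h2
  rw [show δ - -δ = 2 * δ by ring] at h2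
  have h3 := pow_le_pow_left' (h1.trans h2) 2
  refine h3.trans (le_of_eq ?_)
  rw [mul_pow, ← ENNReal.rpow_natCast, ← ENNReal.rpow_mul, ← ENNReal.rpow_natCast,
    ← ENNReal.rpow_mul]
  have e : (1 / 2 : ℝ) * ((2 : ℕ) : ℝ) = 1 := by norm_num
  rw [e, ENNReal.rpow_one, ENNReal.rpow_one, mul_comm]
  congr 1
  refine lintegral_congr fun d => ?_
  norm_num

/-- the near diagonal part -/
theorem near_diag (δ : ℝ) (hδ : 0 < δ) {g h : ℝ → ℂ} (hg : Integrable g) (hh : Integrable h)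
    (hgm : Measurable g) (hhm : Measurable h) (t : ℝ) :
    ∫⁻ ξ, ‖II (S0 δ) g h (ξ, t)‖ₑ ^ 2 ≤
      ENNReal.ofReal δ * ∫⁻ d in Icc (-δ) δ, ∫⁻ v, ‖g (v + d)‖ₑ ^ 2 * ‖h v‖ₑ ^ 2 := by
  have hJ := Jd_meas hgm hhm t
  calc ∫⁻ ξ, ‖II (S0 δ) g h (ξ, t)‖ₑ ^ 2
      ≤ ∫⁻ ξ, ENNReal.ofReal (2 * δ) * ∫⁻ d in Icc (-δ) δ, ‖Jd g h t ξ d‖ₑ ^ 2 := by
        refine lintegral_mono fun ξ => ?_
        rw [II0_eq δ hg hh]
        exact cs_int δ hδ _ (Jd_meas1 hgm hhm t ξ)
    _ = ENNReal.ofReal (2 * δ) * ∫⁻ ξ, ∫⁻ d in Icc (-δ) δ, ‖Jd g h t ξ d‖ₑ ^ 2 :=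
        lintegral_const_mul' _ _ ENNReal.ofReal_ne_top
    _ = ENNReal.ofReal (2 * δ) * ∫⁻ d in Icc (-δ) δ, ∫⁻ ξ, ‖Jd g h t ξ d‖ₑ ^ 2 := by
        have hJ2 : AEMeasurable (Function.uncurry fun ξ d : ℝ => ‖Jd g h t ξ d‖ₑ ^ 2)
            (volume.prod (volume.restrict (Icc (-δ) δ))) := (hJ.enorm.pow_const 2).aemeasurable
        rw [lintegral_lintegral_swap hJ2]
    _ ≤ ENNReal.ofReal (2 * δ) * ∫⁻ d in Icc (-δ) δ,
          2⁻¹ * ∫⁻ v, ‖g (v + d)‖ₑ ^ 2 * ‖h v‖ₑ ^ 2 := by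
        gcongr with d
        exact Jd_l2 hgm hhm t d
    _ = ENNReal.ofReal δ * ∫⁻ d in Icc (-δ) δ, ∫⁻ v, ‖g (v + d)‖ₑ ^ 2 * ‖h v‖ₑ ^ 2 := by
        rw [lintegral_const_mul' _ _ (by simp), ← mul_assoc]
        congr 1
        rw [ENNReal.ofReal_mul two_pos.le, mul_comm (ENNReal.ofReal 2), mul_assoc]
        have : ENNReal.ofReal 2 * 2⁻¹ = 1 := by
          rw [ENNReal.ofReal_ofNat]
          exact ENNReal.mul_inv_cancel two_ne_zero ENNReal.ofNat_ne_top
        rw [this, mul_one]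

/-- the shear -/
theorem shear (F : ℝ × ℝ → ℝ≥0∞) (hF : Measurable F) :
    ∫⁻ p, F p = ∫⁻ d : ℝ, ∫⁻ v : ℝ, F (v + d, v) := by
  have hmp : MeasurePreserving (fun z : ℝ × ℝ => (z.1 + z.2, z.2)) (volume.prod volume)
      ((volume : Measure ℝ).prod volume) := measurePreserving_add_prod _ _
  have h1 := hmp.lintegral_comp hF
  rw [Measure.volume_eq_prod, ← h1, lintegral_prod]
  · refine lintegral_congr fun d => lintegral_congr fun v => ?_
    simp only
    rw [add_comm]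
  · exact (hF.comp hmp.measurable).aemeasurable

/-- the kernel -/
noncomputable def kk (δ d : ℝ) : ℝ≥0∞ :=
  3 * ((Icc (-δ) δ).indicator (fun _ => 2) d + (Icc (-δ) δ)ᶜ.indicator
    (fun d => (ENNReal.ofReal (2 * |d|))⁻¹) d)

theorem kk_meas (δ : ℝ) : Measurable (kk δ) := by
  unfold kk
  refine Measurable.const_mul ?_ _
  refine Measurable.add (measurable_const.indicator measurableSet_Icc) ?_
  exact (Measurable.inv (by fun_prop)).indicator measurableSet_Icc.compl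

theorem sq3 (a b c : ℂ) : ‖a + b + c‖ₑ ^ 2 ≤ 3 * (‖a‖ₑ ^ 2 + ‖b‖ₑ ^ 2 + ‖c‖ₑ ^ 2) := by
  have h : ‖a + b + c‖ ^ 2 ≤ 3 * (‖a‖ ^ 2 + ‖b‖ ^ 2 + ‖c‖ ^ 2) := by
    have h1 : ‖a + b + c‖ ≤ ‖a‖ + ‖b‖ + ‖c‖ := norm_add₃_le
    have h2 : ‖a + b + c‖ ^ 2 ≤ (‖a‖ + ‖b‖ + ‖c‖) ^ 2 := pow_le_pow_left₀ (norm_nonneg _) h1 2
    nlinarith [sq_nonneg (‖a‖ - ‖b‖), sq_nonneg (‖b‖ - ‖c‖), sq_nonneg (‖a‖ - ‖c‖)]
  have h' := ENNReal.ofReal_le_ofReal h
  rw [ENNReal.ofReal_mul (by norm_num), ENNReal.ofReal_add (by positivity) (by positivity),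
    ENNReal.ofReal_add (by positivity) (by positivity), ENNReal.ofReal_pow (norm_nonneg _),
    ENNReal.ofReal_pow (norm_nonneg _), ENNReal.ofReal_pow (norm_nonneg _),
    ENNReal.ofReal_pow (norm_nonneg _), ofReal_norm, ofReal_norm, ofReal_norm, ofReal_norm] at h'
  simpa using h'

theorem lint3 (μ ν : Measure ℝ) [SFinite μ] [SFinite ν] (a b c : ℝ × ℝ → ℝ≥0∞)
    (ha : Measurable a) (hb : Measurable b) (hc : Measurable c) :
    ∫⁻ t, ∫⁻ ξ, 3 * (a (ξ, t) + b (ξ, t) + c (ξ, t)) ∂ν ∂μ =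
      3 * ((∫⁻ t, ∫⁻ ξ, a (ξ, t) ∂ν ∂μ) + (∫⁻ t, ∫⁻ ξ, b (ξ, t) ∂ν ∂μ) +
        ∫⁻ t, ∫⁻ ξ, c (ξ, t) ∂ν ∂μ) := by
  have h1 : ∀ {F : ℝ × ℝ → ℝ≥0∞}, Measurable F → ∀ t : ℝ, Measurable fun ξ => F (ξ, t) :=
    fun hF t => hF.comp (measurable_id.prodMk measurable_const)
  have h2 : ∀ {F : ℝ × ℝ → ℝ≥0∞}, Measurable F → Measurable fun t => ∫⁻ ξ, F (ξ, t) ∂ν :=
    fun hF => Measurable.lintegral_prod_left' hF
  have e1 : ∀ t : ℝ, ∫⁻ ξ, 3 * (a (ξ, t) + b (ξ, t) + c (ξ, t)) ∂ν =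
      3 * ((∫⁻ ξ, a (ξ, t) ∂ν) + (∫⁻ ξ, b (ξ, t) ∂ν) + ∫⁻ ξ, c (ξ, t) ∂ν) := by
    intro t
    rw [lintegral_const_mul' _ _ (by norm_num)]
    congr 1
    have e3 := lintegral_add_left (μ := ν) ((h1 ha t).add (h1 hb t)) (fun ξ => c (ξ, t))
    have e4 := lintegral_add_left (μ := ν) (h1 ha t) (fun ξ => b (ξ, t))
    simp only [Pi.add_apply] at e3
    rw [e3, e4]
  simp_rw [e1]
  rw [lintegral_const_mul' _ _ (by norm_num)]
  congr 1
  have e3 := lintegral_add_left (μ := μ) ((h2 ha).add (h2 hb)) (fun t => ∫⁻ ξ, c (ξ, t) ∂ν)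
  have e4 := lintegral_add_left (μ := μ) (h2 ha) (fun t => ∫⁻ ξ, b (ξ, t) ∂ν)
  simp only [Pi.add_apply] at e3
  rw [e3, e4]

/-- the bilinear local estimate -/
theorem bil (δ : ℝ) (hδ : 0 < δ) {g h : ℝ → ℂ} (hg : Integrable g) (hh : Integrable h)
    (hgm : Measurable g) (hhm : Measurable h) :
    ∫⁻ t in Icc (-(1 / δ)) (1 / δ), ∫⁻ ξ, ‖E1 g ξ t‖ₑ ^ 2 * ‖E1 h ξ t‖ₑ ^ 2 ≤
      ∫⁻ d, kk δ d * ∫⁻ v, ‖g (v + d)‖ₑ ^ 2 * ‖h v‖ₑ ^ 2 := by
  set N : ℝ → ℝ≥0∞ := fun d => ∫⁻ v, ‖g (v + d)‖ₑ ^ 2 * ‖h v‖ₑ ^ 2 with hN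
  have hNm : Measurable N := by
    have hF : Measurable fun q : ℝ × ℝ => ‖g (q.2 + q.1)‖ₑ ^ 2 * ‖h q.2‖ₑ ^ 2 :=
      ((hgm.comp (by fun_prop)).enorm.pow_const 2).mul
        ((hhm.comp measurable_snd).enorm.pow_const 2)
    exact hF.lintegral_prod_right'
  have mp := II_meas hgm hhm _ (Sp_meas δ)
  have mm := II_meas hgm hhm _ (Sm_meas δ)
  have m0 := II_meas hgm hhm _ (S0_meas δ)
  -- off diagonal
  have key : ∀ S : Set (ℝ × ℝ), MeasurableSet S → ∀ σ : ℝ, (∀ p ∈ S, 0 < σ * (p.1 - p.2)) →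
      ∀ A : Set ℝ, (∀ d v : ℝ, (v + d, v) ∈ S ↔ d ∈ A) →
      ∫⁻ t in Icc (-(1 / δ)) (1 / δ), ∫⁻ ξ, ‖II S g h (ξ, t)‖ₑ ^ 2 ≤
        ∫⁻ d, A.indicator (fun d => (ENNReal.ofReal (2 * |d|))⁻¹ * N d) d := by
    intro S hS σ hσ A hA
    have hm := II_meas hgm hhm S hS
    calc ∫⁻ t in Icc (-(1 / δ)) (1 / δ), ∫⁻ ξ, ‖II S g h (ξ, t)‖ₑ ^ 2
        ≤ ∫⁻ t, ∫⁻ ξ, ‖II S g h (ξ, t)‖ₑ ^ 2 := setLIntegral_le_lintegral _ _
      _ = ∫⁻ y : ℝ × ℝ, ‖II S g h y‖ₑ ^ 2 := by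
          rw [Measure.volume_eq_prod, lintegral_prod_symm _ (hm.enorm.pow_const 2).aemeasurable]
      _ ≤ ∫⁻ p : ℝ × ℝ, S.indicator (fun p => ‖g p.1‖ₑ ^ 2 * ‖h p.2‖ₑ ^ 2 /
            ENNReal.ofReal (2 * |p.1 - p.2|)) p := off_diag σ S hS hσ hg hh
      _ = ∫⁻ d : ℝ, ∫⁻ v : ℝ, S.indicator (fun p => ‖g p.1‖ₑ ^ 2 * ‖h p.2‖ₑ ^ 2 /
            ENNReal.ofReal (2 * |p.1 - p.2|)) (v + d, v) := by
          rw [shear]
          refine Measurable.indicator ?_ hS
          refine Measurable.div ?_ (by fun_prop)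
          exact ((hgm.comp measurable_fst).enorm.pow_const 2).mul
            ((hhm.comp measurable_snd).enorm.pow_const 2)
      _ = ∫⁻ d, A.indicator (fun d => (ENNReal.ofReal (2 * |d|))⁻¹ * N d) d := by
          refine lintegral_congr fun d => ?_
          by_cases hd : d ∈ A
          · rw [indicator_of_mem hd, hN]
            have hF : Measurable fun v : ℝ => ‖g (v + d)‖ₑ ^ 2 * ‖h v‖ₑ ^ 2 :=
              ((hgm.comp (by fun_prop)).enorm.pow_const 2).mul (hhm.enorm.pow_const 2)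
            have hc := lintegral_const_mul (μ := volume) (ENNReal.ofReal (2 * |d|))⁻¹ hF
            simp only at hc ⊢
            rw [← hc]
            refine lintegral_congr fun v => ?_
            rw [indicator_of_mem ((hA d v).2 hd)]
            simp only [add_sub_cancel_left]
            rw [div_eq_mul_inv, mul_comm]
          · rw [indicator_of_notMem hd]
            have : ∀ v : ℝ, S.indicator (fun p : ℝ × ℝ => ‖g p.1‖ₑ ^ 2 * ‖h p.2‖ₑ ^ 2 /
                ENNReal.ofReal (2 * |p.1 - p.2|)) (v + d, v) = 0 := fun v =>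
              indicator_of_notMem (fun h2 => hd ((hA d v).1 h2)) _
            simp_rw [this]
            simp
  have kp := key (Sp δ) (Sp_meas δ) 1 (fun p hp => by
    have : δ < p.1 - p.2 := hp
    linarith) (Ioi δ) (fun d v => by
      show δ < v + d - v ↔ δ < d
      rw [add_sub_cancel_left])
  have km := key (Sm δ) (Sm_meas δ) (-1) (fun p hp => by
    have : p.1 - p.2 < -δ := hp
    linarith) (Iio (-δ)) (fun d v => by
      show v + d - v < -δ ↔ d < -δ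
      rw [add_sub_cancel_left])
  have k0 : ∫⁻ t in Icc (-(1 / δ)) (1 / δ), ∫⁻ ξ, ‖II (S0 δ) g h (ξ, t)‖ₑ ^ 2 ≤
      2 * ∫⁻ d in Icc (-δ) δ, N d := by
    calc ∫⁻ t in Icc (-(1 / δ)) (1 / δ), ∫⁻ ξ, ‖II (S0 δ) g h (ξ, t)‖ₑ ^ 2
        ≤ ∫⁻ t in Icc (-(1 / δ)) (1 / δ), ENNReal.ofReal δ * ∫⁻ d in Icc (-δ) δ, N d :=
          lintegral_mono fun t => near_diag δ hδ hg hh hgm hhm t
      _ = 2 * ∫⁻ d in Icc (-δ) δ, N d := by
          rw [lintegral_const, Measure.restrict_apply_univ, Real.volume_Icc, mul_right_comm,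
            ← ENNReal.ofReal_mul hδ.le]
          congr 1
          rw [show δ * (1 / δ - -(1 / δ)) = 2 by field_simp; norm_num]
          simp
  calc ∫⁻ t in Icc (-(1 / δ)) (1 / δ), ∫⁻ ξ, ‖E1 g ξ t‖ₑ ^ 2 * ‖E1 h ξ t‖ₑ ^ 2
      ≤ ∫⁻ t in Icc (-(1 / δ)) (1 / δ), ∫⁻ ξ, 3 * (‖II (Sp δ) g h (ξ, t)‖ₑ ^ 2 +
          ‖II (Sm δ) g h (ξ, t)‖ₑ ^ 2 + ‖II (S0 δ) g h (ξ, t)‖ₑ ^ 2) := by
        refine lintegral_mono fun t => lintegral_mono fun ξ => ?_
        simp only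
        rw [← mul_pow, ← enorm_mul, E1_mul, II_split δ hδ hg hh]
        exact sq3 _ _ _
    _ = 3 * ((∫⁻ t in Icc (-(1 / δ)) (1 / δ), ∫⁻ ξ, ‖II (Sp δ) g h (ξ, t)‖ₑ ^ 2) +
          (∫⁻ t in Icc (-(1 / δ)) (1 / δ), ∫⁻ ξ, ‖II (Sm δ) g h (ξ, t)‖ₑ ^ 2) +
          ∫⁻ t in Icc (-(1 / δ)) (1 / δ), ∫⁻ ξ, ‖II (S0 δ) g h (ξ, t)‖ₑ ^ 2) :=
        lint3 _ _ _ _ _ (mp.enorm.pow_const 2) (mm.enorm.pow_const 2) (m0.enorm.pow_const 2)
    _ ≤ 3 * ((∫⁻ d, (Ioi δ).indicator (fun d => (ENNReal.ofReal (2 * |d|))⁻¹ * N d) d) +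
          (∫⁻ d, (Iio (-δ)).indicator (fun d => (ENNReal.ofReal (2 * |d|))⁻¹ * N d) d) +
          2 * ∫⁻ d in Icc (-δ) δ, N d) :=
        mul_le_mul' le_rfl (add_le_add (add_le_add kp km) k0)
    _ = ∫⁻ d, kk δ d * N d := by
        have b1 : Measurable fun d => (Ioi δ).indicator
            (fun d => (ENNReal.ofReal (2 * |d|))⁻¹ * N d) d :=
          ((Measurable.inv (by fun_prop)).mul hNm).indicator measurableSet_Ioi
        have b2 : Measurable fun d => (Iio (-δ)).indicator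
            (fun d => (ENNReal.ofReal (2 * |d|))⁻¹ * N d) d :=
          ((Measurable.inv (by fun_prop)).mul hNm).indicator measurableSet_Iio
        have b3 : 2 * ∫⁻ d in Icc (-δ) δ, N d =
            ∫⁻ d, 2 * (Icc (-δ) δ).indicator N d := by
          rw [lintegral_const_mul' _ _ (by norm_num), lintegral_indicator measurableSet_Icc]
        have e3 := lintegral_add_left (μ := volume) (b1.add b2)
          (fun d => 2 * (Icc (-δ) δ).indicator N d)
        have e4 := lintegral_add_left (μ := volume) b1 (fun d => (Iio (-δ)).indicator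
            (fun d => (ENNReal.ofReal (2 * |d|))⁻¹ * N d) d)
        simp only [Pi.add_apply] at e3
        rw [b3, ← e4, ← e3, ← lintegral_const_mul' _ _ (by norm_num)]
        refine lintegral_congr fun d => ?_
        unfold kk
        rw [mul_assoc]
        congr 1
        by_cases h1 : d ∈ Icc (-δ) δ
        · have h2 : d ∉ Ioi δ := fun h => absurd h1.2 (not_le.2 h)
          have h3 : d ∉ Iio (-δ) := fun h => absurd h1.1 (not_le.2 h)
          have h4 : d ∉ (Icc (-δ) δ)ᶜ := fun h => h h1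
          rw [indicator_of_notMem h2, indicator_of_notMem h3, indicator_of_notMem h4,
            indicator_of_mem h1, indicator_of_mem h1]
          simp
        · have h4 : d ∈ (Icc (-δ) δ)ᶜ := h1
          rw [indicator_of_mem h4, indicator_of_notMem h1, indicator_of_notMem h1]
          rcases lt_or_ge δ d with h5 | h5
          · have h2 : d ∈ Ioi δ := h5
            have h3 : d ∉ Iio (-δ) := fun h => by
              have : d < -δ := h
              linarith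
            rw [indicator_of_mem h2, indicator_of_notMem h3]
            simp
          · have h2 : d ∉ Ioi δ := fun h => absurd h5 (not_le.2 h)
            have h3 : d ∈ Iio (-δ) := by
              by_contra h6
              exact h1 ⟨not_lt.1 h6, h5⟩
            rw [indicator_of_notMem h2, indicator_of_mem h3]
            simp

end Pool.Agent.J6H76.TS
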