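import Mathlib
import Pool.Agent.J6H76.TS.B
set_option autoImplicit false

/-! Trigonometric polynomials: orthogonality, Gaussian weights, and the square of a Gaussian window
transform. -/

namespace Pool.Agent.J6H76.TS

open MeasureTheory Complex Set Filter Topology
open scoped ENNReal ComplexConjugate Real
open Pool.Agent.R412.RT (E ee ee_norm ee_add ee_conj ee_meas ee_cont planch)

theorem ee_zero : ee 0 = 1 := by unfold ee; simp

theorem ee_int (k : ℤ) : ee k = 1 := by
  unfold ee
  rw [show 2 * (Real.pi : ℂ) * ((k : ℝ) : ℂ) * I = k * (2 * Real.pi * I) by push_cast; ring]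
  exact Complex.exp_int_mul_two_pi_mul_I k

theorem ee_intg (k : ℤ) : ∫ x in (0 : ℝ)..1, ee (k * x) = if k = 0 then 1 else 0 := by
  split_ifs with h
  · subst h
    simp [ee_zero]
  · have hc : (2 * Real.pi * k * I : ℂ) ≠ 0 := by
      have : (k : ℂ) ≠ 0 := by exact_mod_cast h
      have hpi : (Real.pi : ℂ) ≠ 0 := by exact_mod_cast Real.pi_ne_zero
      simp [this, hpi]
    have h1 : ∀ x : ℝ, ee (k * x) = cexp ((2 * Real.pi * k * I : ℂ) * x) := by
      intro x
      unfold ee
      congr 1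
      push_cast
      ring
    simp_rw [h1]
    rw [integral_exp_mul_complex hc]
    have h2 : cexp ((2 * Real.pi * k * I : ℂ) * (1 : ℝ)) = 1 := by
      have := ee_int k
      unfold ee at this
      rw [← this]
      congr 1
      push_cast
      ring
    rw [h2]
    simp

/-- Parseval for trigonometric polynomials -/
theorem parseval (S : Finset ℤ) (γ : ℤ → ℂ) :
    ∫ x in (0 : ℝ)..1, ‖∑ s ∈ S, γ s * ee (s * x)‖ ^ 2 = ∑ s ∈ S, ‖γ s‖ ^ 2 := by
  have h1 : ∀ x : ℝ, ((‖∑ s ∈ S, γ s * ee (s * x)‖ ^ 2 : ℝ) : ℂ) =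
      ∑ s ∈ S, ∑ r ∈ S, γ s * conj (γ r) * ee ((s - r : ℤ) * x) := by
    intro x
    rw [← Complex.normSq_eq_norm_sq, ← Complex.mul_conj, map_sum, Finset.sum_mul_sum]
    refine Finset.sum_congr rfl fun s _ => Finset.sum_congr rfl fun r _ => ?_
    rw [map_mul, ee_conj]
    push_cast
    rw [show ((s : ℝ) - r) * x = s * x + -(r * x) by ring, ee_add]
    ring
  have h2 : ((∫ x in (0 : ℝ)..1, ‖∑ s ∈ S, γ s * ee (s * x)‖ ^ 2 : ℝ) : ℂ) =
      ((∑ s ∈ S, ‖γ s‖ ^ 2 : ℝ) : ℂ) := by
    rw [← intervalIntegral.integral_ofReal]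
    simp_rw [h1]
    have hc : ∀ s r : ℤ, Continuous fun x : ℝ => γ s * conj (γ r) * ee ((s - r : ℤ) * x) :=
      fun s r => continuous_const.mul (ee_cont.comp (by fun_prop))
    rw [intervalIntegral.integral_finsetSum fun s _ =>
      (continuous_finsetSum _ fun r _ => hc s r).intervalIntegrable _ _]
    rw [Complex.ofReal_sum]
    refine Finset.sum_congr rfl fun s hs => ?_
    rw [intervalIntegral.integral_finsetSum fun r _ => (hc s r).intervalIntegrable _ _]
    rw [Finset.sum_eq_single s]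
    · rw [intervalIntegral.integral_const_mul, ee_intg]
      simp only [sub_self, if_true, mul_one]
      rw [Complex.mul_conj, Complex.normSq_eq_norm_sq]
    · intro r _ hr
      rw [intervalIntegral.integral_const_mul, ee_intg, if_neg (by omega), mul_zero]
    · intro h
      exact absurd hs h
  exact_mod_cast h2

/-- the constant in the Gaussian estimate -/
noncomputable def Cg : ℝ≥0∞ := ∑' k : ℤ, ENNReal.ofReal (Real.exp (2 * π) * Real.exp (-π * |(k : ℝ)|))

theorem geo_summable (a : ℝ) (ha : 0 < a) : Summable fun k : ℤ => Real.exp (-a * |(k : ℝ)|) := by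
  have h : Summable fun n : ℕ => Real.exp (-a * (n : ℝ)) := by
    have h1 : Summable fun n : ℕ => Real.exp (-a) ^ n :=
      summable_geometric_of_lt_one (Real.exp_pos _).le (Real.exp_lt_one_iff.2 (by linarith))
    refine h1.congr fun n => ?_
    rw [← Real.exp_nat_mul]
    congr 1
    ring
  refine Summable.of_nat_of_neg ?_ ?_
  · refine h.congr fun n => ?_
    simp
  · refine h.congr fun n => ?_
    simp

theorem Cg_ne_top : Cg ≠ ∞ := by
  unfold Cg
  have h := (geo_summable π Real.pi_pos).mul_left (Real.exp (2 * π))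
  exact h.tsum_ofReal_ne_top

/-- Gaussian averages of periodic functions -/
theorem gauss_per (G : ℝ → ℝ≥0∞) (hG : Measurable G) (hper : ∀ (x : ℝ) (k : ℤ), G (x + k) = G x) :
    ∫⁻ w, ENNReal.ofReal (Real.exp (-π * w ^ 2)) * G w ≤ Cg * ∫⁻ w in Ioc (0 : ℝ) 1, G w := by
  have hdec : ∀ F : ℝ → ℝ≥0∞, ∫⁻ w, F w = ∑' k : ℤ, ∫⁻ w in Ioc (0 : ℝ) 1, F (w + k) := by
    intro F
    have h1 : ∫⁻ w, F w = ∑' k : ℤ, ∫⁻ w in Ioc (k : ℝ) (k + 1), F w := by
      rw [← lintegral_iUnion (fun k : ℤ => measurableSet_Ioc)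
        (by simpa using pairwise_disjoint_Ioc_add_intCast (0 : ℝ)), iUnion_Ioc_intCast,
        Measure.restrict_univ]
    rw [h1]
    refine tsum_congr fun k => ?_
    rw [← lintegral_indicator measurableSet_Ioc, ← lintegral_indicator measurableSet_Ioc,
      ← lintegral_add_right_eq_self _ (k : ℝ)]
    refine lintegral_congr fun w => ?_
    by_cases hw : w ∈ Ioc (0 : ℝ) 1
    · rw [indicator_of_mem hw, indicator_of_mem]
      exact ⟨by linarith [hw.1], by linarith [hw.2]⟩
    · rw [indicator_of_notMem hw, indicator_of_notMem]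
      intro h
      exact hw ⟨by linarith [h.1], by linarith [h.2]⟩
  rw [hdec]
  unfold Cg
  rw [← ENNReal.tsum_mul_right]
  refine ENNReal.tsum_le_tsum fun k => ?_
  rw [← lintegral_const_mul _ hG]
  refine setLIntegral_mono' measurableSet_Ioc fun w hw => ?_
  rw [hper]
  refine mul_le_mul' (ENNReal.ofReal_le_ofReal ?_) le_rfl
  rw [← Real.exp_add]
  refine Real.exp_le_exp.2 ?_
  have h1 : |(k : ℝ)| - 1 ≤ |w + k| := by
    have := abs_sub_abs_le_abs_sub (k : ℝ) (-w)
    rw [abs_neg, abs_of_pos hw.1, sub_neg_eq_add, add_comm (k : ℝ)] at this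
    linarith [hw.2]
  have h2 : |w + k| - 1 ≤ (w + k) ^ 2 := by
    rw [← sq_abs]
    nlinarith [sq_nonneg (|w + k| - 1), abs_nonneg (w + k)]
  have h3 : |(k : ℝ)| - 2 ≤ (w + k) ^ 2 := by linarith
  nlinarith [Real.pi_pos, mul_le_mul_of_nonneg_left h3 Real.pi_pos.le]

/-- the square of a Fourier transform -/
theorem conv_sq (u : ℝ → ℂ) (hu : Integrable u) (η : ℝ) :
    (∫ y, ee (y * η) * u y) ^ 2 = ∫ w, ee (w * η) * ∫ v, u (w / 2 + v) * u (w / 2 - v) := by
  have ha : Integrable fun y => ee (y * η) * u y := by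
    refine hu.bdd_mul (c := 1) ?_ (Eventually.of_forall fun u => (ee_norm _).le)
    exact (ee_meas.comp (by fun_prop)).aestronglyMeasurable
  have h1 := integral_convolution (ContinuousLinearMap.mul ℂ ℂ) ha ha
  rw [ContinuousLinearMap.mul_apply'] at h1
  rw [sq, ← h1]
  refine integral_congr_ae (Eventually.of_forall fun w => ?_)
  simp only
  rw [convolution_def]
  simp only [ContinuousLinearMap.mul_apply']
  rw [← integral_add_right_eq_self _ (w / 2), ← integral_const_mul]
  refine integral_congr_ae (Eventually.of_forall fun v => ?_)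
  simp only
  rw [show w - (v + w / 2) = w / 2 - v by ring, show v + w / 2 = w / 2 + v by ring,
    show w * η = (w / 2 + v) * η + (w / 2 - v) * η by ring, ee_add]
  ring

/-- the windowed polynomial -/
noncomputable def W (F : Finset ℤ) (b : ℤ → ℂ) (t y : ℝ) : ℂ :=
  cexp (-(π * (1 - 2 * t * I)) * y ^ 2) * ∑ n ∈ F, b n * ee (2 * n * y)

theorem re_b (t : ℝ) (r : ℝ) : ((r : ℂ) * (π * (1 - 2 * t * I))).re = r * π := by
  simp

theorem W_int (F : Finset ℤ) (b : ℤ → ℂ) (t : ℝ) : Integrable (W F b t) := by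
  unfold W
  have h1 : Integrable fun y : ℝ => cexp (-(π * (1 - 2 * t * I)) * y ^ 2) := by
    refine integrable_cexp_neg_mul_sq ?_
    have := re_b t 1
    rw [ofReal_one, one_mul, one_mul] at this
    rw [this]
    exact Real.pi_pos
  simp_rw [mul_comm (cexp _)]
  refine h1.bdd_mul (c := ∑ n ∈ F, ‖b n‖) ?_ (Eventually.of_forall fun y => ?_)
  · refine Measurable.aestronglyMeasurable ?_
    exact Finset.measurable_sum _ fun n _ => measurable_const.mul (ee_meas.comp (by fun_prop))
  · refine (norm_sum_le _ _).trans (Finset.sum_le_sum fun n _ => ?_)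
    rw [norm_mul, ee_norm, mul_one]

/-- the Gaussian coefficient -/
noncomputable def κ (t : ℝ) (k : ℤ) : ℂ :=
  ∫ v : ℝ, cexp (-(2 * (π * (1 - 2 * t * I))) * v ^ 2) * ee (2 * k * v)

theorem κ_norm (t : ℝ) (k : ℤ) : ‖κ t k‖ ^ 2 =
    1 / (2 * Real.sqrt (1 + 4 * t ^ 2)) * Real.exp (-(4 * π * k ^ 2 / (1 + 4 * t ^ 2))) := by
  set D : ℝ := 1 + 4 * t ^ 2 with hD
  have hD0 : 0 < D := by positivity
  set a : ℂ := 2 * (π * (1 - 2 * t * I)) with ha
  have hare : a.re = 2 * π := by
    have := re_b t 2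
    rw [ofReal_ofNat] at this
    exact this
  have haim : a.im = -(4 * π * t) := by
    rw [ha]
    simp
    ring
  have hnorm : ‖a‖ = 2 * π * Real.sqrt D := by
    rw [Complex.norm_def, Complex.normSq_apply, hare, haim,
      show 2 * π * (2 * π) + -(4 * π * t) * -(4 * π * t) = (2 * π) ^ 2 * D by rw [hD]; ring,
      Real.sqrt_mul (by positivity), Real.sqrt_sq (by positivity)]
  have h1 := fourierIntegral_gaussian (b := a) (by rw [hare]; positivity) (4 * π * k : ℂ)
  have h2 : κ t k = (π / a) ^ (1 / 2 : ℂ) * cexp (-(4 * π * k : ℂ) ^ 2 / (4 * a)) := by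
    rw [← h1]
    unfold κ
    refine integral_congr_ae (Eventually.of_forall fun v => ?_)
    simp only
    rw [← ha, mul_comm]
    congr 1
    unfold ee
    congr 1
    push_cast
    ring
  have hx : (-(4 * π * k : ℂ) ^ 2 / (4 * a)).re = -(2 * π * k ^ 2 / D) := by
    have e1 : (-(4 * π * k : ℂ) ^ 2 / (4 * a)) = ((-(4 * π * k) ^ 2 / 4 : ℝ) : ℂ) * a⁻¹ := by
      push_cast
      rw [div_mul_eq_div_div]
      rfl
    rw [e1, Complex.re_ofReal_mul, Complex.inv_re, hare, Complex.normSq_eq_norm_sq, hnorm,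
      mul_pow (2 * π), Real.sq_sqrt hD0.le]
    have hp := Real.pi_pos
    field_simp
    ring
  rw [h2, norm_mul, Complex.norm_exp, hx, mul_pow]
  congr 1
  · have : ((1 / 2 : ℂ)) = ((1 / 2 : ℝ) : ℂ) := by push_cast; rfl
    rw [this, Complex.norm_cpow_real, ← Real.rpow_natCast, ← Real.rpow_mul (norm_nonneg _)]
    norm_num
    rw [hnorm, abs_of_pos Real.pi_pos]
    have hs := Real.sqrt_pos.2 hD0
    have hp := Real.pi_pos
    field_simp
  · rw [← Real.exp_nat_mul]
    congr 1
    push_cast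
    ring

/-- the autocorrelation of the windowed polynomial -/
theorem W_conv (F : Finset ℤ) (b : ℤ → ℂ) (t w : ℝ) :
    ∫ v, W F b t (w / 2 + v) * W F b t (w / 2 - v) =
      cexp (-(π * (1 - 2 * t * I)) * (w ^ 2 / 2)) *
        ∑ n ∈ F, ∑ m ∈ F, b n * b m * κ t (n - m) * ee ((n + m : ℤ) * w) := by
  have h1 : ∀ v, W F b t (w / 2 + v) * W F b t (w / 2 - v) =
      ∑ n ∈ F, ∑ m ∈ F, cexp (-(π * (1 - 2 * t * I)) * (w ^ 2 / 2)) *
        (b n * b m * ee ((n + m : ℤ) * w)) *
        (cexp (-(2 * (π * (1 - 2 * t * I))) * v ^ 2) * ee (2 * (n - m : ℤ) * v)) := by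
    intro v
    unfold W
    rw [mul_mul_mul_comm, Finset.sum_mul_sum, Finset.mul_sum]
    refine Finset.sum_congr rfl fun n _ => ?_
    rw [Finset.mul_sum]
    refine Finset.sum_congr rfl fun m _ => ?_
    have e1 : cexp (-(π * (1 - 2 * t * I)) * ((w / 2 + v : ℝ) : ℂ) ^ 2) *
        cexp (-(π * (1 - 2 * t * I)) * ((w / 2 - v : ℝ) : ℂ) ^ 2) =
        cexp (-(π * (1 - 2 * t * I)) * (w ^ 2 / 2)) *
          cexp (-(2 * (π * (1 - 2 * t * I))) * v ^ 2) := by
      rw [← Complex.exp_add, ← Complex.exp_add]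
      congr 1
      push_cast
      ring
    have e2 : ee (2 * n * (w / 2 + v)) * ee (2 * m * (w / 2 - v)) =
        ee ((n + m : ℤ) * w) * ee (2 * (n - m : ℤ) * v) := by
      rw [← ee_add, ← ee_add]
      congr 1
      push_cast
      ring
    rw [e1, mul_mul_mul_comm (b n), e2]
    ring
  simp_rw [h1]
  have hg : ∀ k : ℤ, Integrable fun v : ℝ =>
      cexp (-(2 * (π * (1 - 2 * t * I))) * v ^ 2) * ee (2 * k * v) := by
    intro k
    have h1 : Integrable fun y : ℝ => cexp (-(2 * (π * (1 - 2 * t * I))) * y ^ 2) := by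
      refine integrable_cexp_neg_mul_sq ?_
      have := re_b t 2
      rw [ofReal_ofNat] at this
      rw [this]
      positivity
    simp_rw [mul_comm (cexp _)]
    refine h1.bdd_mul (c := 1) ?_ (Eventually.of_forall fun y => (ee_norm _).le)
    exact (ee_meas.comp (by fun_prop)).aestronglyMeasurable
  rw [integral_finsetSum _ fun n _ => integrable_finsetSum _ fun m _ => (hg _).const_mul _]
  rw [Finset.mul_sum]
  refine Finset.sum_congr rfl fun n _ => ?_
  rw [integral_finsetSum _ fun m _ => (hg _).const_mul _, Finset.mul_sum]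
  refine Finset.sum_congr rfl fun m _ => ?_
  rw [integral_const_mul]
  unfold κ
  ring

end Pool.Agent.J6H76.TS
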