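import Mathlib
import Pool.Agent.J6H76.TS.G
set_option autoImplicit false

/-! The block decomposition. -/

namespace Pool.Agent.J6H76.TS

open MeasureTheory Complex Set Filter Topology
open scoped ENNReal ComplexConjugate Real
open Pool.Agent.R412.RT (E ee ee_norm ee_add ee_conj ee_meas ee_cont planch)

/-- the local `L⁴` hypothesis -/
def LocL4 (L : Set ℤ) (κ A : ℝ) : Prop :=
  ∀ (a : ℤ) (N : ℕ), 1 ≤ N → ∀ (F : Finset ℤ) (b : ℤ → ℂ),
    (∀ n ∈ F, n ∈ L ∧ a ≤ n ∧ n < a + N) →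
    ∫ x in (0 : ℝ)..1, ‖∑ n ∈ F, b n * ee (n * x)‖ ^ 4 ≤
      A * (N : ℝ) ^ κ * (∑ n ∈ F, ‖b n‖ ^ 2) ^ 2

/-- the part of `F` in the block `k` -/
def bl (F : Finset ℤ) (N : ℕ) (k : ℤ) : Finset ℤ := F.filter fun n => n / (N : ℤ) = k

/-- the mass of a block -/
noncomputable def ms (F : Finset ℤ) (N : ℕ) (B : ℤ → ℝ) (k : ℤ) : ℝ := ∑ n ∈ bl F N k, B n ^ 2

/-- the convolution of two blocks -/
noncomputable def cv (F : Finset ℤ) (N : ℕ) (B : ℤ → ℝ) (k l s : ℤ) : ℝ :=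
  ∑ p ∈ (bl F N k ×ˢ bl F N l).filter (fun p => p.1 + p.2 = s), B p.1 * B p.2

theorem ms_nonneg (F : Finset ℤ) (N : ℕ) (B : ℤ → ℝ) (k : ℤ) : 0 ≤ ms F N B k :=
  Finset.sum_nonneg fun _ _ => sq_nonneg _

variable {L : Set ℤ} {κ A : ℝ} (hA : LocL4 L κ A) (F : Finset ℤ) (hF : ∀ n ∈ F, n ∈ L)
  (N : ℕ) (hN : 1 ≤ N) (B : ℤ → ℝ)
include hA hF hN

theorem block4 (k : ℤ) : ∫ x in (0 : ℝ)..1, ‖∑ n ∈ bl F N k, (B n : ℂ) * ee (n * x)‖ ^ 4 ≤
    A * (N : ℝ) ^ κ * (ms F N B k) ^ 2 := by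
  have h := hA (k * N) N hN (bl F N k) (fun n => (B n : ℂ)) (fun n hn => by
    unfold bl at hn
    rw [Finset.mem_filter] at hn
    refine ⟨hF n hn.1, ?_, ?_⟩
    · rw [← hn.2]
      exact Int.ediv_mul_le n (by omega)
    · rw [← hn.2]
      have := Int.lt_ediv_add_one_mul_self n (show (0 : ℤ) < N by omega)
      linarith)
  refine h.trans (le_of_eq ?_)
  unfold ms
  congr 2
  refine Finset.sum_congr rfl fun n _ => ?_
  rw [Complex.norm_real, Real.norm_eq_abs, sq_abs]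

theorem block_conv (k l : ℤ) (S : Finset ℤ) :
    ∑ s ∈ S, cv F N B k l s ^ 2 ≤
      A * (N : ℝ) ^ κ * ((ms F N B k ^ 2 + ms F N B l ^ 2) / 2) := by
  set S' : Finset ℤ := S ∪ (bl F N k ×ˢ bl F N l).image (fun p => p.1 + p.2) with hS'
  have h1 : ∑ s ∈ S, cv F N B k l s ^ 2 ≤ ∑ s ∈ S', cv F N B k l s ^ 2 :=
    Finset.sum_le_sum_of_subset_of_nonneg Finset.subset_union_left fun _ _ _ => sq_nonneg _
  have h2 := parseval S' (fun s => (cv F N B k l s : ℂ))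
  have h3 : ∑ s ∈ S', ‖(cv F N B k l s : ℂ)‖ ^ 2 = ∑ s ∈ S', cv F N B k l s ^ 2 :=
    Finset.sum_congr rfl fun s _ => by rw [Complex.norm_real, Real.norm_eq_abs, sq_abs]
  have h4 : ∀ x : ℝ, ∑ s ∈ S', (cv F N B k l s : ℂ) * ee (s * x) =
      (∑ n ∈ bl F N k, (B n : ℂ) * ee (n * x)) * ∑ m ∈ bl F N l, (B m : ℂ) * ee (m * x) := by
    intro x
    rw [Finset.sum_mul_sum, ← Finset.sum_product',
      ← Finset.sum_fiberwise_of_maps_to (s := bl F N k ×ˢ bl F N l) (t := S')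
        (g := fun p : ℤ × ℤ => p.1 + p.2)]
    · refine Finset.sum_congr rfl fun s _ => ?_
      unfold cv
      push_cast
      rw [Finset.sum_mul]
      refine Finset.sum_congr rfl fun p hp => ?_
      rw [Finset.mem_filter] at hp
      rw [← hp.2]
      push_cast
      rw [add_mul, ee_add]
      ring
    · intro p hp
      rw [hS']
      exact Finset.mem_union_right _ (Finset.mem_image_of_mem _ hp)
  have hc : ∀ k, Continuous fun x : ℝ => ∑ n ∈ bl F N k, (B n : ℂ) * ee (n * x) := fun k =>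
    continuous_finsetSum _ fun n _ => continuous_const.mul (ee_cont.comp (by fun_prop))
  rw [← h3, ← h2] at h1
  refine h1.trans ?_
  simp_rw [h4]
  calc ∫ x in (0 : ℝ)..1, ‖(∑ n ∈ bl F N k, (B n : ℂ) * ee (n * x)) *
        ∑ m ∈ bl F N l, (B m : ℂ) * ee (m * x)‖ ^ 2
      ≤ ∫ x in (0 : ℝ)..1, (‖∑ n ∈ bl F N k, (B n : ℂ) * ee (n * x)‖ ^ 4 / 2 +
          ‖∑ m ∈ bl F N l, (B m : ℂ) * ee (m * x)‖ ^ 4 / 2) := by
        refine intervalIntegral.integral_mono_on zero_le_one ?_ ?_ fun x _ => ?_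
        · exact ((((hc k).mul (hc l)).norm).pow 2).intervalIntegrable _ _
        · exact ((((hc k).norm.pow 4).div_const 2).add
            (((hc l).norm.pow 4).div_const 2)).intervalIntegrable _ _
        · rw [norm_mul]
          nlinarith [sq_nonneg (‖∑ n ∈ bl F N k, (B n : ℂ) * ee (n * x)‖ ^ 2 -
            ‖∑ m ∈ bl F N l, (B m : ℂ) * ee (m * x)‖ ^ 2)]
    _ = (∫ x in (0 : ℝ)..1, ‖∑ n ∈ bl F N k, (B n : ℂ) * ee (n * x)‖ ^ 4) / 2 +
          (∫ x in (0 : ℝ)..1, ‖∑ m ∈ bl F N l, (B m : ℂ) * ee (m * x)‖ ^ 4) / 2 := by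
        rw [intervalIntegral.integral_add, intervalIntegral.integral_div,
          intervalIntegral.integral_div]
        · exact (((hc k).norm.pow 4).div_const 2).intervalIntegrable _ _
        · exact (((hc l).norm.pow 4).div_const 2).intervalIntegrable _ _
    _ ≤ A * (N : ℝ) ^ κ * ((ms F N B k ^ 2 + ms F N B l ^ 2) / 2) := by
        have e1 := block4 hA F hF N hN B k
        have e2 := block4 hA F hF N hN B l
        linarith

omit hA hF hN in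
theorem ms_sum (K : Finset ℤ) : ∑ k ∈ K, ms F N B k ^ 2 ≤ (∑ n ∈ F, B n ^ 2) ^ 2 := by
  have h1 : ∑ k ∈ K, ms F N B k ≤ ∑ n ∈ F, B n ^ 2 := by
    unfold ms bl
    refine Finset.sum_fiberwise_le_sum_of_sum_fiber_nonneg fun k _ => ?_
    exact Finset.sum_nonneg fun _ _ => sq_nonneg _
  have h2 : ∑ k ∈ K, ms F N B k ^ 2 ≤ (∑ k ∈ K, ms F N B k) ^ 2 := by
    rw [sq (∑ k ∈ K, ms F N B k), Finset.sum_mul]
    refine Finset.sum_le_sum fun k hk => ?_
    rw [sq]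
    exact mul_le_mul_of_nonneg_left (Finset.single_le_sum (fun i _ => ms_nonneg F N B i) hk)
      (ms_nonneg F N B k)
  refine h2.trans (pow_le_pow_left₀ (Finset.sum_nonneg fun i _ => ms_nonneg F N B i) h1 2)

/-- the pairs of block difference `j` -/
noncomputable def cj (F : Finset ℤ) (N : ℕ) (B : ℤ → ℝ) (j s : ℤ) : ℝ :=
  ∑ p ∈ (F ×ˢ F).filter (fun p => p.1 + p.2 = s ∧ p.1 / (N : ℤ) - p.2 / (N : ℤ) = j),
    B p.1 * B p.2

omit hA hF in
theorem cj_eq (j s : ℤ) : cj F N B j s =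
    cv F N B ((s + j * N) / (2 * N)) ((s + j * N) / (2 * N) - j) s := by
  unfold cj cv
  congr 1
  ext p
  simp only [Finset.mem_filter, Finset.mem_product, bl]
  have hN0 : (0 : ℤ) < N := by omega
  constructor
  · rintro ⟨⟨h1, h2⟩, h3, h4⟩
    have a1 := Int.ediv_mul_le p.1 hN0.ne'
    have a2 := Int.lt_ediv_add_one_mul_self p.1 hN0
    have a3 := Int.ediv_mul_le p.2 hN0.ne'
    have a4 := Int.lt_ediv_add_one_mul_self p.2 hN0
    have h5 : (s + j * N) / (2 * N) = p.1 / N := by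
      rw [← h4, ← h3]
      refine le_antisymm (Int.lt_add_one_iff.1 ((Int.ediv_lt_iff_lt_mul (by omega)).2 ?_))
        ((Int.le_ediv_iff_mul_le (by omega)).2 ?_)
      · nlinarith
      · nlinarith
    exact ⟨⟨⟨h1, h5.symm⟩, h2, by omega⟩, h3⟩
  · rintro ⟨⟨⟨h1, h2⟩, h3, h4⟩, h5⟩
    exact ⟨⟨h1, h3⟩, h5, by omega⟩

theorem cj_bound (hA0 : 0 ≤ A) (j : ℤ) (S : Finset ℤ) :
    ∑ s ∈ S, cj F N B j s ^ 2 ≤ A * (N : ℝ) ^ κ * (∑ n ∈ F, B n ^ 2) ^ 2 := by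
  set K : Finset ℤ := S.image fun s => (s + j * N) / (2 * N) with hK
  calc ∑ s ∈ S, cj F N B j s ^ 2
      ≤ ∑ s ∈ S, ∑ k ∈ K, cv F N B k (k - j) s ^ 2 := by
        refine Finset.sum_le_sum fun s hs => ?_
        rw [cj_eq F N hN B]
        exact Finset.single_le_sum (f := fun k => cv F N B k (k - j) s ^ 2)
          (fun i _ => sq_nonneg _) (Finset.mem_image_of_mem _ hs)
    _ = ∑ k ∈ K, ∑ s ∈ S, cv F N B k (k - j) s ^ 2 := Finset.sum_comm
    _ ≤ ∑ k ∈ K, A * (N : ℝ) ^ κ * ((ms F N B k ^ 2 + ms F N B (k - j) ^ 2) / 2) :=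
        Finset.sum_le_sum fun k _ => block_conv hA F hF N hN B k (k - j) S
    _ = A * (N : ℝ) ^ κ * ((∑ k ∈ K, ms F N B k ^ 2 + ∑ k ∈ K, ms F N B (k - j) ^ 2) / 2) := by
        rw [← Finset.mul_sum, ← Finset.sum_div, Finset.sum_add_distrib]
    _ ≤ A * (N : ℝ) ^ κ * (∑ n ∈ F, B n ^ 2) ^ 2 := by
        have e1 := ms_sum F N B K
        have e2 : ∑ k ∈ K, ms F N B (k - j) ^ 2 ≤ (∑ n ∈ F, B n ^ 2) ^ 2 := by
          have := ms_sum F N B (K.image fun k => k - j)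
          rwa [Finset.sum_image (fun a _ b _ h => by simpa using h)] at this
        refine mul_le_mul_of_nonneg_left ?_ (by positivity)
        linarith

/-- the sum of a geometric series -/
noncomputable def Cr (c : ℝ) : ℝ := ∑' j : ℤ, Real.exp (-c * |(j : ℝ)|)

/-- **the block estimate** -/
theorem blocks (hA0 : 0 ≤ A) (c : ℝ) (hc : 0 < c) (S : Finset ℤ) :
    ∑ s ∈ S, (∑ p ∈ (F ×ˢ F).filter (fun p => p.1 + p.2 = s),
      B p.1 * B p.2 * Real.exp (-c * |((p.1 / (N : ℤ) - p.2 / (N : ℤ) : ℤ) : ℝ)|)) ^ 2 ≤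
      Cr c ^ 2 * (A * (N : ℝ) ^ κ * (∑ n ∈ F, B n ^ 2) ^ 2) := by
  set J : Finset ℤ := (F ×ˢ F).image fun p => p.1 / (N : ℤ) - p.2 / (N : ℤ) with hJ
  have hsum : ∑ j ∈ J, Real.exp (-c * |(j : ℝ)|) ≤ Cr c :=
    (geo_summable c hc).sum_le_tsum J fun _ _ => (Real.exp_pos _).le
  have hCr : 0 ≤ Cr c := tsum_nonneg fun _ => (Real.exp_pos _).le
  have h1 : ∀ s, ∑ p ∈ (F ×ˢ F).filter (fun p => p.1 + p.2 = s),
      B p.1 * B p.2 * Real.exp (-c * |((p.1 / (N : ℤ) - p.2 / (N : ℤ) : ℤ) : ℝ)|) =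
      ∑ j ∈ J, Real.exp (-c * |(j : ℝ)|) * cj F N B j s := by
    intro s
    rw [← Finset.sum_fiberwise_of_maps_to (t := J)
      (g := fun p : ℤ × ℤ => p.1 / (N : ℤ) - p.2 / (N : ℤ))]
    · refine Finset.sum_congr rfl fun j _ => ?_
      unfold cj
      rw [Finset.filter_filter, Finset.mul_sum]
      refine Finset.sum_congr rfl fun p hp => ?_
      rw [Finset.mem_filter] at hp
      rw [hp.2.2]
      ring
    · intro p hp
      exact Finset.mem_image_of_mem _ (Finset.mem_filter.1 hp).1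
  calc ∑ s ∈ S, (∑ p ∈ (F ×ˢ F).filter (fun p => p.1 + p.2 = s),
        B p.1 * B p.2 * Real.exp (-c * |((p.1 / (N : ℤ) - p.2 / (N : ℤ) : ℤ) : ℝ)|)) ^ 2
      ≤ ∑ s ∈ S, Cr c * ∑ j ∈ J, Real.exp (-c * |(j : ℝ)|) * cj F N B j s ^ 2 := by
        refine Finset.sum_le_sum fun s _ => ?_
        rw [h1]
        have := Finset.sum_sq_le_sum_mul_sum_of_sq_le_mul J
          (r := fun j => Real.exp (-c * |(j : ℝ)|) * cj F N B j s)
          (f := fun j => Real.exp (-c * |(j : ℝ)|))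
          (g := fun j => Real.exp (-c * |(j : ℝ)|) * cj F N B j s ^ 2)
          (fun _ _ => (Real.exp_pos _).le) (fun _ _ => by positivity) (fun _ _ => le_of_eq (by ring))
        refine this.trans (mul_le_mul_of_nonneg_right hsum ?_)
        exact Finset.sum_nonneg fun _ _ => by positivity
    _ = Cr c * ∑ j ∈ J, Real.exp (-c * |(j : ℝ)|) * ∑ s ∈ S, cj F N B j s ^ 2 := by
        rw [← Finset.mul_sum, Finset.sum_comm]
        congr 1
        refine Finset.sum_congr rfl fun j _ => ?_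
        rw [Finset.mul_sum]
    _ ≤ Cr c * ∑ j ∈ J, Real.exp (-c * |(j : ℝ)|) *
          (A * (N : ℝ) ^ κ * (∑ n ∈ F, B n ^ 2) ^ 2) := by
        refine mul_le_mul_of_nonneg_left (Finset.sum_le_sum fun j _ => ?_) hCr
        exact mul_le_mul_of_nonneg_left (cj_bound hA F hF N hN B hA0 j S) (Real.exp_pos _).le
    _ = Cr c * (∑ j ∈ J, Real.exp (-c * |(j : ℝ)|)) *
          (A * (N : ℝ) ^ κ * (∑ n ∈ F, B n ^ 2) ^ 2) := by
        rw [← Finset.sum_mul]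
        ring
    _ ≤ Cr c ^ 2 * (A * (N : ℝ) ^ κ * (∑ n ∈ F, B n ^ 2) ^ 2) := by
        rw [sq (Cr c)]
        refine mul_le_mul_of_nonneg_right ?_ (by positivity)
        exact mul_le_mul_of_nonneg_left hsum hCr

end Pool.Agent.J6H76.TS
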