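import Mathlib
import Pool.Agent.J6H76.TS.K
set_option autoImplicit false

/-! Sets with few representations of differences. -/

namespace Pool.Agent.J6H76.TS

open MeasureTheory Complex Set Filter Topology
open scoped ENNReal ComplexConjugate Real
open Pool.Agent.R412.RT (E ee ee_norm ee_add ee_conj ee_meas ee_cont planch)

/-- few representations of differences -/
def FewDiff (L : Set ℤ) (κ R : ℝ) : Prop :=
  ∀ k : ℤ, k ≠ 0 → {n : ℤ | n ∈ L ∧ n + k ∈ L}.Finite ∧
    ({n : ℤ | n ∈ L ∧ n + k ∈ L}.ncard : ℝ) ≤ R * |(k : ℝ)| ^ κ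

/-- few representations imply the local `L⁴` bound -/
theorem fewDiff_locL4 {L : Set ℤ} {κ R : ℝ} (hκ : 0 ≤ κ) (hR : 0 ≤ R) (hL : FewDiff L κ R) :
    LocL4 L κ (1 + R) := by
  intro a N hN F b hF
  have hN0 : (1 : ℝ) ≤ N := by exact_mod_cast hN
  have hNk : 1 ≤ (N : ℝ) ^ κ := Real.one_le_rpow hN0 hκ
  set K : Finset ℤ := (F ×ˢ F).image fun p => p.2 - p.1 with hK
  set d : ℤ → ℂ := fun k => ∑ p ∈ (F ×ˢ F).filter (fun p => p.2 - p.1 = k),
    b p.2 * conj (b p.1) with hd
  set m : ℤ → ℝ := fun k => ∑ p ∈ (F ×ˢ F).filter (fun p => p.2 - p.1 = k),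
    ‖b p.2‖ ^ 2 * ‖b p.1‖ ^ 2 with hm
  have hm0 : ∀ k, 0 ≤ m k := fun k => Finset.sum_nonneg fun _ _ => by positivity
  have h1 : ∀ x : ℝ, ‖∑ n ∈ F, b n * ee (n * x)‖ ^ 4 = ‖∑ k ∈ K, d k * ee (k * x)‖ ^ 2 := by
    intro x
    have e1 : ∑ k ∈ K, d k * ee (k * x) =
        (∑ n ∈ F, b n * ee (n * x)) * conj (∑ n ∈ F, b n * ee (n * x)) := by
      rw [map_sum, mul_comm, Finset.sum_mul_sum, ← Finset.sum_product',
        ← Finset.sum_fiberwise_of_maps_to (s := F ×ˢ F) (t := K)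
          (g := fun p : ℤ × ℤ => p.2 - p.1) fun p hp => Finset.mem_image_of_mem _ hp]
      refine Finset.sum_congr rfl fun k _ => ?_
      simp only [hd]
      rw [Finset.sum_mul]
      refine Finset.sum_congr rfl fun p hp => ?_
      rw [← (Finset.mem_filter.1 hp).2, map_mul, ee_conj]
      push_cast
      rw [show ((p.2 : ℝ) - p.1) * x = p.2 * x + -(p.1 * x) by ring, ee_add]
      ring
    rw [e1, Complex.mul_conj, Complex.norm_real, Complex.normSq_eq_norm_sq,
      Real.norm_of_nonneg (by positivity), ← pow_mul]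
  have h2 : ∫ x in (0 : ℝ)..1, ‖∑ n ∈ F, b n * ee (n * x)‖ ^ 4 = ∑ k ∈ K, ‖d k‖ ^ 2 := by
    simp_rw [h1]
    exact parseval K d
  have hS : ∑ k ∈ K, m k = (∑ n ∈ F, ‖b n‖ ^ 2) ^ 2 := by
    simp only [hm]
    rw [Finset.sum_fiberwise_of_maps_to (s := F ×ˢ F) (t := K)
          (g := fun p : ℤ × ℤ => p.2 - p.1) fun p hp => Finset.mem_image_of_mem _ hp,
      Finset.sum_product, sq, Finset.sum_mul_sum]
    refine Finset.sum_congr rfl fun n _ => Finset.sum_congr rfl fun m _ => ?_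
    ring
  have hd0 : ‖d 0‖ ^ 2 ≤ (∑ n ∈ F, ‖b n‖ ^ 2) ^ 2 := by
    refine pow_le_pow_left₀ (norm_nonneg _) ?_ 2
    simp only [hd]
    have : (F ×ˢ F).filter (fun p : ℤ × ℤ => p.2 - p.1 = 0) = F.image fun n => (n, n) := by
      ext p
      simp only [Finset.mem_filter, Finset.mem_product, Finset.mem_image]
      constructor
      · rintro ⟨⟨h1, h2⟩, h3⟩
        exact ⟨p.1, h1, by ext <;> simp; omega⟩
      · rintro ⟨n, hn, rfl⟩
        simp [hn]
    rw [this, Finset.sum_image (fun a _ b _ h => by simpa using h)]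
    refine (norm_sum_le _ _).trans (le_of_eq ?_)
    refine Finset.sum_congr rfl fun n _ => ?_
    simp only
    rw [norm_mul, Complex.norm_conj, sq]
  have hdk : ∀ k ≠ 0, ‖d k‖ ^ 2 ≤ R * (N : ℝ) ^ κ * m k := by
    intro k hk
    by_cases hkN : |k| < N
    · have hcard : (((F ×ˢ F).filter (fun p : ℤ × ℤ => p.2 - p.1 = k)).card : ℝ) ≤
          R * (N : ℝ) ^ κ := by
        obtain ⟨hfin, hc⟩ := hL k hk
        have c1 : ((F ×ˢ F).filter (fun p : ℤ × ℤ => p.2 - p.1 = k)).card ≤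
            {n : ℤ | n ∈ L ∧ n + k ∈ L}.ncard := by
          rw [Set.ncard_eq_toFinset_card _ hfin]
          refine Finset.card_le_card_of_injOn (fun p => p.1) ?_ ?_
          · intro p hp
            have hp' := Finset.mem_filter.1 (Finset.mem_coe.1 hp)
            have hp1 := Finset.mem_product.1 hp'.1
            rw [Finset.mem_coe, Set.Finite.mem_toFinset]
            refine ⟨(hF _ hp1.1).1, ?_⟩
            rw [← hp'.2, add_sub_cancel]
            exact (hF _ hp1.2).1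
          · intro p hp p' hp' h
            have h1 := (Finset.mem_filter.1 (Finset.mem_coe.1 hp)).2
            have h2 := (Finset.mem_filter.1 (Finset.mem_coe.1 hp')).2
            simp only at h
            ext
            · exact h
            · omega
        have c2 : |(k : ℝ)| ^ κ ≤ (N : ℝ) ^ κ := by
          refine Real.rpow_le_rpow (abs_nonneg _) ?_ hκ
          have : |k| ≤ (N : ℤ) := hkN.le
          exact_mod_cast this
        calc (((F ×ˢ F).filter (fun p : ℤ × ℤ => p.2 - p.1 = k)).card : ℝ)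
            ≤ ({n : ℤ | n ∈ L ∧ n + k ∈ L}.ncard : ℝ) := by exact_mod_cast c1
          _ ≤ R * |(k : ℝ)| ^ κ := hc
          _ ≤ R * (N : ℝ) ^ κ := mul_le_mul_of_nonneg_left c2 hR
      have e1 : ‖d k‖ ≤ ∑ p ∈ (F ×ˢ F).filter (fun p => p.2 - p.1 = k), ‖b p.2‖ * ‖b p.1‖ := by
        simp only [hd]
        refine (norm_sum_le _ _).trans (le_of_eq ?_)
        refine Finset.sum_congr rfl fun p _ => ?_
        rw [norm_mul, Complex.norm_conj]
      have e2 : (∑ p ∈ (F ×ˢ F).filter (fun p => p.2 - p.1 = k), ‖b p.2‖ * ‖b p.1‖) ^ 2 ≤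
          (((F ×ˢ F).filter (fun p : ℤ × ℤ => p.2 - p.1 = k)).card : ℝ) * m k := by
        have := sq_sum_le_card_mul_sum_sq (s := (F ×ˢ F).filter (fun p : ℤ × ℤ => p.2 - p.1 = k))
          (f := fun p => ‖b p.2‖ * ‖b p.1‖)
        refine this.trans (le_of_eq ?_)
        congr 1
        refine Finset.sum_congr rfl fun p _ => ?_
        ring
      calc ‖d k‖ ^ 2 ≤ _ := pow_le_pow_left₀ (norm_nonneg _) e1 2
        _ ≤ _ := e2
        _ ≤ _ := mul_le_mul_of_nonneg_right hcard (hm0 k)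
    · have : (F ×ˢ F).filter (fun p : ℤ × ℤ => p.2 - p.1 = k) = ∅ := by
        rw [Finset.filter_eq_empty_iff]
        intro p hp h
        have hp1 := Finset.mem_product.1 hp
        have h1 := (hF _ hp1.1).2
        have h2 := (hF _ hp1.2).2
        refine hkN ?_
        rw [← h, abs_lt]
        constructor <;> omega
      simp only [hd, hm]
      rw [this]
      simp
  rw [h2]
  calc ∑ k ∈ K, ‖d k‖ ^ 2
      ≤ ∑ k ∈ K, ((if k = 0 then (∑ n ∈ F, ‖b n‖ ^ 2) ^ 2 else 0) + R * (N : ℝ) ^ κ * m k) := by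
        refine Finset.sum_le_sum fun k _ => ?_
        by_cases hk : k = 0
        · subst hk
          rw [if_pos rfl]
          have : 0 ≤ R * (N : ℝ) ^ κ * m 0 := mul_nonneg (by positivity) (hm0 0)
          linarith
        · rw [if_neg hk, zero_add]
          exact hdk k hk
    _ ≤ (∑ n ∈ F, ‖b n‖ ^ 2) ^ 2 + R * (N : ℝ) ^ κ * (∑ n ∈ F, ‖b n‖ ^ 2) ^ 2 := by
        rw [Finset.sum_add_distrib, ← Finset.mul_sum, hS]
        refine add_le_add ?_ le_rfl
        rw [Finset.sum_ite_eq']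
        split_ifs
        · exact le_rfl
        · positivity
    _ ≤ (1 + R) * (N : ℝ) ^ κ * (∑ n ∈ F, ‖b n‖ ^ 2) ^ 2 := by
        have h3 : 0 ≤ (∑ n ∈ F, ‖b n‖ ^ 2) ^ 2 := by positivity
        nlinarith

end Pool.Agent.J6H76.TS
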