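import Mathlib
import Pool.Agent.J6H76.TS.N
set_option autoImplicit false

/-! The set of `d`-th powers. -/

namespace Pool.Agent.J6H76.TS

open Finset in
/-- The divisor bound `d(n) ≤ C n^δ`. -/
theorem divisor_bound (δ : ℝ) (hδ : 0 < δ) :
    ∃ C : ℝ, 0 < C ∧ ∀ n : ℕ, n ≠ 0 → ((n.divisors.card : ℕ) : ℝ) ≤ C * (n : ℝ) ^ δ := by
  have hlog : 0 < Real.log 2 := Real.log_pos (by norm_num)
  have hδl : 0 < δ * Real.log 2 := mul_pos hδ hlog
  set M : ℝ := max 1 (1 / (δ * Real.log 2)) with hM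
  have hM1 : 1 ≤ M := le_max_left _ _
  have hM2 : 1 ≤ M * (δ * Real.log 2) := by
    have : 1 / (δ * Real.log 2) ≤ M := le_max_right _ _
    calc (1 : ℝ) = 1 / (δ * Real.log 2) * (δ * Real.log 2) := by
          field_simp
      _ ≤ M * (δ * Real.log 2) := mul_le_mul_of_nonneg_right this hδl.le
  set K : ℕ := ⌈(2 : ℝ) ^ (1 / δ)⌉₊ with hK
  have hKle : (2 : ℝ) ^ (1 / δ) ≤ (K : ℝ) := Nat.le_ceil _
  refine ⟨M ^ K, by positivity, ?_⟩
  intro n hn
  have hbase : ∀ p ∈ n.primeFactors, (((n.factorization p + 1 : ℕ)) : ℝ) ≤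
      (if p < K then M else 1) * (((p : ℝ) ^ (n.factorization p)) ^ δ) := by
    intro p hp
    have hpp : p.Prime := Nat.prime_of_mem_primeFactors hp
    set a := n.factorization p with ha
    have hp2 : (2 : ℝ) ≤ (p : ℝ) := by exact_mod_cast hpp.two_le
    have hp0 : (0 : ℝ) ≤ (p : ℝ) := by positivity
    have hpow : (((p : ℝ) ^ a) ^ δ) = ((p : ℝ) ^ δ) ^ a := by
      rw [← Real.rpow_natCast (p : ℝ) a, ← Real.rpow_mul hp0, ← Real.rpow_natCast ((p : ℝ) ^ δ) a,
        ← Real.rpow_mul hp0, mul_comm]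
    rw [hpow]
    split_ifs with hlt
    · have h1 : (2 : ℝ) ^ δ ≤ (p : ℝ) ^ δ := Real.rpow_le_rpow (by norm_num) hp2 hδ.le
      have h2 : ((2 : ℝ) ^ δ) ^ a ≤ ((p : ℝ) ^ δ) ^ a :=
        pow_le_pow_left₀ (by positivity) h1 a
      have h3 : 1 + (a : ℝ) * (δ * Real.log 2) ≤ ((2 : ℝ) ^ δ) ^ a := by
        have : ((2 : ℝ) ^ δ) ^ a = Real.exp ((a : ℝ) * (δ * Real.log 2)) := by
          rw [← Real.rpow_natCast, ← Real.rpow_mul (by norm_num), Real.rpow_def_of_pos (by norm_num)]
          congr 1; ring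
        rw [this]
        have := Real.add_one_le_exp ((a : ℝ) * (δ * Real.log 2))
        linarith
      have h4 : (((a + 1 : ℕ)) : ℝ) ≤ M * (1 + (a : ℝ) * (δ * Real.log 2)) := by
        push_cast
        have ha0 : (0 : ℝ) ≤ (a : ℝ) := by positivity
        nlinarith [mul_le_mul_of_nonneg_left hM2 ha0]
      calc (((a + 1 : ℕ)) : ℝ) ≤ M * (1 + (a : ℝ) * (δ * Real.log 2)) := h4
        _ ≤ M * (((p : ℝ) ^ δ) ^ a) :=
          mul_le_mul_of_nonneg_left (h3.trans h2) (by linarith)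
    · have hKp : (K : ℝ) ≤ (p : ℝ) := by exact_mod_cast not_lt.mp hlt
      have h1 : (2 : ℝ) ≤ (p : ℝ) ^ δ := by
        have h5 : ((2 : ℝ) ^ (1 / δ)) ^ δ ≤ (p : ℝ) ^ δ :=
          Real.rpow_le_rpow (by positivity) (hKle.trans hKp) hδ.le
        have h6 : ((2 : ℝ) ^ (1 / δ)) ^ δ = 2 := by
          rw [← Real.rpow_mul (by norm_num)]
          rw [one_div, inv_mul_cancel₀ hδ.ne', Real.rpow_one]
        rwa [h6] at h5
      have h2 : (2 : ℝ) ^ a ≤ ((p : ℝ) ^ δ) ^ a := pow_le_pow_left₀ (by norm_num) h1 a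
      have h3 : (((a + 1 : ℕ)) : ℝ) ≤ (2 : ℝ) ^ a := by
        have : a + 1 ≤ 2 ^ a := Nat.lt_two_pow_self
        exact_mod_cast this
      rw [one_mul]
      exact h3.trans h2
  have hn' : (n : ℝ) ^ δ = ∏ p ∈ n.primeFactors, (((p : ℝ) ^ (n.factorization p)) ^ δ) := by
    rw [Real.finsetProd_rpow _ _ (fun i _ => by positivity)]
    congr 1
    have := Nat.prod_factorization_pow_eq_self hn
    conv_lhs => rw [← this]
    rw [Finsupp.prod]
    push_cast
    rfl
  rw [Nat.card_divisors hn]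
  push_cast
  calc (∏ p ∈ n.primeFactors, ((n.factorization p : ℝ) + 1))
      ≤ ∏ p ∈ n.primeFactors, ((if p < K then M else 1) * (((p : ℝ) ^ (n.factorization p)) ^ δ)) := by
        apply Finset.prod_le_prod
        · intro i _; positivity
        · intro i hi
          have := hbase i hi
          push_cast at this
          exact this
    _ = (∏ p ∈ n.primeFactors, (if p < K then M else 1)) * (n : ℝ) ^ δ := by
        rw [Finset.prod_mul_distrib, hn']
    _ ≤ M ^ K * (n : ℝ) ^ δ := by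
        apply mul_le_mul_of_nonneg_right _ (by positivity)
        rw [Finset.prod_ite, Finset.prod_const, Finset.prod_const_one, mul_one]
        apply pow_le_pow_right₀ hM1
        calc (n.primeFactors.filter (fun p => p < K)).card ≤ (Finset.range K).card := by
              apply Finset.card_le_card
              intro x hx
              simp only [Finset.mem_filter] at hx
              exact Finset.mem_range.mpr hx.2
          _ = K := Finset.card_range K

/-- `(y + e)^d - y^d` is strictly increasing in `y` -/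
theorem pow_gap (d : ℕ) (hd : 2 ≤ d) (e : ℕ) (he : 1 ≤ e) (y y' : ℕ) (h : y < y') :
    (y + e) ^ d + y' ^ d < (y' + e) ^ d + y ^ d := by
  induction d, hd using Nat.le_induction with
  | base => nlinarith
  | succ d hd ih =>
    have h1 : y ^ d < y' ^ d := Nat.pow_lt_pow_left h (by omega)
    have h2 : y' ^ d ≤ (y' + e) ^ d := Nat.pow_le_pow_left (by omega) d
    have h3 : (y + e) ^ d < (y' + e) ^ d := Nat.pow_lt_pow_left (by omega) (by omega)
    rw [pow_succ, pow_succ, pow_succ, pow_succ]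
    nlinarith

/-- the differences of `d`-th powers have few representations -/
theorem pow_card (d : ℕ) (hd : 2 ≤ d) (k : ℤ) (hk : k ≠ 0) :
    {n : ℤ | n ∈ {m : ℤ | ∃ j : ℕ, m = (j : ℤ) ^ d} ∧
      n + k ∈ {m : ℤ | ∃ j : ℕ, m = (j : ℤ) ^ d}}.Finite ∧
    {n : ℤ | n ∈ {m : ℤ | ∃ j : ℕ, m = (j : ℤ) ^ d} ∧
      n + k ∈ {m : ℤ | ∃ j : ℕ, m = (j : ℤ) ^ d}}.ncard ≤ k.natAbs.divisors.card := by
  set S : Set ℤ := {n : ℤ | n ∈ {m : ℤ | ∃ j : ℕ, m = (j : ℤ) ^ d} ∧
      n + k ∈ {m : ℤ | ∃ j : ℕ, m = (j : ℤ) ^ d}} with hS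
  have hex : ∀ n ∈ S, ∃ x y : ℕ, n = (x : ℤ) ^ d ∧ n + k = (y : ℤ) ^ d := by
    rintro n ⟨⟨x, hx⟩, ⟨y, hy⟩⟩
    exact ⟨x, y, hx, hy⟩
  choose! X Y hX hY using hex
  set g : ℤ → ℕ := fun n => ((Y n : ℤ) - (X n : ℤ)).natAbs with hg
  have hmaps : ∀ n ∈ S, g n ∈ (k.natAbs.divisors : Set ℕ) := by
    intro n hn
    rw [Finset.mem_coe, Nat.mem_divisors]
    refine ⟨?_, Int.natAbs_ne_zero.2 hk⟩
    rw [hg]
    simp only
    rw [Int.natAbs_dvd_natAbs]
    have : k = (Y n : ℤ) ^ d - (X n : ℤ) ^ d := by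
      rw [← hY n hn, ← hX n hn]; ring
    rw [this]
    exact sub_dvd_pow_sub_pow _ _ d
  have hinj : Set.InjOn g S := by
    intro n hn m hm h
    have e1 := hX n hn
    have e2 := hY n hn
    have e3 := hX m hm
    have e4 := hY m hm
    have hkn : k = (Y n : ℤ) ^ d - (X n : ℤ) ^ d := by rw [← e2, ← e1]; ring
    have hkm : k = (Y m : ℤ) ^ d - (X m : ℤ) ^ d := by rw [← e4, ← e3]; ring
    have mono : ∀ x y : ℕ, (x : ℤ) ^ d < (y : ℤ) ^ d ↔ x < y := by
      intro x y
      rw [← Nat.cast_pow, ← Nat.cast_pow, Nat.cast_lt]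
      exact Nat.pow_lt_pow_iff_left (by omega)
    have key : ∀ a b a' b' e : ℕ, 1 ≤ e → b = a + e → b' = a' + e →
        (b : ℤ) ^ d - (a : ℤ) ^ d = (b' : ℤ) ^ d - (a' : ℤ) ^ d → a = a' := by
      intro a b a' b' e he hb hb' heq
      subst hb hb'
      rcases lt_trichotomy a a' with hlt | heq' | hgt
      · have := pow_gap d hd e he a a' hlt
        zify at this
        push_cast at heq
        exfalso
        linarith
      · exact heq'
      · have := pow_gap d hd e he a' a hgt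
        zify at this
        push_cast at heq
        exfalso
        linarith
    rw [e1, e3]
    rcases lt_or_gt_of_ne hk with hneg | hpos
    · have l1 : Y n < X n := (mono _ _).1 (by linarith)
      have l2 : Y m < X m := (mono _ _).1 (by linarith)
      have hgg : X n - Y n = X m - Y m := by
        simp only [hg] at h
        omega
      have := key (Y n) (X n) (Y m) (X m) (X n - Y n) (by omega) (by omega) (by omega)
        (by linarith)
      have hx : X n = X m := by omega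
      rw [hx]
    · have l1 : X n < Y n := (mono _ _).1 (by linarith)
      have l2 : X m < Y m := (mono _ _).1 (by linarith)
      have hgg : Y n - X n = Y m - X m := by
        simp only [hg] at h
        omega
      have := key (X n) (Y n) (X m) (Y m) (Y n - X n) (by omega) (by omega) (by omega)
        (by linarith)
      rw [this]
  have hfin : S.Finite := by
    refine Set.Finite.of_finite_image ?_ hinj
    exact (Finset.finite_toSet k.natAbs.divisors).subset (by
      rintro _ ⟨n, hn, rfl⟩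
      exact hmaps n hn)
  refine ⟨hfin, ?_⟩
  rw [← Set.ncard_coe_finset]
  exact Set.ncard_le_ncard_of_injOn g hmaps hinj (Finset.finite_toSet _)

/-- the set of `d`-th powers has few representations of differences -/
theorem pow_fewDiff (d : ℕ) (hd : 2 ≤ d) (κ : ℝ) (hκ : 0 < κ) :
    ∃ R : ℝ, 0 ≤ R ∧ FewDiff {m : ℤ | ∃ j : ℕ, m = (j : ℤ) ^ d} κ R := by
  obtain ⟨C, hC, h⟩ := divisor_bound κ hκ
  refine ⟨C, hC.le, fun k hk => ?_⟩
  obtain ⟨h1, h2⟩ := pow_card d hd k hk
  refine ⟨h1, ?_⟩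
  have h3 := h k.natAbs (Int.natAbs_ne_zero.2 hk)
  have h4 : ((k.natAbs : ℕ) : ℝ) = |(k : ℝ)| := by
    rw [Nat.cast_natAbs, Int.cast_abs]
  rw [h4] at h3
  refine le_trans ?_ h3
  exact_mod_cast h2

end Pool.Agent.J6H76.TS
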