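import Mathlib
import Pool.Agent.J6H76.TS.K
set_option autoImplicit false

/-! The `L⁴` estimate for the Gaussian window. -/

namespace Pool.Agent.J6H76.TS

open MeasureTheory Complex Set Filter Topology
open scoped ENNReal ComplexConjugate Real
open Pool.Agent.R412.RT (E ee ee_norm ee_add ee_conj ee_meas ee_cont planch)

/-- the size of the Gaussian coefficient in terms of blocks -/
theorem κ_block (t : ℝ) (ht : 1 ≤ |t|) (n m : ℤ) :
    ‖κ t (n - m)‖ ≤ Real.sqrt (1 / (4 * |t|)) * Real.exp (π / 2) *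
      Real.exp (-(2 * π / 5) * |((n / (⌈|t|⌉₊ : ℤ) - m / (⌈|t|⌉₊ : ℤ) : ℤ) : ℝ)|) := by
  set N : ℕ := ⌈|t|⌉₊ with hN
  have ht0 : 0 < |t| := by linarith
  have hNt : |t| ≤ N := Nat.le_ceil _
  have hN0 : (0 : ℝ) < N := by linarith
  have hNz : (0 : ℤ) < N := by exact_mod_cast hN0
  have hD : 1 + 4 * t ^ 2 ≤ 5 * |t| ^ 2 := by
    rw [sq_abs]
    nlinarith [sq_abs t]
  have hD0 : 0 < 1 + 4 * t ^ 2 := by positivity
  have hp := Real.pi_pos
  refine le_of_sq_le_sq ?_ (by positivity)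
  have hR : (Real.sqrt (1 / (4 * |t|)) * Real.exp (π / 2) *
      Real.exp (-(2 * π / 5) * |((n / (N : ℤ) - m / (N : ℤ) : ℤ) : ℝ)|)) ^ 2 =
      1 / (4 * |t|) *
        Real.exp (π - (4 * π / 5) * |((n / (N : ℤ) - m / (N : ℤ) : ℤ) : ℝ)|) := by
    rw [mul_assoc, mul_pow, Real.sq_sqrt (by positivity), ← Real.exp_add, ← Real.exp_nat_mul]
    congr 2
    push_cast
    ring
  rw [κ_norm, hR]
  refine mul_le_mul ?_ ?_ (Real.exp_pos _).le (by positivity)
  · refine one_div_le_one_div_of_le (by positivity) ?_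
    have : 2 * |t| ≤ Real.sqrt (1 + 4 * t ^ 2) := by
      refine Real.le_sqrt_of_sq_le ?_
      rw [mul_pow, sq_abs]
      linarith
    linarith
  · refine Real.exp_le_exp.2 ?_
    push_cast
    set x : ℝ := |(n : ℝ) - m| / N with hx
    set q : ℝ := |((n / (N : ℤ) : ℤ) : ℝ) - ((m / (N : ℤ) : ℤ) : ℝ)| with hq
    have hqx : q ≤ x + 1 := by
      have a1 : (((n / (N : ℤ) : ℤ) : ℝ)) * N ≤ n := by exact_mod_cast Int.ediv_mul_le n hNz.ne'
      have a2 : (n : ℝ) < (((n / (N : ℤ) : ℤ) : ℝ) + 1) * N := by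
        exact_mod_cast Int.lt_ediv_add_one_mul_self n hNz
      have a3 : (((m / (N : ℤ) : ℤ) : ℝ)) * N ≤ m := by exact_mod_cast Int.ediv_mul_le m hNz.ne'
      have a4 : (m : ℝ) < (((m / (N : ℤ) : ℤ) : ℝ) + 1) * N := by
        exact_mod_cast Int.lt_ediv_add_one_mul_self m hNz
      have hxN : x * N = |(n : ℝ) - m| := by rw [hx]; field_simp
      rw [hq]
      refine abs_le.2 ⟨?_, ?_⟩
      · have b1 := neg_abs_le ((n : ℝ) - m)
        rw [← hxN] at b1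
        by_contra hcon
        push Not at hcon
        have := mul_lt_mul_of_pos_right hcon hN0
        nlinarith
      · have b1 := le_abs_self ((n : ℝ) - m)
        rw [← hxN] at b1
        by_contra hcon
        push Not at hcon
        have := mul_lt_mul_of_pos_right hcon hN0
        nlinarith
    have hx0 : 0 ≤ x := by positivity
    have h1 : (4 * π / 5) * x ^ 2 ≤ 4 * π * ((n : ℝ) - m) ^ 2 / (1 + 4 * t ^ 2) := by
      rw [le_div_iff₀ hD0, hx, div_pow, sq_abs]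
      have h2 : 1 + 4 * t ^ 2 ≤ 5 * (N : ℝ) ^ 2 := by
        refine hD.trans ?_
        nlinarith
      calc 4 * π / 5 * (((n : ℝ) - m) ^ 2 / (N : ℝ) ^ 2) * (1 + 4 * t ^ 2)
          ≤ 4 * π / 5 * (((n : ℝ) - m) ^ 2 / (N : ℝ) ^ 2) * (5 * (N : ℝ) ^ 2) :=
            mul_le_mul_of_nonneg_left h2 (by positivity)
        _ = 4 * π * ((n : ℝ) - m) ^ 2 := by field_simp
    have h3 : x - 1 / 4 ≤ x ^ 2 := by nlinarith [sq_nonneg (x - 1 / 2)]
    have h4 : (4 * π / 5) * (q - 5 / 4) ≤ (4 * π / 5) * x ^ 2 :=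
      mul_le_mul_of_nonneg_left (by linarith) (by positivity)
    linarith

/-- the constant of the windowed estimate -/
noncomputable def K1 (κ' A : ℝ) : ℝ := Real.exp π / 4 * Cr (2 * π / 5) ^ 2 * A * 2 ^ κ'

theorem K1_nonneg (κ' A : ℝ) (hA : 0 ≤ A) : 0 ≤ K1 κ' A := by unfold K1; positivity

theorem gauss4 {L : Set ℤ} {κ' A : ℝ} (hL : LocL4 L κ' A) (hA : 0 ≤ A) (hκ : 0 ≤ κ')
    (F : Finset ℤ) (hF : ∀ n ∈ F, n ∈ L) (b : ℤ → ℂ) (t : ℝ) (ht : 1 ≤ |t|) :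
    ∫⁻ η, ‖∫ y, ee (y * η) * W F b t y‖ₑ ^ 4 ≤
      Cg * ENNReal.ofReal (K1 κ' A * |t| ^ (κ' - 1) * (∑ n ∈ F, ‖b n‖ ^ 2) ^ 2) := by
  have ht0 : 0 < |t| := by linarith
  set V : ℝ → ℂ := fun w => ∫ v, W F b t (w / 2 + v) * W F b t (w / 2 - v) with hV
  set P : ℝ → ℂ := fun w => ∑ n ∈ F, ∑ m ∈ F, b n * b m * κ t (n - m) * ee ((n + m : ℤ) * w) with hP
  have hPc : Continuous P := continuous_finsetSum _ fun n _ => continuous_finsetSum _ fun m _ =>
    continuous_const.mul (ee_cont.comp (by fun_prop))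
  have hPper : ∀ (x : ℝ) (k : ℤ), ‖P (x + k)‖ₑ ^ 2 = ‖P x‖ₑ ^ 2 := by
    intro x k
    have : P (x + k) = P x := by
      simp only [hP]
      refine Finset.sum_congr rfl fun n _ => Finset.sum_congr rfl fun m _ => ?_
      rw [mul_add, ee_add]
      have h1 := ee_int ((n + m) * k)
      push_cast at h1 ⊢
      rw [h1, mul_one]
    rw [this]
  have h1 : ∫⁻ η, ‖∫ y, ee (y * η) * W F b t y‖ₑ ^ 4 ≤ ∫⁻ w, ‖V w‖ₑ ^ 2 := by
    refine le_trans (le_of_eq ?_) (planch1' V)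
    refine lintegral_congr fun η => ?_
    rw [← conv_sq _ (W_int F b t), enorm_pow, ← pow_mul]
  have h2 : ∀ w, ‖V w‖ₑ ^ 2 = ENNReal.ofReal (Real.exp (-π * w ^ 2)) * ‖P w‖ₑ ^ 2 := by
    intro w
    simp only [hV, hP]
    rw [W_conv, enorm_mul, mul_pow]
    congr 1
    rw [← ofReal_norm, Complex.norm_exp, ← ENNReal.ofReal_pow (Real.exp_pos _).le,
      ← Real.exp_nat_mul]
    congr 2
    have : (-(π * (1 - 2 * t * I)) * ((w : ℂ) ^ 2 / 2)).re = -(π * w ^ 2 / 2) := by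
      have e : (-(π * (1 - 2 * t * I)) * ((w : ℂ) ^ 2 / 2)) =
        ((-(w ^ 2 / 2) : ℝ) : ℂ) * (π * (1 - 2 * t * I)) := by push_cast; ring
      rw [e, re_b]
      ring
    rw [this]
    push_cast
    ring
  -- the coefficients
  set S : Finset ℤ := (F ×ˢ F).image (fun p => p.1 + p.2) with hS
  set β : ℤ → ℂ := fun s => ∑ p ∈ (F ×ˢ F).filter (fun p => p.1 + p.2 = s),
    b p.1 * b p.2 * κ t (p.1 - p.2) with hβ
  have h3 : ∀ w, P w = ∑ s ∈ S, β s * ee (s * w) := by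
    intro w
    simp only [hP]
    rw [← Finset.sum_product', ← Finset.sum_fiberwise_of_maps_to (s := F ×ˢ F) (t := S)
        (g := fun p : ℤ × ℤ => p.1 + p.2) fun p hp => Finset.mem_image_of_mem _ hp]
    refine Finset.sum_congr rfl fun s _ => ?_
    rw [hβ]
    simp only
    rw [Finset.sum_mul]
    refine Finset.sum_congr rfl fun p hp => ?_
    rw [(Finset.mem_filter.1 hp).2]
  have h4 : ∫⁻ w in Ioc (0 : ℝ) 1, ‖P w‖ₑ ^ 2 = ENNReal.ofReal (∑ s ∈ S, ‖β s‖ ^ 2) := by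
    rw [← parseval S β, intervalIntegral.integral_of_le zero_le_one,
      ofReal_integral_eq_lintegral_ofReal]
    · refine lintegral_congr fun w => ?_
      rw [← h3, ENNReal.ofReal_pow (norm_nonneg _), ofReal_norm]
    · have : Continuous fun w : ℝ => ‖∑ s ∈ S, β s * ee (s * w)‖ ^ 2 :=
        (continuous_finsetSum _ fun s _ =>
          continuous_const.mul (ee_cont.comp (by fun_prop))).norm.pow 2
      exact this.integrableOn_Ioc
    · exact Eventually.of_forall fun w => by positivity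
  have h5 : ∑ s ∈ S, ‖β s‖ ^ 2 ≤ K1 κ' A * |t| ^ (κ' - 1) * (∑ n ∈ F, ‖b n‖ ^ 2) ^ 2 := by
    set M : ℝ := Real.sqrt (1 / (4 * |t|)) * Real.exp (π / 2) with hM
    set N : ℕ := ⌈|t|⌉₊ with hN
    have hN1 : 1 ≤ N := Nat.one_le_ceil_iff.2 ht0
    have hM0 : 0 ≤ M := by positivity
    have hM2 : M ^ 2 = Real.exp π / (4 * |t|) := by
      rw [hM, mul_pow, Real.sq_sqrt (by positivity), ← Real.exp_nat_mul]
      push_cast
      rw [show (2 : ℝ) * (π / 2) = π by ring]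
      ring
    have hB := blocks hL F hF N hN1 (fun n => ‖b n‖) hA (2 * π / 5) (by positivity) S
    calc ∑ s ∈ S, ‖β s‖ ^ 2
        ≤ ∑ s ∈ S, M ^ 2 * (∑ p ∈ (F ×ˢ F).filter (fun p => p.1 + p.2 = s), ‖b p.1‖ * ‖b p.2‖ *
            Real.exp (-(2 * π / 5) * |((p.1 / (N : ℤ) - p.2 / (N : ℤ) : ℤ) : ℝ)|)) ^ 2 := by
          refine Finset.sum_le_sum fun s _ => ?_
          rw [← mul_pow]
          refine pow_le_pow_left₀ (norm_nonneg _) ?_ 2
          rw [hβ]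
          simp only
          refine (norm_sum_le _ _).trans ?_
          rw [Finset.mul_sum]
          refine Finset.sum_le_sum fun p _ => ?_
          rw [norm_mul, norm_mul]
          have := mul_le_mul_of_nonneg_left (κ_block t ht p.1 p.2)
            (show 0 ≤ ‖b p.1‖ * ‖b p.2‖ by positivity)
          refine this.trans (le_of_eq ?_)
          rw [hM]
          ring
      _ ≤ M ^ 2 * (Cr (2 * π / 5) ^ 2 * (A * (N : ℝ) ^ κ' * (∑ n ∈ F, ‖b n‖ ^ 2) ^ 2)) := by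
          rw [← Finset.mul_sum]
          exact mul_le_mul_of_nonneg_left hB (by positivity)
      _ ≤ M ^ 2 * (Cr (2 * π / 5) ^ 2 * (A * (2 * |t|) ^ κ' * (∑ n ∈ F, ‖b n‖ ^ 2) ^ 2)) := by
          have hN2 : (N : ℝ) ≤ 2 * |t| := by
            have := Nat.ceil_lt_add_one (abs_nonneg t)
            linarith
          gcongr
      _ = K1 κ' A * |t| ^ (κ' - 1) * (∑ n ∈ F, ‖b n‖ ^ 2) ^ 2 := by
          rw [hM2, Real.mul_rpow two_pos.le ht0.le, Real.rpow_sub_one ht0.ne']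
          unfold K1
          field_simp
  calc ∫⁻ η, ‖∫ y, ee (y * η) * W F b t y‖ₑ ^ 4
      ≤ ∫⁻ w, ‖V w‖ₑ ^ 2 := h1
    _ = ∫⁻ w, ENNReal.ofReal (Real.exp (-π * w ^ 2)) * ‖P w‖ₑ ^ 2 := lintegral_congr h2
    _ ≤ Cg * ∫⁻ w in Ioc (0 : ℝ) 1, ‖P w‖ₑ ^ 2 :=
        gauss_per (fun w => ‖P w‖ₑ ^ 2) (hPc.measurable.enorm.pow_const 2) hPper
    _ ≤ Cg * ENNReal.ofReal (K1 κ' A * |t| ^ (κ' - 1) * (∑ n ∈ F, ‖b n‖ ^ 2) ^ 2) := by
        rw [h4]
        exact mul_le_mul' le_rfl (ENNReal.ofReal_le_ofReal h5)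

end Pool.Agent.J6H76.TS
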