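import Mathlib
import Pool.Agent.J6H76.TS.G
set_option autoImplicit false

/-! The projection to a half line is bounded in `L⁴` on the Fourier side. -/

namespace Pool.Agent.J6H76.TS

open MeasureTheory Complex Set Filter Topology
open scoped ENNReal ComplexConjugate Real
open Pool.Agent.R412.RT (E ee ee_norm ee_add ee_conj ee_meas ee_cont planch)

/-- the Fourier transform -/
noncomputable def FT (u : ℝ → ℂ) (η : ℝ) : ℂ := ∫ y, ee (y * η) * u y

/-- bounded integrable functions -/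
structure Bd (u : ℝ → ℂ) : Prop where
  meas : Measurable u
  int : Integrable u
  bd : ∃ M : ℝ, 0 ≤ M ∧ ∀ y, ‖u y‖ ≤ M

theorem ft_int {u : ℝ → ℂ} (hu : Integrable u) (η : ℝ) : Integrable fun y => ee (y * η) * u y := by
  refine hu.bdd_mul (c := 1) ?_ (Eventually.of_forall fun u => (ee_norm _).le)
  exact (ee_meas.comp (by fun_prop)).aestronglyMeasurable

theorem FT_meas {u : ℝ → ℂ} (hu : Measurable u) : Measurable (FT u) := by
  unfold FT
  have : StronglyMeasurable (Function.uncurry fun (η : ℝ) (y : ℝ) => ee (y * η) * u y) := by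
    refine Measurable.stronglyMeasurable ?_
    exact (ee_meas.comp (by fun_prop)).mul (hu.comp measurable_snd)
  exact this.integral_prod_right.measurable

theorem FT_bound (u : ℝ → ℂ) (η : ℝ) : ‖FT u η‖ ≤ ∫ y, ‖u y‖ := by
  unfold FT
  refine (norm_integral_le_integral_norm _).trans (le_of_eq ?_)
  refine integral_congr_ae (Eventually.of_forall fun y => ?_)
  simp only
  rw [norm_mul, ee_norm, one_mul]

theorem FT_fin {u : ℝ → ℂ} (hu : Bd u) : ∫⁻ η, ‖FT u η‖ₑ ^ 4 < ∞ := by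
  obtain ⟨M, hM0, hM⟩ := hu.bd
  have h1 : ∫⁻ η, ‖FT u η‖ₑ ^ 2 < ∞ := by
    refine (planch1' u).trans_lt ?_
    calc ∫⁻ y, ‖u y‖ₑ ^ 2 ≤ ∫⁻ y, ENNReal.ofReal M * ‖u y‖ₑ := by
          refine lintegral_mono fun y => ?_
          simp only
          rw [sq]
          refine mul_le_mul' ?_ le_rfl
          rw [← ofReal_norm]
          exact ENNReal.ofReal_le_ofReal (hM y)
      _ = ENNReal.ofReal M * ∫⁻ y, ‖u y‖ₑ := lintegral_const_mul' _ _ ENNReal.ofReal_ne_top
      _ < ∞ := ENNReal.mul_lt_top ENNReal.ofReal_lt_top hu.int.2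
  calc ∫⁻ η, ‖FT u η‖ₑ ^ 4 ≤ ∫⁻ η, ENNReal.ofReal ((∫ y, ‖u y‖) ^ 2) * ‖FT u η‖ₑ ^ 2 := by
        refine lintegral_mono fun η => ?_
        simp only
        rw [show (4 : ℕ) = 2 + 2 by norm_num, pow_add]
        refine mul_le_mul' ?_ le_rfl
        rw [← ofReal_norm, ← ENNReal.ofReal_pow (norm_nonneg _)]
        exact ENNReal.ofReal_le_ofReal (pow_le_pow_left₀ (norm_nonneg _) (FT_bound u η) 2)
    _ = ENNReal.ofReal ((∫ y, ‖u y‖) ^ 2) * ∫⁻ η, ‖FT u η‖ₑ ^ 2 :=
        lintegral_const_mul' _ _ ENNReal.ofReal_ne_top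
    _ < ∞ := ENNReal.mul_lt_top ENNReal.ofReal_lt_top h1

theorem FT4_int {u : ℝ → ℂ} (hu : Bd u) : Integrable fun η => FT u η ^ 4 := by
  refine ⟨((FT_meas hu.meas).pow_const 4).aestronglyMeasurable, ?_⟩
  refine lt_of_le_of_lt (le_of_eq ?_) (FT_fin hu)
  refine lintegral_congr fun η => ?_
  rw [enorm_pow]

/-- the Gaussian kernel -/
theorem gker (ε : ℝ) (hε : 0 < ε) (x : ℝ) :
    ‖∫ η : ℝ, cexp (-(π * ε ^ 2) * η ^ 2) * ee (x * η)‖ = ε⁻¹ * Real.exp (-π * x ^ 2 / ε ^ 2) := by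
  have h1 := fourierIntegral_gaussian (b := (π * ε ^ 2 : ℂ)) (by
    have : ((π * ε ^ 2 : ℂ)).re = π * ε ^ 2 := by
      rw [← ofReal_pow, ← ofReal_mul, ofReal_re]
    rw [this]
    have := Real.pi_pos
    positivity) (2 * π * x : ℂ)
  have h2 : ∫ η : ℝ, cexp (-(π * ε ^ 2) * η ^ 2) * ee (x * η) =
      (π / (π * ε ^ 2 : ℂ)) ^ (1 / 2 : ℂ) * cexp (-(2 * π * x : ℂ) ^ 2 / (4 * (π * ε ^ 2))) := by
    rw [← h1]
    refine integral_congr_ae (Eventually.of_forall fun v => ?_)
    simp only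
    rw [mul_comm]
    congr 1
    unfold ee
    congr 1
    push_cast
    ring
  have hpi := Real.pi_pos
  have hc : (-(2 * π * x : ℂ) ^ 2 / (4 * (π * ε ^ 2))) = ((-π * x ^ 2 / ε ^ 2 : ℝ) : ℂ) := by
    have a1 : (π : ℂ) ≠ 0 := by exact_mod_cast hpi.ne'
    have a2 : (ε : ℂ) ≠ 0 := by exact_mod_cast hε.ne'
    push_cast
    field_simp
    ring
  rw [h2, norm_mul, hc, Complex.norm_exp, ofReal_re]
  congr 1
  have e1 : (π / (π * ε ^ 2 : ℂ)) = ((ε⁻¹ ^ 2 : ℝ) : ℂ) := by
    have a1 : (π : ℂ) ≠ 0 := by exact_mod_cast hpi.ne'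
    have a2 : (ε : ℂ) ≠ 0 := by exact_mod_cast hε.ne'
    push_cast
    field_simp
  have e2 : (1 / 2 : ℂ) = ((1 / 2 : ℝ) : ℂ) := by push_cast; rfl
  rw [e1, e2, Complex.norm_cpow_real, Complex.norm_real, Real.norm_of_nonneg (by positivity),
    ← Real.rpow_natCast, ← Real.rpow_mul (by positivity)]
  norm_num

/-- the fourth power as an integral over four variables -/
theorem FT_four {v : ℝ → ℂ} (η : ℝ) : FT v η ^ 4 =
    ∫ z : (ℝ × ℝ) × (ℝ × ℝ), ee ((z.1.1 + z.1.2 + (z.2.1 + z.2.2)) * η) *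
      (v z.1.1 * v z.1.2 * (v z.2.1 * v z.2.2)) := by
  have h1 : FT v η ^ 2 = ∫ p : ℝ × ℝ, ee ((p.1 + p.2) * η) * (v p.1 * v p.2) := by
    unfold FT
    rw [sq, ← integral_prod_mul]
    refine integral_congr_ae (Eventually.of_forall fun p => ?_)
    simp only
    rw [add_mul, ee_add]
    ring
  rw [show (4 : ℕ) = 2 + 2 by norm_num, pow_add, h1, ← integral_prod_mul]
  refine integral_congr_ae (Eventually.of_forall fun p => ?_)
  simp only
  rw [show (p.1.1 + p.1.2 + (p.2.1 + p.2.2)) * η =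
    (p.1.1 + p.1.2) * η + (p.2.1 + p.2.2) * η by ring, ee_add ((p.1.1 + p.1.2) * η)]
  ring

theorem reg_bound {v : ℝ → ℂ} (hv : Bd v) (h0 : ∀ y, y ≤ 0 → v y = 0) (M : ℝ)
    (hM : ∀ y, ‖v y‖ ≤ M) (ε : ℝ) (hε : 0 < ε) :
    ‖∫ η : ℝ, cexp (-(π * ε ^ 2) * η ^ 2) * FT v η ^ 4‖ ≤ M ^ 4 * ε ^ 3 := by
  have hM0 : 0 ≤ M := (norm_nonneg _).trans (hM 0)
  set h : (ℝ × ℝ) × (ℝ × ℝ) → ℂ := fun z => v z.1.1 * v z.1.2 * (v z.2.1 * v z.2.2) with hh
  set ψ : (ℝ × ℝ) × (ℝ × ℝ) → ℝ := fun z => z.1.1 + z.1.2 + (z.2.1 + z.2.2) with hψ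
  have hpi := Real.pi_pos
  have hhi : Integrable h := (hv.int.mul_prod hv.int).mul_prod (hv.int.mul_prod hv.int)
  have hhm : Measurable h := by
    have := hv.meas
    rw [hh]
    fun_prop
  have hψm : Measurable ψ := by rw [hψ]; fun_prop
  have hg : Integrable fun η : ℝ => cexp (-(π * ε ^ 2) * η ^ 2) := by
    refine integrable_cexp_neg_mul_sq ?_
    rw [← ofReal_pow, ← ofReal_mul, ofReal_re]
    positivity
  have hprod : Integrable (fun q : ℝ × ((ℝ × ℝ) × (ℝ × ℝ)) =>
      cexp (-(π * ε ^ 2) * q.1 ^ 2) * (ee (ψ q.2 * q.1) * h q.2)) (volume.prod volume) := by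
    have h1 : Integrable (fun q : ℝ × ((ℝ × ℝ) × (ℝ × ℝ)) =>
      cexp (-(π * ε ^ 2) * q.1 ^ 2) * h q.2) (volume.prod volume) := hg.mul_prod hhi
    have h2 := h1.bdd_mul (c := 1) (f := fun q : ℝ × ((ℝ × ℝ) × (ℝ × ℝ)) => ee (ψ q.2 * q.1))
      (ee_meas.comp ((hψm.comp measurable_snd).mul measurable_fst)).aestronglyMeasurable
      (Eventually.of_forall fun u => (ee_norm _).le)
    refine h2.congr (Eventually.of_forall fun q => ?_)
    simp only
    ring
  have e1 : ∫ η : ℝ, cexp (-(π * ε ^ 2) * η ^ 2) * FT v η ^ 4 =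
      ∫ z, h z * ∫ η : ℝ, cexp (-(π * ε ^ 2) * η ^ 2) * ee (ψ z * η) := by
    calc ∫ η : ℝ, cexp (-(π * ε ^ 2) * η ^ 2) * FT v η ^ 4
        = ∫ η : ℝ, ∫ z, cexp (-(π * ε ^ 2) * η ^ 2) * (ee (ψ z * η) * h z) := by
          refine integral_congr_ae (Eventually.of_forall fun η => ?_)
          simp only
          rw [FT_four, integral_const_mul]
      _ = ∫ z, ∫ η : ℝ, cexp (-(π * ε ^ 2) * η ^ 2) * (ee (ψ z * η) * h z) :=
          integral_integral_swap hprod
      _ = _ := by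
          refine integral_congr_ae (Eventually.of_forall fun z => ?_)
          simp only
          rw [← integral_const_mul]
          refine integral_congr_ae (Eventually.of_forall fun η => ?_)
          simp only
          ring
  have hgauss : ∀ x : ℝ, 0 ≤ Real.exp (-π * x ^ 2 / ε ^ 2) := fun x => (Real.exp_pos _).le
  set k : ℝ → ℝ := fun x => M * Real.exp (-π * x ^ 2 / ε ^ 2) with hk
  have hki : Integrable k := by
    refine Integrable.const_mul ?_ _
    have h1 := integrable_exp_neg_mul_sq (b := π / ε ^ 2) (by positivity)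
    refine h1.congr (Eventually.of_forall fun x => ?_)
    simp only
    congr 1
    ring
  have hkint : ∫ x, k x = M * ε := by
    rw [hk, integral_const_mul]
    congr 1
    have h1 := integral_gaussian (π / ε ^ 2)
    rw [show π / (π / ε ^ 2) = ε ^ 2 by field_simp, Real.sqrt_sq hε.le] at h1
    refine Eq.trans ?_ h1
    refine integral_congr_ae (Eventually.of_forall fun x => ?_)
    simp only
    congr 1
    ring
  have hk0 : ∀ x, 0 ≤ k x := fun x => by rw [hk]; positivity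
  rw [e1]
  calc ‖∫ z, h z * ∫ η : ℝ, cexp (-(π * ε ^ 2) * η ^ 2) * ee (ψ z * η)‖
      ≤ ∫ z : (ℝ × ℝ) × (ℝ × ℝ), ε⁻¹ * (k z.1.1 * k z.1.2 * (k z.2.1 * k z.2.2)) := by
        refine norm_integral_le_of_norm_le ?_ (Eventually.of_forall fun z => ?_)
        · exact ((hki.mul_prod hki).mul_prod (hki.mul_prod hki)).const_mul _
        · rw [norm_mul, gker ε hε]
          by_cases hz : 0 < z.1.1 ∧ 0 < z.1.2 ∧ 0 < z.2.1 ∧ 0 < z.2.2
          · obtain ⟨p1, p2, p3, p4⟩ := hz
            have n1 : ‖h z‖ ≤ M * M * (M * M) := by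
              rw [hh]
              simp only
              rw [norm_mul, norm_mul, norm_mul]
              have := hM z.1.1
              have := hM z.1.2
              have := hM z.2.1
              have := hM z.2.2
              gcongr
            have n2 : Real.exp (-π * ψ z ^ 2 / ε ^ 2) ≤
                Real.exp (-π * z.1.1 ^ 2 / ε ^ 2) * Real.exp (-π * z.1.2 ^ 2 / ε ^ 2) *
                (Real.exp (-π * z.2.1 ^ 2 / ε ^ 2) * Real.exp (-π * z.2.2 ^ 2 / ε ^ 2)) := by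
              rw [← Real.exp_add, ← Real.exp_add, ← Real.exp_add]
              refine Real.exp_le_exp.2 ?_
              have : z.1.1 ^ 2 + z.1.2 ^ 2 + (z.2.1 ^ 2 + z.2.2 ^ 2) ≤ ψ z ^ 2 := by
                rw [hψ]
                simp only
                nlinarith [mul_pos p1 p2, mul_pos p1 p3, mul_pos p1 p4, mul_pos p2 p3,
                  mul_pos p2 p4, mul_pos p3 p4]
              have h3 : π / ε ^ 2 * (z.1.1 ^ 2 + z.1.2 ^ 2 + (z.2.1 ^ 2 + z.2.2 ^ 2)) ≤
                π / ε ^ 2 * ψ z ^ 2 := mul_le_mul_of_nonneg_left this (by positivity)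
              have h4 : -π * ψ z ^ 2 / ε ^ 2 = -(π / ε ^ 2 * ψ z ^ 2) := by ring
              rw [h4]
              refine (neg_le_neg h3).trans (le_of_eq ?_)
              ring
            calc ‖h z‖ * (ε⁻¹ * Real.exp (-π * ψ z ^ 2 / ε ^ 2))
                ≤ (M * M * (M * M)) * (ε⁻¹ * (Real.exp (-π * z.1.1 ^ 2 / ε ^ 2) *
                  Real.exp (-π * z.1.2 ^ 2 / ε ^ 2) * (Real.exp (-π * z.2.1 ^ 2 / ε ^ 2) *
                  Real.exp (-π * z.2.2 ^ 2 / ε ^ 2)))) := by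
                  gcongr
              _ = _ := by
                  rw [hk]
                  ring
          · have hz0 : h z = 0 := by
              rw [hh]
              simp only
              by_cases q1 : 0 < z.1.1
              · by_cases q2 : 0 < z.1.2
                · by_cases q3 : 0 < z.2.1
                  · have q4 : ¬ 0 < z.2.2 := fun q4 => hz ⟨q1, q2, q3, q4⟩
                    rw [h0 z.2.2 (not_lt.1 q4)]; ring
                  · rw [h0 z.2.1 (not_lt.1 q3)]; ring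
                · rw [h0 z.1.2 (not_lt.1 q2)]; ring
              · rw [h0 z.1.1 (not_lt.1 q1)]; ring
            rw [hz0, norm_zero, zero_mul]
            have := hk0 z.1.1
            have := hk0 z.1.2
            have := hk0 z.2.1
            have := hk0 z.2.2
            positivity
    _ = M ^ 4 * ε ^ 3 := by
        rw [integral_const_mul]
        have e2 : ∫ z : (ℝ × ℝ) × (ℝ × ℝ), k z.1.1 * k z.1.2 * (k z.2.1 * k z.2.2) =
            (∫ p : ℝ × ℝ, k p.1 * k p.2) * ∫ p : ℝ × ℝ, k p.1 * k p.2 := by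
          rw [← integral_prod_mul]
          rfl
        have e3 : ∫ p : ℝ × ℝ, k p.1 * k p.2 = (∫ x, k x) * ∫ x, k x := by
          rw [← integral_prod_mul]
          rfl
        rw [e2, e3, hkint]
        field_simp

/-- the fourth power of the Fourier transform of a function supported in a half line has integral
zero -/
theorem FT4_zero {v : ℝ → ℂ} (hv : Bd v) (h0 : ∀ y, y ≤ 0 → v y = 0) :
    ∫ η, FT v η ^ 4 = 0 := by
  obtain ⟨M, hM0, hM⟩ := hv.bd
  have hlim : Tendsto (fun n : ℕ => ∫ η : ℝ, cexp (-(π * (1 / ((n : ℝ) + 1) : ℝ) ^ 2) * η ^ 2) *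
      FT v η ^ 4) atTop (𝓝 (∫ η, FT v η ^ 4)) := by
    refine tendsto_integral_of_dominated_convergence (fun η => ‖FT v η ^ 4‖) ?_
      (FT4_int hv).norm ?_ ?_
    · intro n
      refine Measurable.aestronglyMeasurable ?_
      have := FT_meas hv.meas
      fun_prop
    · intro n
      refine Eventually.of_forall fun η => ?_
      rw [norm_mul, Complex.norm_exp]
      have : (-(π * ((1 / ((n : ℝ) + 1) : ℝ) : ℂ) ^ 2) * (η : ℂ) ^ 2).re =
          -(π * (1 / ((n : ℝ) + 1)) ^ 2 * η ^ 2) := by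
        rw [← ofReal_pow, ← ofReal_mul, ← ofReal_pow, ← ofReal_neg, ← ofReal_mul, ofReal_re]
        ring
      rw [this]
      have hexp : Real.exp (-(π * (1 / ((n : ℝ) + 1)) ^ 2 * η ^ 2)) ≤ 1 := by
        rw [Real.exp_le_one_iff]
        have := Real.pi_pos
        have : 0 ≤ π * (1 / ((n : ℝ) + 1)) ^ 2 * η ^ 2 := by positivity
        linarith
      exact mul_le_of_le_one_left (norm_nonneg _) hexp
    · refine Eventually.of_forall fun η => ?_
      have h1 : Tendsto (fun n : ℕ => 1 / ((n : ℝ) + 1)) atTop (𝓝 0) :=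
        tendsto_one_div_add_atTop_nhds_zero_nat
      have h2 : Tendsto (fun x : ℝ => cexp (-(π * (x : ℂ) ^ 2) * η ^ 2) * FT v η ^ 4) (𝓝 0)
          (𝓝 (cexp (-(π * ((0 : ℝ) : ℂ) ^ 2) * η ^ 2) * FT v η ^ 4)) := by
        have : Continuous fun x : ℝ => cexp (-(π * (x : ℂ) ^ 2) * η ^ 2) * FT v η ^ 4 := by
          fun_prop
        exact this.tendsto 0
      have h3 := h2.comp h1
      simp only [ofReal_zero] at h3
      rw [show (-(π * (0 : ℂ) ^ 2) * (η : ℂ) ^ 2) = 0 by ring, Complex.exp_zero, one_mul] at h3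
      exact h3
  have hlim0 : Tendsto (fun n : ℕ => ∫ η : ℝ, cexp (-(π * (1 / ((n : ℝ) + 1) : ℝ) ^ 2) * η ^ 2) *
      FT v η ^ 4) atTop (𝓝 0) := by
    refine squeeze_zero_norm (fun n => reg_bound hv h0 M hM (1 / ((n : ℝ) + 1)) (by positivity)) ?_
    have h1 : Tendsto (fun n : ℕ => 1 / ((n : ℝ) + 1)) atTop (𝓝 0) :=
      tendsto_one_div_add_atTop_nhds_zero_nat
    have h2 := (h1.pow 3).const_mul (M ^ 4)
    simpa using h2
  exact tendsto_nhds_unique hlim hlim0

end Pool.Agent.J6H76.TS
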