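import Mathlib
import Pool.Agent.J6H76.TS.P
set_option autoImplicit false

/-! The multiplier `1_J e^{π y²}` is bounded in `L⁴` on the Fourier side. -/

namespace Pool.Agent.J6H76.TS

open MeasureTheory Complex Set Filter Topology
open scoped ENNReal ComplexConjugate Real
open Pool.Agent.R412.RT (E ee ee_norm ee_add ee_conj ee_meas ee_cont planch)

/-- truncation to a half line -/
noncomputable def cut (s : ℝ) (u : ℝ → ℂ) (y : ℝ) : ℂ := if s < y then u y else 0

/-- the fourth power of the norm -/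
noncomputable def R4 (u : ℝ → ℂ) : ℝ := ∫ η, ‖FT u η‖ ^ 4

theorem R4_int {u : ℝ → ℂ} (hu : Bd u) : Integrable fun η => ‖FT u η‖ ^ 4 := by
  refine (FT4_int hu).norm.congr (Eventually.of_forall fun η => ?_)
  simp only
  rw [norm_pow]

theorem R4_l {u : ℝ → ℂ} (hu : Bd u) : ∫⁻ η, ‖FT u η‖ₑ ^ 4 = ENNReal.ofReal (R4 u) := by
  unfold R4
  rw [ofReal_integral_eq_lintegral_ofReal (R4_int hu) (Eventually.of_forall fun η => by positivity)]
  refine lintegral_congr fun η => ?_
  rw [ENNReal.ofReal_pow (norm_nonneg _), ofReal_norm]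

theorem cut_Bd (s : ℝ) {u : ℝ → ℂ} (hu : Bd u) : Bd (cut s u) := by
  obtain ⟨M, hM0, hM⟩ := hu.bd
  have hm : Measurable (cut s u) := by
    unfold cut
    exact Measurable.ite measurableSet_Ioi hu.meas measurable_const
  refine ⟨hm, ?_, M, hM0, fun y => ?_⟩
  · refine hu.int.mono hm.aestronglyMeasurable (Eventually.of_forall fun y => ?_)
    unfold cut
    split_ifs
    · exact le_rfl
    · rw [norm_zero]; exact norm_nonneg _
  · unfold cut
    split_ifs
    · exact hM y
    · rw [norm_zero]; exact hM0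

/-- reflection -/
noncomputable def rfl' (u : ℝ → ℂ) (y : ℝ) : ℂ := conj (u (-y))

theorem FT_rfl (u : ℝ → ℂ) (η : ℝ) : FT (rfl' u) η = conj (FT u η) := by
  unfold FT rfl'
  rw [← integral_conj, ← integral_neg_eq_self]
  refine integral_congr_ae (Eventually.of_forall fun y => ?_)
  simp only
  rw [map_mul, ee_conj, neg_neg, neg_mul]

theorem rfl_Bd {u : ℝ → ℂ} (hu : Bd u) : Bd (rfl' u) := by
  obtain ⟨M, hM0, hM⟩ := hu.bd
  refine ⟨?_, ?_, M, hM0, fun y => ?_⟩
  · unfold rfl'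
    exact Complex.continuous_conj.measurable.comp (hu.meas.comp measurable_neg)
  · unfold rfl'
    exact (Complex.conjLIE.toContinuousLinearEquiv.integrable_comp_iff).2 hu.int.comp_neg
  · unfold rfl'
    rw [Complex.norm_conj]
    exact hM _

theorem FT_add {u v : ℝ → ℂ} (hu : Integrable u) (hv : Integrable v) (η : ℝ) :
    FT (fun y => u y + v y) η = FT u η + FT v η := by
  unfold FT
  rw [← integral_add (ft_int hu η) (ft_int hv η)]
  refine integral_congr_ae (Eventually.of_forall fun y => ?_)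
  simp only
  ring

theorem FT_mul (c : ℂ) (u : ℝ → ℂ) (η : ℝ) : FT (fun y => c * u y) η = c * FT u η := by
  unfold FT
  rw [← integral_const_mul]
  refine integral_congr_ae (Eventually.of_forall fun y => ?_)
  simp only
  ring

theorem herm {u : ℝ → ℂ} (hu : Bd u) (hh : ∀ y, u (-y) = conj (u y)) (η : ℝ) :
    FT u η = FT (cut 0 u) η + conj (FT (cut 0 u) η) := by
  rw [← FT_rfl, ← FT_add (cut_Bd 0 hu).int (rfl_Bd (cut_Bd 0 hu)).int]
  unfold FT
  refine integral_congr_ae ?_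
  have h0 : ∀ᵐ y : ℝ, y ≠ 0 := by
    rw [ae_iff]
    simp
  filter_upwards [h0] with y hy
  congr 1
  unfold rfl' cut
  rcases lt_or_gt_of_ne hy with h | h
  · rw [if_neg (by linarith), if_pos (by linarith), hh, Complex.conj_conj, zero_add]
  · rw [if_pos h, if_neg (by linarith), map_zero, add_zero]

theorem herm4 {u : ℝ → ℂ} (hu : Bd u) (hh : ∀ y, u (-y) = conj (u y)) :
    R4 (cut 0 u) ≤ 3 * R4 u := by
  have hc := cut_Bd 0 hu
  have h0 := FT4_zero hc (fun y hy => by unfold cut; rw [if_neg (not_lt.2 hy)])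
  have hre : ∫ η, (FT (cut 0 u) η ^ 4).re = 0 := by
    have := integral_re (FT4_int hc)
    simp only [RCLike.re_to_complex] at this
    rw [this, h0, Complex.zero_re]
  have hpt : ∀ η, ‖FT (cut 0 u) η‖ ^ 4 ≤ 3 * ‖FT u η‖ ^ 4 + 2 * (FT (cut 0 u) η ^ 4).re := by
    intro η
    rw [herm hu hh η, Complex.add_conj, Complex.norm_real, Real.norm_eq_abs]
    set z := FT (cut 0 u) η
    have e1 : ‖z‖ ^ 4 = (z.re ^ 2 + z.im ^ 2) ^ 2 := by
      rw [show (4 : ℕ) = 2 * 2 by norm_num, pow_mul, ← Complex.normSq_eq_norm_sq,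
        Complex.normSq_apply]
      ring
    have e2 : (z ^ 4).re = z.re ^ 4 - 6 * z.re ^ 2 * z.im ^ 2 + z.im ^ 4 := by
      rw [show z ^ 4 = z * z * (z * z) by ring]
      simp only [Complex.mul_re, Complex.mul_im]
      ring
    have e3 : |2 * z.re| ^ 4 = 16 * z.re ^ 4 := by
      rw [show (4 : ℕ) = 2 * 2 by norm_num, pow_mul, sq_abs]
      ring
    rw [e1, e2, e3]
    nlinarith [sq_nonneg (z.im ^ 2 - 7 * z.re ^ 2)]
  have hri : Integrable fun η => (FT (cut 0 u) η ^ 4).re := (FT4_int hc).re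
  unfold R4
  calc ∫ η, ‖FT (cut 0 u) η‖ ^ 4
      ≤ ∫ η, (3 * ‖FT u η‖ ^ 4 + 2 * (FT (cut 0 u) η ^ 4).re) :=
        integral_mono (R4_int hc) (((R4_int hu).const_mul 3).add (hri.const_mul 2)) hpt
    _ = 3 * ∫ η, ‖FT u η‖ ^ 4 := by
        rw [integral_add ((R4_int hu).const_mul 3) (hri.const_mul 2),
          integral_const_mul, integral_const_mul, hre, mul_zero, add_zero]

/-- the two Hermitian parts -/
noncomputable def hp1 (u : ℝ → ℂ) (y : ℝ) : ℂ := (1 / 2) * (u y + rfl' u y)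
noncomputable def hp2 (u : ℝ → ℂ) (y : ℝ) : ℂ := (1 / (2 * I)) * (u y + (-1) * rfl' u y)

theorem Bd_add {u v : ℝ → ℂ} (hu : Bd u) (hv : Bd v) : Bd fun y => u y + v y := by
  obtain ⟨M, hM0, hM⟩ := hu.bd
  obtain ⟨M', hM0', hM'⟩ := hv.bd
  exact ⟨hu.meas.add hv.meas, hu.int.add hv.int, M + M', by positivity, fun y =>
    (norm_add_le _ _).trans (add_le_add (hM y) (hM' y))⟩

theorem Bd_mul {u : ℝ → ℂ} (c : ℂ) (hu : Bd u) : Bd fun y => c * u y := by
  obtain ⟨M, hM0, hM⟩ := hu.bd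
  refine ⟨hu.meas.const_mul c, hu.int.const_mul c, ‖c‖ * M, by positivity, fun y => ?_⟩
  rw [norm_mul]
  exact mul_le_mul_of_nonneg_left (hM y) (norm_nonneg _)

theorem gen4 {u : ℝ → ℂ} (hu : Bd u) : R4 (cut 0 u) ≤ 24 * R4 u := by
  have hr := rfl_Bd hu
  have b1 : Bd (hp1 u) := Bd_mul _ (Bd_add hu hr)
  have b2 : Bd (hp2 u) := Bd_mul _ (Bd_add hu (Bd_mul (-1) hr))
  have s1 : ∀ y, hp1 u (-y) = conj (hp1 u y) := by
    intro y
    unfold hp1 rfl'
    rw [neg_neg, map_mul, map_add, Complex.conj_conj, map_div₀, map_one]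
    have : conj (2 : ℂ) = 2 := map_ofNat _ 2
    rw [this]
    ring
  have s2 : ∀ y, hp2 u (-y) = conj (hp2 u y) := by
    intro y
    unfold hp2 rfl'
    rw [neg_neg, map_mul, map_add, map_mul, Complex.conj_conj, map_div₀, map_one, map_mul, map_neg,
      map_one, Complex.conj_I]
    have : conj (2 : ℂ) = 2 := map_ofNat _ 2
    rw [this]
    have hI : (I : ℂ) ≠ 0 := I_ne_zero
    field_simp
    ring
  have f1 : ∀ η, FT (hp1 u) η = ((FT u η).re : ℂ) := by
    intro η
    unfold hp1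
    rw [FT_mul, FT_add hu.int hr.int, FT_rfl, Complex.add_conj]
    push_cast
    ring
  have f2 : ∀ η, FT (hp2 u) η = ((FT u η).im : ℂ) := by
    intro η
    unfold hp2
    rw [FT_mul, FT_add hu.int (hr.int.const_mul (-1)), FT_mul, FT_rfl,
      show FT u η + -1 * conj (FT u η) = FT u η - conj (FT u η) by ring, Complex.sub_conj]
    have hI : (I : ℂ) ≠ 0 := I_ne_zero
    push_cast
    field_simp
  have h3 : ∀ η, FT (cut 0 u) η = FT (cut 0 (hp1 u)) η + I * FT (cut 0 (hp2 u)) η := by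
    intro η
    rw [← FT_mul, ← FT_add (cut_Bd 0 b1).int ((cut_Bd 0 b2).int.const_mul I)]
    congr 1
    ext y
    unfold cut hp1 hp2
    split_ifs
    · have hI : (I : ℂ) ≠ 0 := I_ne_zero
      field_simp
      ring
    · simp
  have c1 := herm4 b1 s1
  have c2 := herm4 b2 s2
  have d1 : R4 (hp1 u) + R4 (hp2 u) ≤ R4 u := by
    unfold R4
    rw [← integral_add (R4_int b1) (R4_int b2)]
    refine integral_mono ((R4_int b1).add (R4_int b2)) (R4_int hu) fun η => ?_
    simp only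
    rw [f1, f2, Complex.norm_real, Complex.norm_real, Real.norm_eq_abs, Real.norm_eq_abs]
    have e1 : ‖FT u η‖ ^ 4 = ((FT u η).re ^ 2 + (FT u η).im ^ 2) ^ 2 := by
      rw [show (4 : ℕ) = 2 * 2 by norm_num, pow_mul, ← Complex.normSq_eq_norm_sq,
        Complex.normSq_apply]
      ring
    have e2 : ∀ x : ℝ, |x| ^ 4 = (x ^ 2) ^ 2 := fun x => by
      rw [show (4 : ℕ) = 2 * 2 by norm_num, pow_mul, sq_abs]
    rw [e1, e2, e2]
    nlinarith [mul_nonneg (sq_nonneg (FT u η).re) (sq_nonneg (FT u η).im)]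
  have d2 : R4 (cut 0 u) ≤ 8 * R4 (cut 0 (hp1 u)) + 8 * R4 (cut 0 (hp2 u)) := by
    unfold R4
    rw [← integral_const_mul, ← integral_const_mul, ← integral_add
      ((R4_int (cut_Bd 0 b1)).const_mul 8) ((R4_int (cut_Bd 0 b2)).const_mul 8)]
    refine integral_mono (R4_int (cut_Bd 0 hu)) (((R4_int (cut_Bd 0 b1)).const_mul 8).add
      ((R4_int (cut_Bd 0 b2)).const_mul 8)) fun η => ?_
    simp only
    rw [h3]
    have h4 : ‖FT (cut 0 (hp1 u)) η + I * FT (cut 0 (hp2 u)) η‖ ≤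
        ‖FT (cut 0 (hp1 u)) η‖ + ‖FT (cut 0 (hp2 u)) η‖ := by
      refine (norm_add_le _ _).trans ?_
      rw [norm_mul, Complex.norm_I, one_mul]
    refine (pow_le_pow_left₀ (norm_nonneg _) h4 4).trans ?_
    have := add_pow_le (norm_nonneg (FT (cut 0 (hp1 u)) η)) (norm_nonneg (FT (cut 0 (hp2 u)) η)) 4
    norm_num at this
    linarith
  linarith

theorem cut4 (s : ℝ) {u : ℝ → ℂ} (hu : Bd u) : R4 (cut s u) ≤ 24 * R4 u := by
  set v : ℝ → ℂ := fun y => u (y + s) with hv
  obtain ⟨M, hM0, hM⟩ := hu.bd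
  have bv : Bd v := ⟨hu.meas.comp (by fun_prop), hu.int.comp_add_right s, M, hM0, fun y => hM _⟩
  have h1 : ∀ η, ‖FT (cut s u) η‖ = ‖FT (cut 0 v) η‖ := by
    intro η
    have : FT (cut s u) η = ee (s * η) * FT (cut 0 v) η := by
      unfold FT
      rw [← integral_const_mul, ← integral_add_right_eq_self _ s]
      refine integral_congr_ae (Eventually.of_forall fun y => ?_)
      simp only
      rw [add_mul, ee_add]
      unfold cut
      simp only [hv]
      by_cases hy : 0 < y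
      · rw [if_pos hy, if_pos (by linarith)]
        ring
      · rw [if_neg hy, if_neg (by linarith)]
        ring
    rw [this, norm_mul, ee_norm, one_mul]
  have h2 : ∀ η, ‖FT v η‖ = ‖FT u η‖ := by
    intro η
    have : FT u η = ee (s * η) * FT v η := by
      unfold FT
      rw [← integral_const_mul, ← integral_add_right_eq_self _ s]
      refine integral_congr_ae (Eventually.of_forall fun y => ?_)
      simp only
      rw [add_mul, ee_add]
      ring
    rw [this, norm_mul, ee_norm, one_mul]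
  have h3 : R4 (cut s u) = R4 (cut 0 v) := by
    unfold R4
    simp_rw [h1]
  have h4 : R4 v = R4 u := by
    unfold R4
    simp_rw [h2]
  rw [h3, ← h4]
  exact gen4 bv

/-- truncation to a symmetric interval -/
noncomputable def seg (s : ℝ) (u : ℝ → ℂ) (y : ℝ) : ℂ := if -s < y ∧ y ≤ s then u y else 0

theorem seg_eq (s : ℝ) (hs : 0 ≤ s) (u : ℝ → ℂ) :
    seg s u = fun y => cut (-s) u y + (-1) * cut s u y := by
  ext y
  unfold seg cut
  by_cases h1 : -s < y
  · by_cases h2 : y ≤ s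
    · rw [if_pos ⟨h1, h2⟩, if_pos h1, if_neg (not_lt.2 h2)]; ring
    · rw [if_neg (fun h => h2 h.2), if_pos h1, if_pos (not_le.1 h2)]; ring
  · rw [if_neg (fun h => h1 h.1), if_neg h1, if_neg (by linarith)]; ring

theorem seg_Bd (s : ℝ) (hs : 0 ≤ s) {u : ℝ → ℂ} (hu : Bd u) : Bd (seg s u) := by
  rw [seg_eq s hs]
  exact Bd_add (cut_Bd _ hu) (Bd_mul _ (cut_Bd _ hu))

theorem seg4 (s : ℝ) (hs : 0 ≤ s) {u : ℝ → ℂ} (hu : Bd u) : R4 (seg s u) ≤ 384 * R4 u := by
  have b1 := cut_Bd (-s) hu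
  have b2 := cut_Bd s hu
  have c1 := cut4 (-s) hu
  have c2 := cut4 s hu
  have d2 : R4 (seg s u) ≤ 8 * R4 (cut (-s) u) + 8 * R4 (cut s u) := by
    unfold R4
    rw [← integral_const_mul, ← integral_const_mul, ← integral_add
      ((R4_int b1).const_mul 8) ((R4_int b2).const_mul 8)]
    refine integral_mono (R4_int (seg_Bd s hs hu)) (((R4_int b1).const_mul 8).add
      ((R4_int b2).const_mul 8)) fun η => ?_
    simp only
    rw [seg_eq s hs, FT_add b1.int (b2.int.const_mul (-1)), FT_mul]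
    have h4 : ‖FT (cut (-s) u) η + -1 * FT (cut s u) η‖ ≤
        ‖FT (cut (-s) u) η‖ + ‖FT (cut s u) η‖ := by
      refine (norm_add_le _ _).trans ?_
      rw [norm_mul, norm_neg, norm_one, one_mul]
    refine (pow_le_pow_left₀ (norm_nonneg _) h4 4).trans ?_
    have := add_pow_le (norm_nonneg (FT (cut (-s) u) η)) (norm_nonneg (FT (cut s u) η)) 4
    norm_num at this
    linarith
  linarith

end Pool.Agent.J6H76.TS
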