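import Mathlib
import Pool.Agent.J6H76.TS.P2
set_option autoImplicit false

/-! The multiplier `1_J e^{π y²}`. -/

namespace Pool.Agent.J6H76.TS

open MeasureTheory Complex Set Filter Topology
open scoped ENNReal ComplexConjugate Real
open Pool.Agent.R412.RT (E ee ee_norm ee_add ee_conj ee_meas ee_cont planch)

theorem cs1 {Y : Type*} [MeasurableSpace Y] (μ : Measure Y) (hμ : μ univ ≤ 1) (g : Y → ℝ≥0∞)
    (hg : Measurable g) : (∫⁻ y, g y ∂μ) ^ 2 ≤ ∫⁻ y, g y ^ 2 ∂μ := by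
  have h2 := ENNReal.lintegral_mul_le_Lp_mul_Lq μ Real.HolderConjugate.two_two (f := g)
    (g := fun _ => 1) hg.aemeasurable aemeasurable_const
  simp only [Pi.mul_apply, mul_one, ENNReal.one_rpow, lintegral_const, one_mul] at h2
  have h3 : ∫⁻ y, g y ∂μ ≤ (∫⁻ y, g y ^ (2 : ℝ) ∂μ) ^ (1 / 2 : ℝ) := by
    refine h2.trans ?_
    calc (∫⁻ y, g y ^ (2 : ℝ) ∂μ) ^ (1 / 2 : ℝ) * μ univ ^ (1 / 2 : ℝ)
        ≤ (∫⁻ y, g y ^ (2 : ℝ) ∂μ) ^ (1 / 2 : ℝ) * 1 := by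
          refine mul_le_mul' le_rfl ?_
          calc μ univ ^ (1 / 2 : ℝ) ≤ 1 ^ (1 / 2 : ℝ) := ENNReal.rpow_le_rpow hμ (by norm_num)
            _ = 1 := ENNReal.one_rpow _
      _ = _ := mul_one _
  refine (pow_le_pow_left' h3 2).trans (le_of_eq ?_)
  rw [← ENNReal.rpow_natCast, ← ENNReal.rpow_mul]
  have e : (1 / 2 : ℝ) * ((2 : ℕ) : ℝ) = 1 := by norm_num
  rw [e, ENNReal.rpow_one]
  refine lintegral_congr fun y => ?_
  norm_num

theorem cs4 {Y : Type*} [MeasurableSpace Y] (μ : Measure Y) (hμ : μ univ ≤ 1) (g : Y → ℝ≥0∞)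
    (hg : Measurable g) : (∫⁻ y, g y ∂μ) ^ 4 ≤ ∫⁻ y, g y ^ 4 ∂μ := by
  have h1 := pow_le_pow_left' (cs1 μ hμ g hg) 2
  have h2 := cs1 μ hμ (fun y => g y ^ 2) (hg.pow_const 2)
  rw [← pow_mul] at h1
  refine h1.trans (h2.trans (le_of_eq ?_))
  refine lintegral_congr fun y => ?_
  rw [← pow_mul]

/-- the density -/
noncomputable def ph (s : ℝ) : ℝ := 2 * π * s * Real.exp (π * s ^ 2)

/-- the sharp window times the inverse Gaussian -/
noncomputable def win (u : ℝ → ℂ) (y : ℝ) : ℂ :=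
  if -(1 / 4) < y ∧ y ≤ 1 / 4 then ((Real.exp (π * y ^ 2) : ℝ) : ℂ) * u y else 0

theorem ph_cont : Continuous ph := by unfold ph; fun_prop

theorem ph_sint (y : ℝ) (hy : |y| ≤ 1 / 4) :
    ∫ s in Ioc (0 : ℝ) (1 / 4), (if -s < y ∧ y ≤ s then ph s else 0) =
      Real.exp (π * (1 / 4) ^ 2) - Real.exp (π * y ^ 2) := by
  have h1 : ∫ s in Ioc (0 : ℝ) (1 / 4), (if -s < y ∧ y ≤ s then ph s else 0) =
      ∫ s in Ioc |y| (1 / 4), ph s := by
    rw [← integral_indicator measurableSet_Ioc, ← integral_indicator measurableSet_Ioc]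
    refine integral_congr_ae ?_
    have h0 : ∀ᵐ s : ℝ, s ≠ |y| := by
      rw [ae_iff]
      simp
    filter_upwards [h0] with s hs
    by_cases h2 : s ∈ Ioc |y| (1 / 4)
    · rw [indicator_of_mem h2, indicator_of_mem (show s ∈ Ioc (0 : ℝ) (1 / 4) from
        ⟨(abs_nonneg y).trans_lt h2.1, h2.2⟩), if_pos]
      have := abs_lt.1 h2.1
      exact ⟨this.1, this.2.le⟩
    · rw [indicator_of_notMem h2]
      by_cases h3 : s ∈ Ioc (0 : ℝ) (1 / 4)
      · rw [indicator_of_mem h3, if_neg]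
        rintro ⟨h4, h5⟩
        have h6 : |y| ≤ s := abs_le.2 ⟨h4.le, h5⟩
        exact h2 ⟨lt_of_le_of_ne h6 hs.symm, h3.2⟩
      · rw [indicator_of_notMem h3]
  rw [h1, ← intervalIntegral.integral_of_le hy]
  have h2 : ∀ s ∈ uIcc |y| (1 / 4 : ℝ), HasDerivAt (fun s : ℝ => Real.exp (π * s ^ 2)) (ph s) s := by
    intro s _
    have h3 : HasDerivAt (fun s : ℝ => π * s ^ 2) (π * (2 * s)) s := by
      have := (hasDerivAt_pow 2 s).const_mul π
      simpa using this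
    have h4 := h3.exp
    convert h4 using 1
    unfold ph
    ring
  rw [intervalIntegral.integral_eq_sub_of_hasDerivAt h2 (ph_cont.intervalIntegrable _ _), sq_abs]

theorem win_eq (u : ℝ → ℂ) (y : ℝ) : win u y =
    ((Real.exp (π * (1 / 4) ^ 2) : ℝ) : ℂ) * seg (1 / 4) u y -
      ∫ s in Ioc (0 : ℝ) (1 / 4), ((ph s : ℝ) : ℂ) * seg s u y := by
  by_cases hy : -(1 / 4) < y ∧ y ≤ 1 / 4
  · have hy' : |y| ≤ 1 / 4 := abs_le.2 ⟨hy.1.le, hy.2⟩
    have h1 : ∫ s in Ioc (0 : ℝ) (1 / 4), ((ph s : ℝ) : ℂ) * seg s u y =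
        (∫ s in Ioc (0 : ℝ) (1 / 4), (((if -s < y ∧ y ≤ s then ph s else 0 : ℝ)) : ℂ)) * u y := by
      rw [← integral_mul_const]
      refine integral_congr_ae (Eventually.of_forall fun s => ?_)
      simp only
      unfold seg
      split_ifs <;> simp
    rw [h1, integral_complex_ofReal, ph_sint y hy']
    unfold win seg
    rw [if_pos hy, if_pos hy]
    push_cast
    ring
  · have h1 : ∀ s ∈ Ioc (0 : ℝ) (1 / 4), ((ph s : ℝ) : ℂ) * seg s u y = 0 := by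
      intro s hs
      unfold seg
      rw [if_neg, mul_zero]
      rintro ⟨h2, h3⟩
      exact hy ⟨by linarith [hs.2], by linarith [hs.2]⟩
    rw [setIntegral_congr_fun measurableSet_Ioc h1]
    unfold win seg
    rw [if_neg hy, if_neg hy]
    simp

theorem seg_joint {u : ℝ → ℂ} (hu : Measurable u) :
    Measurable fun q : ℝ × ℝ => seg q.1 u q.2 := by
  unfold seg
  refine Measurable.ite ?_ (hu.comp measurable_snd) measurable_const
  have h1 : MeasurableSet {q : ℝ × ℝ | -q.1 < q.2} := measurableSet_lt (by fun_prop) (by fun_prop)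
  have h2 : MeasurableSet {q : ℝ × ℝ | q.2 ≤ q.1} := measurableSet_le (by fun_prop) (by fun_prop)
  exact h1.inter h2

theorem FT_win {u : ℝ → ℂ} (hu : Bd u) (η : ℝ) : FT (win u) η =
    ((Real.exp (π * (1 / 4) ^ 2) : ℝ) : ℂ) * FT (seg (1 / 4) u) η -
      ∫ s in Ioc (0 : ℝ) (1 / 4), ((ph s : ℝ) : ℂ) * FT (seg s u) η := by
  have hphi : Integrable (fun s : ℝ => (ph s : ℂ)) (volume.restrict (Ioc (0 : ℝ) (1 / 4))) := by
    have : IntegrableOn ph (Ioc (0 : ℝ) (1 / 4)) := ph_cont.integrableOn_Ioc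
    exact this.ofReal
  have hjoint : Integrable (fun q : ℝ × ℝ => ee (q.1 * η) * (((ph q.2 : ℝ) : ℂ) * seg q.2 u q.1))
      (volume.prod (volume.restrict (Ioc (0 : ℝ) (1 / 4)))) := by
    have h1 : Integrable (fun q : ℝ × ℝ => u q.1 * ((ph q.2 : ℝ) : ℂ))
        (volume.prod (volume.restrict (Ioc (0 : ℝ) (1 / 4)))) := hu.int.mul_prod hphi
    refine h1.mono ?_ (Eventually.of_forall fun q => ?_)
    · refine Measurable.aestronglyMeasurable ?_
      refine (ee_meas.comp (by fun_prop)).mul (Measurable.mul ?_ ?_)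
      · exact Complex.measurable_ofReal.comp (ph_cont.measurable.comp measurable_snd)
      · exact (seg_joint hu.meas).comp measurable_swap
    · rw [norm_mul, norm_mul, norm_mul, ee_norm, one_mul, mul_comm]
      refine mul_le_mul_of_nonneg_right ?_ (norm_nonneg _)
      unfold seg
      split_ifs
      · exact le_rfl
      · rw [norm_zero]; exact norm_nonneg _
  have e1 : FT (win u) η = ∫ y, (((Real.exp (π * (1 / 4) ^ 2) : ℝ) : ℂ) *
      (ee (y * η) * seg (1 / 4) u y) -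
      ∫ s in Ioc (0 : ℝ) (1 / 4), ee (y * η) * (((ph s : ℝ) : ℂ) * seg s u y)) := by
    unfold FT
    refine integral_congr_ae (Eventually.of_forall fun y => ?_)
    simp only
    rw [win_eq, integral_const_mul]
    ring
  have i1 : Integrable fun y => ((Real.exp (π * (1 / 4) ^ 2) : ℝ) : ℂ) *
      (ee (y * η) * seg (1 / 4) u y) :=
    (ft_int (seg_Bd (1 / 4) (by norm_num) hu).int η).const_mul _
  have i2 : Integrable fun y => ∫ s in Ioc (0 : ℝ) (1 / 4),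
      ee (y * η) * (((ph s : ℝ) : ℂ) * seg s u y) := hjoint.integral_prod_left
  rw [e1, integral_sub i1 i2, integral_const_mul, integral_integral_swap hjoint]
  congr 1
  refine integral_congr_ae (Eventually.of_forall fun s => ?_)
  simp only
  unfold FT
  rw [← integral_const_mul]
  refine integral_congr_ae (Eventually.of_forall fun y => ?_)
  simp only
  ring

/-- the constant of the multiplier -/
noncomputable def Kw : ℝ := 2 * π * (1 / 4) * Real.exp (π * (1 / 4) ^ 2)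
noncomputable def Cw : ℝ := 8 * Real.exp (π * (1 / 4) ^ 2) ^ 4 * 384 + 8 * Kw ^ 4 * 384

theorem Cw_nonneg : 0 ≤ Cw := by unfold Cw Kw; positivity

theorem ph_le (s : ℝ) (hs : s ∈ Ioc (0 : ℝ) (1 / 4)) : |ph s| ≤ Kw := by
  have h0 := Real.pi_pos
  have h1 : 0 ≤ ph s := by
    unfold ph
    have := hs.1
    positivity
  rw [abs_of_nonneg h1]
  unfold ph Kw
  have := hs.1.le
  have := hs.2
  gcongr

/-- the multiplier theorem -/
theorem win4 {u : ℝ → ℂ} (hu : Bd u) :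
    ∫⁻ η, ‖FT (win u) η‖ₑ ^ 4 ≤ ENNReal.ofReal Cw * ∫⁻ η, ‖FT u η‖ₑ ^ 4 := by
  set μ : Measure ℝ := volume.restrict (Ioc (0 : ℝ) (1 / 4)) with hμ
  have hμ1 : μ univ ≤ 1 := by
    rw [hμ, Measure.restrict_apply_univ, Real.volume_Ioc, ← ENNReal.ofReal_one]
    exact ENNReal.ofReal_le_ofReal (by norm_num)
  have hKw : 0 ≤ Kw := by unfold Kw; have := Real.pi_pos; positivity
  have hjm : Measurable fun q : ℝ × ℝ => FT (seg q.1 u) q.2 := by
    unfold FT
    have : StronglyMeasurable (Function.uncurry fun (q : ℝ × ℝ) (y : ℝ) =>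
        ee (y * q.2) * seg q.1 u y) := by
      refine Measurable.stronglyMeasurable ?_
      refine (ee_meas.comp (by fun_prop)).mul ?_
      exact (seg_joint hu.meas).comp
        ((measurable_fst.comp measurable_fst).prodMk measurable_snd)
    exact this.integral_prod_right.measurable
  have hjs : ∀ η, Measurable fun s : ℝ => FT (seg s u) η := by
    intro η
    unfold FT
    have : StronglyMeasurable (Function.uncurry fun (s : ℝ) (y : ℝ) =>
        ee (y * η) * seg s u y) := by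
      refine Measurable.stronglyMeasurable ?_
      refine (ee_meas.comp (by fun_prop)).mul ?_
      exact seg_joint hu.meas
    exact this.integral_prod_right.measurable
  have h1 : ∀ η, ‖FT (win u) η‖ₑ ^ 4 ≤
      ENNReal.ofReal (8 * Real.exp (π * (1 / 4) ^ 2) ^ 4) * ‖FT (seg (1 / 4) u) η‖ₑ ^ 4 +
        ENNReal.ofReal (8 * Kw ^ 4) * ∫⁻ s, ‖FT (seg s u) η‖ₑ ^ 4 ∂μ := by
    intro η
    rw [FT_win hu]
    set a : ℂ := ((Real.exp (π * (1 / 4) ^ 2) : ℝ) : ℂ) * FT (seg (1 / 4) u) η with ha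
    set b : ℂ := ∫ s in Ioc (0 : ℝ) (1 / 4), ((ph s : ℝ) : ℂ) * FT (seg s u) η with hb
    have e1 : ‖a - b‖ₑ ^ 4 ≤ ENNReal.ofReal 8 * ‖a‖ₑ ^ 4 + ENNReal.ofReal 8 * ‖b‖ₑ ^ 4 := by
      rw [← ofReal_norm, ← ofReal_norm, ← ofReal_norm, ← ENNReal.ofReal_pow (norm_nonneg _),
        ← ENNReal.ofReal_pow (norm_nonneg _), ← ENNReal.ofReal_pow (norm_nonneg _),
        ← ENNReal.ofReal_mul (by norm_num), ← ENNReal.ofReal_mul (by norm_num),
        ← ENNReal.ofReal_add (by positivity) (by positivity)]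
      refine ENNReal.ofReal_le_ofReal ?_
      refine (pow_le_pow_left₀ (norm_nonneg _) (norm_sub_le a b) 4).trans ?_
      have := add_pow_le (norm_nonneg a) (norm_nonneg b) 4
      norm_num at this
      linarith
    have e2 : ‖a‖ₑ ^ 4 = ENNReal.ofReal (Real.exp (π * (1 / 4) ^ 2) ^ 4) *
        ‖FT (seg (1 / 4) u) η‖ₑ ^ 4 := by
      rw [ha, enorm_mul, mul_pow, ← ofReal_norm, Complex.norm_real,
        Real.norm_of_nonneg (Real.exp_pos _).le, ENNReal.ofReal_pow (Real.exp_pos _).le]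
    have e3 : ‖b‖ₑ ≤ ∫⁻ s, ENNReal.ofReal Kw * ‖FT (seg s u) η‖ₑ ∂μ := by
      refine (enorm_integral_le_lintegral_enorm _).trans ?_
      refine setLIntegral_mono' measurableSet_Ioc fun s hs => ?_
      rw [enorm_mul]
      refine mul_le_mul' ?_ le_rfl
      rw [← ofReal_norm, Complex.norm_real, Real.norm_eq_abs]
      exact ENNReal.ofReal_le_ofReal (ph_le s hs)
    have e4 : ‖b‖ₑ ^ 4 ≤ ENNReal.ofReal (Kw ^ 4) * ∫⁻ s, ‖FT (seg s u) η‖ₑ ^ 4 ∂μ := by
      rw [lintegral_const_mul' _ _ ENNReal.ofReal_ne_top] at e3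
      refine (pow_le_pow_left' e3 4).trans ?_
      rw [mul_pow, ENNReal.ofReal_pow hKw]
      exact mul_le_mul' le_rfl (cs4 μ hμ1 _ (hjs η).enorm)
    refine e1.trans ?_
    rw [e2, ENNReal.ofReal_mul (by norm_num : (0 : ℝ) ≤ 8),
      ENNReal.ofReal_mul (by norm_num : (0 : ℝ) ≤ 8), mul_assoc, mul_assoc]
    exact add_le_add le_rfl (mul_le_mul' le_rfl e4)
  have m1 : Measurable fun η => ENNReal.ofReal (8 * Real.exp (π * (1 / 4) ^ 2) ^ 4) *
      ‖FT (seg (1 / 4) u) η‖ₑ ^ 4 :=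
    ((FT_meas (seg_Bd (1 / 4) (by norm_num) hu).meas).enorm.pow_const 4).const_mul _
  have hsw : ∫⁻ η, ∫⁻ s, ‖FT (seg s u) η‖ₑ ^ 4 ∂μ = ∫⁻ s, (∫⁻ η, ‖FT (seg s u) η‖ₑ ^ 4) ∂μ := by
    have hJ2 : AEMeasurable (Function.uncurry fun s η : ℝ => ‖FT (seg s u) η‖ₑ ^ 4)
        (μ.prod volume) := (hjm.enorm.pow_const 4).aemeasurable
    exact (lintegral_lintegral_swap hJ2).symm
  have hb : ∀ s, 0 ≤ s → ∫⁻ η, ‖FT (seg s u) η‖ₑ ^ 4 ≤
      ENNReal.ofReal 384 * ∫⁻ η, ‖FT u η‖ₑ ^ 4 := by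
    intro s hs
    rw [R4_l (seg_Bd s hs hu), R4_l hu, ← ENNReal.ofReal_mul (by norm_num)]
    exact ENNReal.ofReal_le_ofReal (seg4 s hs hu)
  calc ∫⁻ η, ‖FT (win u) η‖ₑ ^ 4
      ≤ ∫⁻ η, (ENNReal.ofReal (8 * Real.exp (π * (1 / 4) ^ 2) ^ 4) *
          ‖FT (seg (1 / 4) u) η‖ₑ ^ 4 +
          ENNReal.ofReal (8 * Kw ^ 4) * ∫⁻ s, ‖FT (seg s u) η‖ₑ ^ 4 ∂μ) := lintegral_mono h1
    _ = ENNReal.ofReal (8 * Real.exp (π * (1 / 4) ^ 2) ^ 4) *
          (∫⁻ η, ‖FT (seg (1 / 4) u) η‖ₑ ^ 4) +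
          ENNReal.ofReal (8 * Kw ^ 4) * ∫⁻ s, (∫⁻ η, ‖FT (seg s u) η‖ₑ ^ 4) ∂μ := by
        rw [lintegral_add_left m1, lintegral_const_mul' _ _ ENNReal.ofReal_ne_top,
          lintegral_const_mul' _ _ ENNReal.ofReal_ne_top, hsw]
    _ ≤ ENNReal.ofReal (8 * Real.exp (π * (1 / 4) ^ 2) ^ 4) *
          (ENNReal.ofReal 384 * ∫⁻ η, ‖FT u η‖ₑ ^ 4) +
          ENNReal.ofReal (8 * Kw ^ 4) * (ENNReal.ofReal 384 * ∫⁻ η, ‖FT u η‖ₑ ^ 4) := by
        refine add_le_add (mul_le_mul' le_rfl (hb _ (by norm_num))) (mul_le_mul' le_rfl ?_)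
        calc ∫⁻ s, (∫⁻ η, ‖FT (seg s u) η‖ₑ ^ 4) ∂μ
            ≤ ∫⁻ s, ENNReal.ofReal 384 * ∫⁻ η, ‖FT u η‖ₑ ^ 4 ∂volume ∂μ :=
              setLIntegral_mono' measurableSet_Ioc fun s hs => hb s hs.1.le
          _ = (ENNReal.ofReal 384 * ∫⁻ η, ‖FT u η‖ₑ ^ 4) * μ univ := lintegral_const _
          _ ≤ (ENNReal.ofReal 384 * ∫⁻ η, ‖FT u η‖ₑ ^ 4) * 1 := mul_le_mul' le_rfl hμ1
          _ = _ := mul_one _
    _ = ENNReal.ofReal Cw * ∫⁻ η, ‖FT u η‖ₑ ^ 4 := by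
        unfold Cw
        rw [ENNReal.ofReal_add (by positivity) (by positivity),
          ENNReal.ofReal_mul (by positivity : 0 ≤ 8 * Real.exp (π * (1 / 4) ^ 2) ^ 4),
          ENNReal.ofReal_mul (by positivity : 0 ≤ 8 * Kw ^ 4)]
        ring

end Pool.Agent.J6H76.TS
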