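import Mathlib
import Pool.Agent.J6H76.TS.P3
import Pool.Agent.J6H76.TS.H
set_option autoImplicit false

/-! The estimate at a fixed time. -/

namespace Pool.Agent.J6H76.TS

open MeasureTheory Complex Set Filter Topology
open scoped ENNReal ComplexConjugate Real
open Pool.Agent.R412.RT (E ee ee_norm ee_add ee_conj ee_meas ee_cont planch)

/-- the sharply windowed polynomial with its quadratic phase -/
noncomputable def uS (F : Finset ℤ) (b : ℤ → ℂ) (t y : ℝ) : ℂ :=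
  if -(1 / 4) < y ∧ y ≤ 1 / 4 then ee (y ^ 2 * t) * ∑ n ∈ F, b n * ee (2 * n * y) else 0

theorem uS_eq (F : Finset ℤ) (b : ℤ → ℂ) (t : ℝ) : uS F b t = win (W F b t) := by
  ext y
  unfold uS win W
  split_ifs
  · rw [← mul_assoc]
    congr 1
    unfold ee
    rw [Complex.ofReal_exp, ← Complex.exp_add]
    congr 1
    push_cast
    ring
  · rfl

theorem poly_bound (F : Finset ℤ) (b : ℤ → ℂ) (y : ℝ) :
    ‖∑ n ∈ F, b n * ee (2 * n * y)‖ ≤ ∑ n ∈ F, ‖b n‖ := by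
  refine (norm_sum_le _ _).trans (Finset.sum_le_sum fun n _ => ?_)
  rw [norm_mul, ee_norm, mul_one]

theorem poly_cont (F : Finset ℤ) (b : ℤ → ℂ) :
    Continuous fun y : ℝ => ∑ n ∈ F, b n * ee (2 * n * y) :=
  continuous_finsetSum _ fun n _ => continuous_const.mul (ee_cont.comp (by fun_prop))

theorem W_Bd (F : Finset ℤ) (b : ℤ → ℂ) (t : ℝ) : Bd (W F b t) := by
  refine ⟨?_, W_int F b t, ∑ n ∈ F, ‖b n‖, Finset.sum_nonneg fun _ _ => norm_nonneg _,
    fun y => ?_⟩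
  · unfold W
    refine Measurable.mul (by fun_prop) (poly_cont F b).measurable
  · unfold W
    rw [norm_mul, Complex.norm_exp]
    have : (-(π * (1 - 2 * t * I)) * (y : ℂ) ^ 2).re = -(π * y ^ 2) := by
      have e : (-(π * (1 - 2 * t * I)) * (y : ℂ) ^ 2) =
        ((-(y ^ 2) : ℝ) : ℂ) * (π * (1 - 2 * t * I)) := by push_cast; ring
      rw [e, re_b]
      ring
    rw [this]
    have hexp : Real.exp (-(π * y ^ 2)) ≤ 1 := by
      rw [Real.exp_le_one_iff]
      have := Real.pi_pos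
      have : 0 ≤ π * y ^ 2 := by positivity
      linarith
    exact (mul_le_of_le_one_left (norm_nonneg _) hexp).trans (poly_bound F b y)

/-- the mass of the coefficients -/
noncomputable def Sb (F : Finset ℤ) (b : ℤ → ℂ) : ℝ := ∑ n ∈ F, ‖b n‖ ^ 2

theorem Sb_nonneg (F : Finset ℤ) (b : ℤ → ℂ) : 0 ≤ Sb F b :=
  Finset.sum_nonneg fun _ _ => by positivity

theorem poly_int (F : Finset ℤ) (b : ℤ → ℂ) :
    ∫ y in (-(1 / 4) : ℝ)..(1 / 4), ‖∑ n ∈ F, b n * ee (2 * n * y)‖ ^ 2 = Sb F b / 2 := by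
  set P : ℝ → ℝ := fun x => ‖∑ n ∈ F, b n * ee (n * x)‖ ^ 2 with hP
  have h1 : ∀ y : ℝ, ‖∑ n ∈ F, b n * ee (2 * n * y)‖ ^ 2 = P (2 * y) := by
    intro y
    simp only [hP]
    congr 2
    refine Finset.sum_congr rfl fun n _ => ?_
    congr 2
    ring
  simp_rw [h1]
  rw [intervalIntegral.integral_comp_mul_left P two_ne_zero]
  have hper : Function.Periodic P 1 := by
    intro x
    simp only [hP]
    congr 2
    refine Finset.sum_congr rfl fun n _ => ?_
    rw [mul_add, mul_one, ee_add, ee_int, mul_one]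
  have h2 : ∫ x in (2 * -(1 / 4) : ℝ)..(2 * (1 / 4)), P x = ∫ x in (0 : ℝ)..1, P x := by
    have := hper.intervalIntegral_add_eq (2 * -(1 / 4) : ℝ) 0
    rw [zero_add] at this
    rw [← this]
    congr 1
    norm_num
  rw [h2]
  have h3 := parseval F b
  simp only [hP]
  rw [h3, smul_eq_mul]
  unfold Sb
  ring

theorem uS_l2 (F : Finset ℤ) (b : ℤ → ℂ) (t : ℝ) :
    ∫⁻ y, ‖uS F b t y‖ₑ ^ 2 = ENNReal.ofReal (Sb F b / 2) := by
  rw [← poly_int, intervalIntegral.integral_of_le (by norm_num),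
    ofReal_integral_eq_lintegral_ofReal, ← lintegral_indicator measurableSet_Ioc]
  · refine lintegral_congr fun y => ?_
    unfold uS
    by_cases hy : y ∈ Ioc (-(1 / 4) : ℝ) (1 / 4)
    · rw [indicator_of_mem hy, if_pos ⟨hy.1, hy.2⟩, enorm_mul, ee_enorm, one_mul,
        ENNReal.ofReal_pow (norm_nonneg _), ofReal_norm]
    · rw [indicator_of_notMem hy, if_neg (fun h => hy ⟨h.1, h.2⟩)]
      simp
  · exact ((poly_cont F b).norm.pow 2).integrableOn_Ioc
  · exact Eventually.of_forall fun y => by positivity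

theorem FT_l2 (F : Finset ℤ) (b : ℤ → ℂ) (t : ℝ) :
    ∫⁻ η, ‖FT (uS F b t) η‖ₑ ^ 2 ≤ ENNReal.ofReal (Sb F b) := by
  refine (planch1' _).trans ?_
  rw [uS_l2]
  exact ENNReal.ofReal_le_ofReal (by linarith [Sb_nonneg F b])

theorem uS_meas (F : Finset ℤ) (b : ℤ → ℂ) (t : ℝ) : Measurable (uS F b t) := by
  unfold uS
  refine Measurable.ite (show MeasurableSet (Ioc (-(1 / 4) : ℝ) (1 / 4)) from measurableSet_Ioc) ?_
    measurable_const
  exact (ee_meas.comp (by fun_prop)).mul (poly_cont F b).measurable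

theorem FT_sup (F : Finset ℤ) (b : ℤ → ℂ) (t η : ℝ) :
    ‖FT (uS F b t) η‖ₑ ^ 2 ≤ ENNReal.ofReal (Sb F b) := by
  set μ : Measure ℝ := volume.restrict (Ioc (-(1 / 4) : ℝ) (1 / 4)) with hμ
  have hμ1 : μ univ ≤ 1 := by
    rw [hμ, Measure.restrict_apply_univ, Real.volume_Ioc, ← ENNReal.ofReal_one]
    exact ENNReal.ofReal_le_ofReal (by norm_num)
  have h1 : ‖FT (uS F b t) η‖ₑ ≤ ∫⁻ y, ‖uS F b t y‖ₑ ∂μ := by
    have e1 : FT (uS F b t) η = ∫ y, ee (y * η) * uS F b t y ∂μ := by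
      unfold FT
      rw [hμ, ← integral_indicator measurableSet_Ioc]
      refine integral_congr_ae (Eventually.of_forall fun y => ?_)
      simp only
      by_cases hy : y ∈ Ioc (-(1 / 4) : ℝ) (1 / 4)
      · rw [indicator_of_mem hy]
      · rw [indicator_of_notMem hy]
        unfold uS
        rw [if_neg (fun h => hy ⟨h.1, h.2⟩), mul_zero]
    rw [e1]
    refine (enorm_integral_le_lintegral_enorm _).trans (le_of_eq ?_)
    refine lintegral_congr fun y => ?_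
    rw [enorm_mul, ee_enorm, one_mul]
  refine (pow_le_pow_left' h1 2).trans ?_
  refine (cs1 μ hμ1 _ (uS_meas F b t).enorm).trans ?_
  refine (setLIntegral_le_lintegral _ _).trans ?_
  rw [uS_l2]
  exact ENNReal.ofReal_le_ofReal (by linarith [Sb_nonneg F b])

theorem FT_l4 {L : Set ℤ} {κ' A : ℝ} (hL : LocL4 L κ' A) (hA : 0 ≤ A) (hκ : 0 ≤ κ')
    (F : Finset ℤ) (hF : ∀ n ∈ F, n ∈ L) (b : ℤ → ℂ) (t : ℝ) (ht : 1 ≤ |t|) :
    ∫⁻ η, ‖FT (uS F b t) η‖ₑ ^ 4 ≤ ENNReal.ofReal Cw * (Cg *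
      ENNReal.ofReal (K1 κ' A * |t| ^ (κ' - 1) * (Sb F b) ^ 2)) := by
  rw [uS_eq]
  refine (win4 (W_Bd F b t)).trans (mul_le_mul' le_rfl ?_)
  exact gauss4 hL hA hκ F hF b t ht

/-- the constant at a fixed time -/
noncomputable def Cf (κ' A r : ℝ) : ℝ≥0∞ :=
  1 + (ENNReal.ofReal Cw * (Cg * ENNReal.ofReal (K1 κ' A))) ^ (r - 1)

theorem Cf_ne_top (κ' A r : ℝ) (hr : 1 ≤ r) : Cf κ' A r ≠ ∞ := by
  unfold Cf
  refine ENNReal.add_ne_top.2 ⟨ENNReal.one_ne_top, ?_⟩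
  refine ENNReal.rpow_ne_top_of_nonneg (by linarith) ?_
  exact ENNReal.mul_ne_top ENNReal.ofReal_ne_top (ENNReal.mul_ne_top Cg_ne_top ENNReal.ofReal_ne_top)

/-- **the estimate at a fixed time** -/
theorem fixed {L : Set ℤ} {κ' A : ℝ} (hL : LocL4 L κ' A) (hA : 0 ≤ A) (hκ : 0 ≤ κ')
    (r : ℝ) (hr1 : 1 ≤ r) (hr2 : r ≤ 2)
    (F : Finset ℤ) (hF : ∀ n ∈ F, n ∈ L) (b : ℤ → ℂ) (t : ℝ) :
    ∫⁻ η, ‖FT (uS F b t) η‖ₑ ^ (2 * r) ≤
      Cf κ' A r * ENNReal.ofReal (max 1 |t| ^ (-((1 - κ') * (r - 1)))) *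
        ENNReal.ofReal (Sb F b ^ r) := by
  have hS := Sb_nonneg F b
  have hSr : ENNReal.ofReal (Sb F b ^ r) = ENNReal.ofReal (Sb F b) ^ r := by
    rw [ENNReal.ofReal_rpow_of_nonneg hS (by linarith)]
  have hm : Measurable (FT (uS F b t)) := FT_meas (uS_meas F b t)
  rcases le_total 1 |t| with ht | ht
  · have ht0 : 0 < |t| := by linarith
    have h1 : ∀ η, ‖FT (uS F b t) η‖ₑ ^ (2 * r) =
        (‖FT (uS F b t) η‖ₑ ^ 2) ^ (2 - r) * (‖FT (uS F b t) η‖ₑ ^ 4) ^ (r - 1) := by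
      intro η
      rw [← ENNReal.rpow_natCast, ← ENNReal.rpow_natCast, ← ENNReal.rpow_mul, ← ENNReal.rpow_mul,
        ← ENNReal.rpow_add_of_nonneg _ _ (by push_cast; nlinarith) (by push_cast; nlinarith)]
      congr 1
      push_cast
      ring
    simp_rw [h1]
    refine (ENNReal.lintegral_mul_norm_pow_le (hm.enorm.pow_const 2).aemeasurable
      (hm.enorm.pow_const 4).aemeasurable (by linarith) (by linarith) (by ring)).trans ?_
    refine (mul_le_mul' (ENNReal.rpow_le_rpow (FT_l2 F b t) (by linarith))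
      (ENNReal.rpow_le_rpow (FT_l4 hL hA hκ F hF b t ht) (by linarith))).trans ?_
    have e1 : ENNReal.ofReal Cw * (Cg * ENNReal.ofReal (K1 κ' A * |t| ^ (κ' - 1) * (Sb F b) ^ 2)) =
        (ENNReal.ofReal Cw * (Cg * ENNReal.ofReal (K1 κ' A))) *
          (ENNReal.ofReal (|t| ^ (κ' - 1)) * ENNReal.ofReal (Sb F b) ^ 2) := by
      have hK := K1_nonneg κ' A hA
      rw [mul_assoc (K1 κ' A), ENNReal.ofReal_mul hK, ENNReal.ofReal_mul (by positivity),
        ENNReal.ofReal_pow hS]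
      ring
    have e2 : ENNReal.ofReal (|t| ^ (κ' - 1)) ^ (r - 1) =
        ENNReal.ofReal (max 1 |t| ^ (-((1 - κ') * (r - 1)))) := by
      rw [ENNReal.ofReal_rpow_of_nonneg (by positivity) (by linarith), ← Real.rpow_mul ht0.le,
        max_eq_right ht]
      congr 2
      ring
    have e3 : ENNReal.ofReal (Sb F b) ^ (2 - r) * (ENNReal.ofReal (Sb F b) ^ 2) ^ (r - 1) =
        ENNReal.ofReal (Sb F b ^ r) := by
      rw [hSr, ← ENNReal.rpow_natCast, ← ENNReal.rpow_mul,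
        ← ENNReal.rpow_add_of_nonneg _ _ (by linarith) (by push_cast; nlinarith)]
      congr 1
      push_cast
      ring
    rw [e1]
    unfold Cf
    generalize ENNReal.ofReal Cw * (Cg * ENNReal.ofReal (K1 κ' A)) = K
    rw [ENNReal.mul_rpow_of_nonneg _ _ (by linarith : 0 ≤ r - 1),
      ENNReal.mul_rpow_of_nonneg _ _ (by linarith : 0 ≤ r - 1), e2]
    calc ENNReal.ofReal (Sb F b) ^ (2 - r) * (K ^ (r - 1) *
          (ENNReal.ofReal (max 1 |t| ^ (-((1 - κ') * (r - 1)))) *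
            (ENNReal.ofReal (Sb F b) ^ 2) ^ (r - 1)))
        = K ^ (r - 1) * ENNReal.ofReal (max 1 |t| ^ (-((1 - κ') * (r - 1)))) *
          (ENNReal.ofReal (Sb F b) ^ (2 - r) * (ENNReal.ofReal (Sb F b) ^ 2) ^ (r - 1)) := by ring
      _ ≤ _ := by
          rw [e3]
          refine mul_le_mul' (mul_le_mul' ?_ le_rfl) le_rfl
          exact le_add_self
  · rw [max_eq_left ht, Real.one_rpow, ENNReal.ofReal_one, mul_one]
    have h1 : ∀ η, ‖FT (uS F b t) η‖ₑ ^ (2 * r) =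
        (‖FT (uS F b t) η‖ₑ ^ 2) ^ (r - 1) * ‖FT (uS F b t) η‖ₑ ^ 2 := by
      intro η
      rw [← ENNReal.rpow_natCast, ← ENNReal.rpow_mul,
        ← ENNReal.rpow_add_of_nonneg _ _ (by push_cast; nlinarith) (by norm_num)]
      congr 1
      push_cast
      ring
    calc ∫⁻ η, ‖FT (uS F b t) η‖ₑ ^ (2 * r)
        ≤ ∫⁻ η, ENNReal.ofReal (Sb F b) ^ (r - 1) * ‖FT (uS F b t) η‖ₑ ^ 2 := by
          refine lintegral_mono fun η => ?_
          rw [h1]
          exact mul_le_mul' (ENNReal.rpow_le_rpow (FT_sup F b t η) (by linarith)) le_rfl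
      _ = ENNReal.ofReal (Sb F b) ^ (r - 1) * ∫⁻ η, ‖FT (uS F b t) η‖ₑ ^ 2 := by
          rw [lintegral_const_mul' _ _
            (ENNReal.rpow_ne_top_of_nonneg (by linarith) ENNReal.ofReal_ne_top)]
      _ ≤ ENNReal.ofReal (Sb F b) ^ (r - 1) * ENNReal.ofReal (Sb F b) :=
          mul_le_mul' le_rfl (FT_l2 F b t)
      _ = 1 * ENNReal.ofReal (Sb F b ^ r) := by
          rw [hSr, one_mul]
          nth_rewrite 2 [← ENNReal.rpow_one (ENNReal.ofReal (Sb F b))]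
          rw [← ENNReal.rpow_add_of_nonneg _ _ (by linarith) (by norm_num)]
          congr 1
          ring
      _ ≤ Cf κ' A r * ENNReal.ofReal (Sb F b ^ r) := by
          refine mul_le_mul' ?_ le_rfl
          unfold Cf
          exact le_self_add

end Pool.Agent.J6H76.TS
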