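import Mathlib
set_option autoImplicit false

/-! Real interpolation between the exponents `1` and `2` (for squares). -/

namespace Pool.Agent.J6H76.TS

open MeasureTheory Set Filter Topology
open scoped ENNReal

theorem lint_low (r a : ℝ) (hr : 1 < r) (ha : 0 ≤ a) :
    ∫⁻ l in Ioi (0 : ℝ), (if l < a then ENNReal.ofReal (l ^ (r - 2)) else 0) =
      ENNReal.ofReal (a ^ (r - 1) / (r - 1)) := by
  have h1 : ∫⁻ l in Ioi (0 : ℝ), (if l < a then ENNReal.ofReal (l ^ (r - 2)) else 0) =
      ∫⁻ l in Ioo 0 a, ENNReal.ofReal (l ^ (r - 2)) := by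
    rw [← lintegral_indicator measurableSet_Ioi, ← lintegral_indicator measurableSet_Ioo]
    refine lintegral_congr fun l => ?_
    by_cases hl : 0 < l
    · by_cases hla : l < a
      · rw [indicator_of_mem (show l ∈ Ioi (0 : ℝ) from hl), if_pos hla,
          indicator_of_mem (show l ∈ Ioo 0 a from ⟨hl, hla⟩)]
      · rw [indicator_of_mem (show l ∈ Ioi (0 : ℝ) from hl), if_neg hla,
          indicator_of_notMem (fun h : l ∈ Ioo 0 a => hla h.2)]
    · rw [indicator_of_notMem (fun h : l ∈ Ioi (0 : ℝ) => hl h),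
        indicator_of_notMem (fun h : l ∈ Ioo 0 a => hl h.1)]
  rw [h1, ← ofReal_integral_eq_lintegral_ofReal]
  · congr 1
    rw [← integral_Ioc_eq_integral_Ioo, ← intervalIntegral.integral_of_le ha,
      integral_rpow (Or.inl (by linarith))]
    rw [show r - 2 + 1 = r - 1 by ring, Real.zero_rpow (by linarith), sub_zero]
  · have h2 : IntervalIntegrable (fun l : ℝ => l ^ (r - 2)) volume 0 a :=
      intervalIntegral.intervalIntegrable_rpow' (by linarith)
    exact ((intervalIntegrable_iff_integrableOn_Ioo_of_le ha).1 h2)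
  · exact (ae_restrict_iff' measurableSet_Ioo).2 (Eventually.of_forall fun l hl =>
      Real.rpow_nonneg hl.1.le _)

theorem lint_high (r a : ℝ) (hr : r < 2) (ha : 0 < a) :
    ∫⁻ l in Ioi (0 : ℝ), (if l < a then 0 else ENNReal.ofReal (l ^ (r - 3))) =
      ENNReal.ofReal (a ^ (r - 2) / (2 - r)) := by
  have h1 : ∫⁻ l in Ioi (0 : ℝ), (if l < a then 0 else ENNReal.ofReal (l ^ (r - 3))) =
      ∫⁻ l in Ici a, ENNReal.ofReal (l ^ (r - 3)) := by
    rw [← lintegral_indicator measurableSet_Ioi, ← lintegral_indicator measurableSet_Ici]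
    refine lintegral_congr fun l => ?_
    by_cases hla : l < a
    · rw [indicator_of_notMem (fun h : l ∈ Ici a => absurd hla (not_lt.2 h))]
      by_cases hl : 0 < l
      · rw [indicator_of_mem (show l ∈ Ioi (0 : ℝ) from hl), if_pos hla]
      · rw [indicator_of_notMem (fun h : l ∈ Ioi (0 : ℝ) => hl h)]
    · rw [indicator_of_mem (show l ∈ Ici a from not_lt.1 hla),
        indicator_of_mem (show l ∈ Ioi (0 : ℝ) from ha.trans_le (not_lt.1 hla)), if_neg hla]
  rw [h1, setLIntegral_congr Ioi_ae_eq_Ici.symm, ← ofReal_integral_eq_lintegral_ofReal]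
  · congr 1
    rw [integral_Ioi_rpow_of_lt (by linarith) ha]
    rw [show r - 3 + 1 = r - 2 by ring, neg_div, ← div_neg, neg_sub]
  · exact integrableOn_Ioi_rpow_of_lt (by linarith) ha
  · exact (ae_restrict_iff' measurableSet_Ioi).2 (Eventually.of_forall fun l hl =>
      Real.rpow_nonneg (ha.trans hl).le _)

/-- the interpolation lemma -/
theorem marc {Y : Type*} [MeasurableSpace Y] (ν : Measure Y) (G : Y → ℝ) (hG0 : ∀ y, 0 ≤ G y)
    (hGm : Measurable G) (N : ℝ → ℝ) (hN0 : ∀ x, 0 ≤ N x) (hNm : Measurable N) (A B r : ℝ)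
    (hA : 0 < A) (hB : 0 < B) (hr1 : 1 < r) (hr2 : r < 2)
    (H : ∀ s : ℝ, 0 < s → ∃ G1 G2 : Y → ℝ, (∀ y, 0 ≤ G1 y) ∧ (∀ y, 0 ≤ G2 y) ∧ Measurable G1 ∧
      Measurable G2 ∧ (∀ y, G y ≤ 2 * (G1 y + G2 y)) ∧
      ∫⁻ y, ENNReal.ofReal (G1 y) ∂ν ≤
        ENNReal.ofReal A * ∫⁻ x, (if s < N x then ENNReal.ofReal (N x) else 0) ∧
      ∫⁻ y, ENNReal.ofReal (G2 y ^ 2) ∂ν ≤
        ENNReal.ofReal B * ∫⁻ x, (if s < N x then 0 else ENNReal.ofReal (N x ^ 2))) :
    ∫⁻ y, ENNReal.ofReal (G y ^ r) ∂ν ≤
      ENNReal.ofReal (20 * (1 / (r - 1) + 1 / (2 - r)) * r * (A ^ (2 - r) * B ^ (r - 1))) *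
        ∫⁻ x, ENNReal.ofReal (N x ^ r) := by
  have hr0 : 0 < r := by linarith
  obtain ⟨ρ, hρdef⟩ : ∃ ρ : ℝ, ρ = B / A := ⟨_, rfl⟩
  have hρ : 0 < ρ := by rw [hρdef]; positivity
  -- bound for the distribution function
  have hdist : ∀ l : ℝ, 0 < l → ν {y | l < G y} * ENNReal.ofReal (l ^ (r - 1)) ≤
      ∫⁻ x, (ENNReal.ofReal (4 * A * N x) * (if l < ρ * N x then ENNReal.ofReal (l ^ (r - 2)) else 0) +
        ENNReal.ofReal (16 * B * N x ^ 2) *
          (if l < ρ * N x then 0 else ENNReal.ofReal (l ^ (r - 3)))) := by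
    intro l hl
    obtain ⟨G1, G2, h10, h20, h1m, h2m, hle, e1, e2⟩ := H (l / ρ) (by positivity)
    have hcond : ∀ x, l / ρ < N x ↔ l < ρ * N x := fun x => by
      rw [div_lt_iff₀ hρ, mul_comm]
    simp_rw [hcond] at e1 e2
    have hsub : {y | l < G y} ⊆ {y | ENNReal.ofReal (l / 4) ≤ ENNReal.ofReal (G1 y)} ∪
        {y | ENNReal.ofReal ((l / 4) ^ 2) ≤ ENNReal.ofReal (G2 y ^ 2)} := by
      intro y hy
      have hy' : l < G y := hy
      have := hle y
      by_cases h : l / 4 ≤ G1 y
      · exact Or.inl (ENNReal.ofReal_le_ofReal h)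
      · refine Or.inr (ENNReal.ofReal_le_ofReal (pow_le_pow_left₀ (by positivity) ?_ 2))
        push Not at h
        linarith
    have m1 := mul_meas_ge_le_lintegral₀ (μ := ν) (f := fun y => ENNReal.ofReal (G1 y))
      h1m.ennreal_ofReal.aemeasurable (ENNReal.ofReal (l / 4))
    have m2 := mul_meas_ge_le_lintegral₀ (μ := ν) (f := fun y => ENNReal.ofReal (G2 y ^ 2))
      (h2m.pow_const 2).ennreal_ofReal.aemeasurable (ENNReal.ofReal ((l / 4) ^ 2))
    have hν : ν {y | l < G y} ≤ ν {y | ENNReal.ofReal (l / 4) ≤ ENNReal.ofReal (G1 y)} +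
        ν {y | ENNReal.ofReal ((l / 4) ^ 2) ≤ ENNReal.ofReal (G2 y ^ 2)} :=
      (measure_mono hsub).trans (measure_union_le _ _)
    have c1 : ENNReal.ofReal (l ^ (r - 1)) =
        ENNReal.ofReal (4 * l ^ (r - 2)) * ENNReal.ofReal (l / 4) := by
      rw [← ENNReal.ofReal_mul (by positivity)]
      congr 1
      rw [show r - 1 = (r - 2) + 1 by ring, Real.rpow_add_one hl.ne']
      ring
    have c2 : ENNReal.ofReal (l ^ (r - 1)) =
        ENNReal.ofReal (16 * l ^ (r - 3)) * ENNReal.ofReal ((l / 4) ^ 2) := by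
      rw [← ENNReal.ofReal_mul (by positivity)]
      congr 1
      rw [show r - 1 = (r - 3) + 1 + 1 by ring, Real.rpow_add_one hl.ne',
        Real.rpow_add_one hl.ne']
      ring
    have i1 : Measurable fun x => ENNReal.ofReal (4 * A * N x) *
        (if l < ρ * N x then ENNReal.ofReal (l ^ (r - 2)) else 0) := by
      refine Measurable.mul (by fun_prop) ?_
      exact Measurable.ite (measurableSet_lt measurable_const (by fun_prop)) measurable_const
        measurable_const
    rw [lintegral_add_left i1]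
    calc ν {y | l < G y} * ENNReal.ofReal (l ^ (r - 1))
        ≤ (ν {y | ENNReal.ofReal (l / 4) ≤ ENNReal.ofReal (G1 y)} +
          ν {y | ENNReal.ofReal ((l / 4) ^ 2) ≤ ENNReal.ofReal (G2 y ^ 2)}) *
            ENNReal.ofReal (l ^ (r - 1)) := mul_le_mul' hν le_rfl
      _ = ENNReal.ofReal (4 * l ^ (r - 2)) * (ENNReal.ofReal (l / 4) *
            ν {y | ENNReal.ofReal (l / 4) ≤ ENNReal.ofReal (G1 y)}) +
          ENNReal.ofReal (16 * l ^ (r - 3)) * (ENNReal.ofReal ((l / 4) ^ 2) *
            ν {y | ENNReal.ofReal ((l / 4) ^ 2) ≤ ENNReal.ofReal (G2 y ^ 2)}) := by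
          rw [add_mul]
          nth_rewrite 1 [c1]
          rw [c2]
          ring
      _ ≤ ENNReal.ofReal (4 * l ^ (r - 2)) * (ENNReal.ofReal A *
            ∫⁻ x, (if l < ρ * N x then ENNReal.ofReal (N x) else 0)) +
          ENNReal.ofReal (16 * l ^ (r - 3)) * (ENNReal.ofReal B *
            ∫⁻ x, (if l < ρ * N x then 0 else ENNReal.ofReal (N x ^ 2))) :=
          add_le_add (mul_le_mul' le_rfl (m1.trans e1)) (mul_le_mul' le_rfl (m2.trans e2))
      _ = _ := by
          rw [← mul_assoc, ← mul_assoc, ← lintegral_const_mul' _ _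
            (ENNReal.mul_ne_top ENNReal.ofReal_ne_top ENNReal.ofReal_ne_top),
            ← lintegral_const_mul' _ _
            (ENNReal.mul_ne_top ENNReal.ofReal_ne_top ENNReal.ofReal_ne_top)]
          congr 1
          · refine lintegral_congr fun x => ?_
            split_ifs
            · rw [← ENNReal.ofReal_mul (by positivity), ← ENNReal.ofReal_mul (by positivity),
                ← ENNReal.ofReal_mul (by have := hN0 x; positivity)]
              congr 1
              ring
            · simp
          · refine lintegral_congr fun x => ?_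
            split_ifs
            · simp
            · rw [← ENNReal.ofReal_mul (by positivity), ← ENNReal.ofReal_mul (by positivity),
                ← ENNReal.ofReal_mul (by have := hN0 x; positivity)]
              congr 1
              ring
  have hcake := lintegral_rpow_eq_lintegral_meas_lt_mul (μ := ν) (Eventually.of_forall hG0)
    hGm.aemeasurable hr0
  rw [hcake]
  have hmeas : Measurable (Function.uncurry fun (l : ℝ) (x : ℝ) =>
      (ENNReal.ofReal (4 * A * N x) * (if l < ρ * N x then ENNReal.ofReal (l ^ (r - 2)) else 0) +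
        ENNReal.ofReal (16 * B * N x ^ 2) *
          (if l < ρ * N x then 0 else ENNReal.ofReal (l ^ (r - 3))))) := by
    have n1 : Measurable fun q : ℝ × ℝ => N q.2 := hNm.comp measurable_snd
    have hs : MeasurableSet {q : ℝ × ℝ | q.1 < ρ * N q.2} :=
      measurableSet_lt measurable_fst (n1.const_mul ρ)
    refine Measurable.add (Measurable.mul (by fun_prop) ?_) (Measurable.mul (by fun_prop) ?_)
    · exact Measurable.ite hs (by fun_prop) measurable_const
    · exact Measurable.ite hs measurable_const (by fun_prop)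
  calc ENNReal.ofReal r * ∫⁻ l in Ioi 0, ν {y | l < G y} * ENNReal.ofReal (l ^ (r - 1))
      ≤ ENNReal.ofReal r * ∫⁻ l in Ioi (0 : ℝ), ∫⁻ x,
        (ENNReal.ofReal (4 * A * N x) * (if l < ρ * N x then ENNReal.ofReal (l ^ (r - 2)) else 0) +
        ENNReal.ofReal (16 * B * N x ^ 2) *
          (if l < ρ * N x then 0 else ENNReal.ofReal (l ^ (r - 3)))) := by
        refine mul_le_mul' le_rfl ?_
        refine setLIntegral_mono' measurableSet_Ioi fun l hl => hdist l hl
    _ = ENNReal.ofReal r * ∫⁻ x, ∫⁻ l in Ioi (0 : ℝ),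
        (ENNReal.ofReal (4 * A * N x) * (if l < ρ * N x then ENNReal.ofReal (l ^ (r - 2)) else 0) +
        ENNReal.ofReal (16 * B * N x ^ 2) *
          (if l < ρ * N x then 0 else ENNReal.ofReal (l ^ (r - 3)))) := by
        rw [lintegral_lintegral_swap hmeas.aemeasurable]
    _ ≤ ENNReal.ofReal r * ∫⁻ x, ENNReal.ofReal (20 * (1 / (r - 1) + 1 / (2 - r)) *
          (A ^ (2 - r) * B ^ (r - 1))) * ENNReal.ofReal (N x ^ r) := by
        refine mul_le_mul' le_rfl (lintegral_mono fun x => ?_)
        simp only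
        have hx := hN0 x
        rw [lintegral_add_left]
        swap
        · refine Measurable.mul measurable_const ?_
          exact Measurable.ite (measurableSet_lt measurable_id measurable_const) (by fun_prop)
            measurable_const
        rw [lintegral_const_mul' _ _ ENNReal.ofReal_ne_top,
          lintegral_const_mul' _ _ ENNReal.ofReal_ne_top, lint_low r _ hr1 (by positivity)]
        rcases hx.eq_or_lt with h0 | h0
        · rw [← h0]
          simp
        · rw [lint_high r _ hr2 (by positivity), ← ENNReal.ofReal_mul (by positivity),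
            ← ENNReal.ofReal_mul (by positivity), ← ENNReal.ofReal_mul]
          swap
          · have := sub_pos.2 hr1
            have := sub_pos.2 hr2
            positivity
          have p1 : 0 < r - 1 := by linarith
          have p2 : 0 < 2 - r := by linarith
          rw [← ENNReal.ofReal_add (by positivity) (by positivity)]
          refine ENNReal.ofReal_le_ofReal ?_
          have q1 : A * (ρ * N x) ^ (r - 1) * N x = A ^ (2 - r) * B ^ (r - 1) * N x ^ r := by
            rw [Real.mul_rpow hρ.le hx, hρdef, Real.div_rpow hB.le hA.le,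
              show A ^ (2 - r) = A / A ^ (r - 1) by
                rw [show 2 - r = 1 - (r - 1) by ring, Real.rpow_sub hA, Real.rpow_one],
              show N x ^ r = N x ^ (r - 1) * N x by
                rw [← Real.rpow_add_one h0.ne', sub_add_cancel]]
            ring
          have q2 : B * (ρ * N x) ^ (r - 2) * N x ^ 2 = A ^ (2 - r) * B ^ (r - 1) * N x ^ r := by
            rw [Real.mul_rpow hρ.le hx, hρdef, Real.div_rpow hB.le hA.le,
              show A ^ (2 - r) = (A ^ (r - 2))⁻¹ by rw [← Real.rpow_neg hA.le]; congr 1; ring,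
              show B ^ (r - 1) = B ^ (r - 2) * B by
                rw [← Real.rpow_add_one hB.ne']; congr 1; ring,
              show N x ^ r = N x ^ (r - 2) * N x ^ 2 by
                rw [← Real.rpow_natCast, ← Real.rpow_add h0]; congr 1; push_cast; ring]
            ring
          have hP : 0 ≤ A ^ (2 - r) * B ^ (r - 1) * N x ^ r := by positivity
          calc 4 * A * N x * ((ρ * N x) ^ (r - 1) / (r - 1)) +
                16 * B * N x ^ 2 * ((ρ * N x) ^ (r - 2) / (2 - r))
              = 4 / (r - 1) * (A * (ρ * N x) ^ (r - 1) * N x) +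
                16 / (2 - r) * (B * (ρ * N x) ^ (r - 2) * N x ^ 2) := by ring
            _ = (4 / (r - 1) + 16 / (2 - r)) * (A ^ (2 - r) * B ^ (r - 1) * N x ^ r) := by
                rw [q1, q2]; ring
            _ ≤ (20 / (r - 1) + 20 / (2 - r)) * (A ^ (2 - r) * B ^ (r - 1) * N x ^ r) := by
                refine mul_le_mul_of_nonneg_right ?_ hP
                gcongr <;> norm_num
            _ = _ := by ring
    _ = _ := by
        rw [lintegral_const_mul' _ _ ENNReal.ofReal_ne_top, ← mul_assoc,
          ← ENNReal.ofReal_mul hr0.le]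
        congr 2
        ring

end Pool.Agent.J6H76.TS
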