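import Mathlib
import Pool.Agent.J6H76.TS.B
import Pool.Agent.J6H76.TS.M
set_option autoImplicit false

/-! The local estimates for the parabola with values in `ℓ²`. -/

namespace Pool.Agent.J6H76.TS

open MeasureTheory Complex Set Filter Topology
open scoped ENNReal ComplexConjugate
open Pool.Agent.R412.RT (E ee ee_norm ee_add ee_conj ee_meas ee_cont planch)

/-- the kernel has logarithmic mass -/
theorem kk_int (δ : ℝ) (hδ : 0 < δ) (hδ1 : δ ≤ 1) :
    ∫⁻ d in Icc (-1 : ℝ) 1, kk δ d ≤ ENNReal.ofReal (12 * (1 + Real.log (1 / δ))) := by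
  have hlog : 0 ≤ Real.log (1 / δ) := Real.log_nonneg (by rw [le_div_iff₀ hδ]; linarith)
  set P : ℝ → ℝ≥0∞ := (Ioc δ 1).indicator (fun d => ENNReal.ofReal (1 / (2 * d))) with hP
  have hPm : Measurable P := by
    refine Measurable.indicator ?_ measurableSet_Ioc
    fun_prop
  have hPint : ∫⁻ d, P d = ENNReal.ofReal (Real.log (1 / δ) / 2) := by
    rw [hP, lintegral_indicator measurableSet_Ioc, ← ofReal_integral_eq_lintegral_ofReal]
    · congr 1
      rw [← intervalIntegral.integral_of_le hδ1]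
      have : ∀ d : ℝ, 1 / (2 * d) = (1 / 2) * d⁻¹ := fun d => by
        rw [one_div, mul_inv]; ring
      simp_rw [this]
      rw [intervalIntegral.integral_const_mul, integral_inv_of_pos hδ one_pos]
      ring
    · have h2 : IntervalIntegrable (fun d : ℝ => 1 / (2 * d)) volume δ 1 := by
        refine ContinuousOn.intervalIntegrable fun x hx => ?_
        rw [uIcc_of_le hδ1] at hx
        have hx0 : 0 < x := hδ.trans_le hx.1
        refine ContinuousAt.continuousWithinAt ?_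
        refine ContinuousAt.div continuousAt_const (by fun_prop) (by positivity)
      exact (intervalIntegrable_iff_integrableOn_Ioc_of_le hδ1).1 h2
    · refine (ae_restrict_iff' measurableSet_Ioc).2 (Eventually.of_forall fun l hl => ?_)
      have : 0 < l := hδ.trans hl.1
      show (0 : ℝ) ≤ 1 / (2 * l)
      positivity
  have hle : ∀ d ∈ Icc (-1 : ℝ) 1, kk δ d ≤
      3 * ((Icc (-δ) δ).indicator (fun _ => 2) d + (P d + P (-d))) := by
    intro d hd
    unfold kk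
    gcongr
    by_cases h1 : d ∈ Icc (-δ) δ
    · have h4 : d ∉ (Icc (-δ) δ)ᶜ := fun h => h h1
      rw [indicator_of_notMem h4]
      exact zero_le
    · have h4 : d ∈ (Icc (-δ) δ)ᶜ := h1
      rw [indicator_of_mem h4]
      rcases lt_or_ge δ d with h5 | h5
      · have h2 : d ∈ Ioc δ 1 := ⟨h5, hd.2⟩
        rw [hP, indicator_of_mem h2]
        refine le_trans (le_of_eq ?_) le_self_add
        rw [abs_of_pos (hδ.trans h5), ← ENNReal.ofReal_inv_of_pos (by linarith), one_div]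
      · have h3 : d < -δ := by
          by_contra h6
          exact h1 ⟨not_lt.1 h6, h5⟩
        have h2 : -d ∈ Ioc δ 1 := ⟨by linarith, by linarith [hd.1]⟩
        rw [hP, indicator_of_mem h2]
        refine le_trans (le_of_eq ?_) le_add_self
        rw [abs_of_neg (by linarith), ← ENNReal.ofReal_inv_of_pos (by linarith), one_div]
  have hneg : ∫⁻ d, P (-d) = ∫⁻ d, P d := lintegral_neg_eq_self P
  have i1 : Measurable ((Icc (-δ) δ).indicator (fun _ : ℝ => (2 : ℝ≥0∞))) :=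
    measurable_const.indicator measurableSet_Icc
  calc ∫⁻ d in Icc (-1 : ℝ) 1, kk δ d
      ≤ ∫⁻ d in Icc (-1 : ℝ) 1, 3 * ((Icc (-δ) δ).indicator (fun _ => 2) d + (P d + P (-d))) :=
        setLIntegral_mono' measurableSet_Icc hle
    _ ≤ ∫⁻ d, 3 * ((Icc (-δ) δ).indicator (fun _ => 2) d + (P d + P (-d))) :=
        setLIntegral_le_lintegral _ _
    _ = 3 * (ENNReal.ofReal (4 * δ) + ENNReal.ofReal (Real.log (1 / δ))) := by
        rw [lintegral_const_mul' _ _ (by norm_num), lintegral_add_left i1,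
          lintegral_add_left hPm, hneg, hPint, lintegral_indicator measurableSet_Icc,
          lintegral_const, Measure.restrict_apply_univ, Real.volume_Icc,
          ← ENNReal.ofReal_add (by positivity) (by positivity)]
        congr 2
        · rw [show (2 : ℝ≥0∞) = ENNReal.ofReal 2 by simp, ← ENNReal.ofReal_mul (by norm_num)]
          congr 1
          ring
        · congr 1
          ring
    _ ≤ ENNReal.ofReal (12 * (1 + Real.log (1 / δ))) := by
        rw [← ENNReal.ofReal_add (by positivity) hlog, show (3 : ℝ≥0∞) = ENNReal.ofReal 3 by simp,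
          ← ENNReal.ofReal_mul (by norm_num)]
        refine ENNReal.ofReal_le_ofReal ?_
        nlinarith

variable (F : Finset ℤ)

/-- square function of the data -/
noncomputable def NN (c : ℤ → ℝ → ℂ) (x : ℝ) : ℝ := ∑ n ∈ F, ‖c n x‖ ^ 2

/-- square function of the extensions -/
noncomputable def SS (c : ℤ → ℝ → ℂ) (y : ℝ × ℝ) : ℝ := ∑ n ∈ F, ‖E1 (c n) y.1 y.2‖ ^ 2

/-- admissible data -/
structure Adm (c : ℤ → ℝ → ℂ) : Prop where
  meas : ∀ n, Measurable (c n)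
  int : ∀ n, Integrable (c n)
  supp : ∀ n x, 1 / 2 < |x| → c n x = 0

theorem NN_nonneg (c : ℤ → ℝ → ℂ) (x : ℝ) : 0 ≤ NN F c x :=
  Finset.sum_nonneg fun _ _ => by positivity

theorem SS_nonneg (c : ℤ → ℝ → ℂ) (y : ℝ × ℝ) : 0 ≤ SS F c y :=
  Finset.sum_nonneg fun _ _ => by positivity

theorem NN_meas {c : ℤ → ℝ → ℂ} (hc : Adm c) : Measurable (NN F c) := by
  unfold NN
  exact Finset.measurable_sum _ fun n _ => (hc.meas n).norm.pow_const 2

theorem SS_meas {c : ℤ → ℝ → ℂ} (hc : Adm c) : Measurable (SS F c) := by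
  unfold SS
  exact Finset.measurable_sum _ fun n _ => (E1_meas (c n) (hc.meas n)).norm.pow_const 2

theorem NN_ofReal (c : ℤ → ℝ → ℂ) (x : ℝ) :
    ENNReal.ofReal (NN F c x) = ∑ n ∈ F, ‖c n x‖ₑ ^ 2 := by
  unfold NN
  rw [ENNReal.ofReal_sum_of_nonneg fun _ _ => by positivity]
  refine Finset.sum_congr rfl fun n _ => ?_
  rw [ENNReal.ofReal_pow (norm_nonneg _), ofReal_norm]

theorem SS_ofReal (c : ℤ → ℝ → ℂ) (y : ℝ × ℝ) :
    ENNReal.ofReal (SS F c y) = ∑ n ∈ F, ‖E1 (c n) y.1 y.2‖ₑ ^ 2 := by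
  unfold SS
  rw [ENNReal.ofReal_sum_of_nonneg fun _ _ => by positivity]
  refine Finset.sum_congr rfl fun n _ => ?_
  rw [ENNReal.ofReal_pow (norm_nonneg _), ofReal_norm]

/-- the slab of times `|t| ≤ T` -/
noncomputable abbrev slab (T : ℝ) : Measure (ℝ × ℝ) :=
  (volume : Measure ℝ).prod (volume.restrict (Icc (-T) T))

theorem slab_int (T : ℝ) (f : ℝ × ℝ → ℝ≥0∞) (hf : Measurable f) :
    ∫⁻ y, f y ∂(slab T) = ∫⁻ t in Icc (-T) T, ∫⁻ ξ, f (ξ, t) :=
  lintegral_prod_symm _ hf.aemeasurable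

/-- the `L²` endpoint -/
theorem vec_l2 {c : ℤ → ℝ → ℂ} (hc : Adm c) (T : ℝ) (hT : 0 ≤ T) :
    ∫⁻ y, ENNReal.ofReal (SS F c y) ∂(slab T) ≤
      ENNReal.ofReal (2 * T) * ∫⁻ x, ENNReal.ofReal (NN F c x) := by
  rw [slab_int T _ (SS_meas F hc).ennreal_ofReal]
  have h1 : ∀ t : ℝ, ∫⁻ ξ, ENNReal.ofReal (SS F c (ξ, t)) ≤ ∫⁻ x, ENNReal.ofReal (NN F c x) := by
    intro t
    simp_rw [SS_ofReal, NN_ofReal]
    rw [lintegral_finsetSum _ fun n _ => ?_, lintegral_finsetSum _ fun n _ => ?_]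
    · exact Finset.sum_le_sum fun n _ => E1_l2 (c n) t
    · exact (hc.meas n).enorm.pow_const 2
    · exact ((E1_meas (c n) (hc.meas n)).comp
        (measurable_id.prodMk measurable_const)).enorm.pow_const 2
  refine (lintegral_mono h1).trans (le_of_eq ?_)
  rw [lintegral_const, Measure.restrict_apply_univ, Real.volume_Icc, mul_comm]
  congr 2
  ring

/-- the squares as extended reals -/
noncomputable def Ne (c : ℤ → ℝ → ℂ) (x : ℝ) : ℝ≥0∞ := ENNReal.ofReal (NN F c x)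

theorem Ne_meas {c : ℤ → ℝ → ℂ} (hc : Adm c) : Measurable (Ne F c) :=
  (NN_meas F hc).ennreal_ofReal

theorem E1_measξ (c : ℝ → ℂ) (hc : Measurable c) (t : ℝ) : Measurable fun ξ : ℝ => E1 c ξ t := by
  unfold E1
  have : StronglyMeasurable (Function.uncurry fun (ξ : ℝ) (x : ℝ) =>
      ee (x * ξ + x ^ 2 * t) * c x) := by
    refine Measurable.stronglyMeasurable ?_
    exact (ee_meas.comp (by fun_prop)).mul (hc.comp measurable_snd)
  exact this.integral_prod_right.measurable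

theorem pair_meas {g h : ℝ → ℂ} (hg : Measurable g) (hh : Measurable h) :
    Measurable fun y : ℝ × ℝ => ‖E1 g y.1 y.2‖ₑ ^ 2 * ‖E1 h y.1 y.2‖ₑ ^ 2 :=
  ((E1_meas g hg).enorm.pow_const 2).mul ((E1_meas h hh).enorm.pow_const 2)

theorem pair_measξ {g h : ℝ → ℂ} (hg : Measurable g) (hh : Measurable h) (t : ℝ) :
    Measurable fun ξ : ℝ => ‖E1 g ξ t‖ₑ ^ 2 * ‖E1 h ξ t‖ₑ ^ 2 :=
  ((E1_measξ g hg t).enorm.pow_const 2).mul ((E1_measξ h hh t).enorm.pow_const 2)

theorem pair_meast {g h : ℝ → ℂ} (hg : Measurable g) (hh : Measurable h) :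
    Measurable fun t : ℝ => ∫⁻ ξ, ‖E1 g ξ t‖ₑ ^ 2 * ‖E1 h ξ t‖ₑ ^ 2 :=
  Measurable.lintegral_prod_left' (pair_meas hg hh)

theorem l4_e2 {c : ℤ → ℝ → ℂ} (hc : Adm c) (T : ℝ) :
    ∫⁻ t in Icc (-T) T, ∫⁻ ξ, ENNReal.ofReal (SS F c (ξ, t) ^ 2) =
      ∑ n ∈ F, ∑ m ∈ F, ∫⁻ t in Icc (-T) T, ∫⁻ ξ,
        ‖E1 (c n) ξ t‖ₑ ^ 2 * ‖E1 (c m) ξ t‖ₑ ^ 2 := by
  have e1 : ∀ y : ℝ × ℝ, ENNReal.ofReal (SS F c y ^ 2) =
      ∑ n ∈ F, ∑ m ∈ F, ‖E1 (c n) y.1 y.2‖ₑ ^ 2 * ‖E1 (c m) y.1 y.2‖ₑ ^ 2 := by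
    intro y
    rw [ENNReal.ofReal_pow (SS_nonneg F c y), SS_ofReal, sq, Finset.sum_mul_sum]
  have a2 : ∀ t : ℝ, ∫⁻ ξ, ENNReal.ofReal (SS F c (ξ, t) ^ 2) =
      ∑ n ∈ F, ∑ m ∈ F, ∫⁻ ξ, ‖E1 (c n) ξ t‖ₑ ^ 2 * ‖E1 (c m) ξ t‖ₑ ^ 2 := by
    intro t
    simp_rw [e1]
    rw [lintegral_finsetSum _ fun n _ =>
      Finset.measurable_sum _ fun m _ => pair_measξ (hc.meas n) (hc.meas m) t]
    refine Finset.sum_congr rfl fun n _ => ?_
    rw [lintegral_finsetSum _ fun m _ => pair_measξ (hc.meas n) (hc.meas m) t]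
  simp_rw [a2]
  rw [lintegral_finsetSum _ fun n _ =>
    Finset.measurable_sum _ fun m _ => pair_meast (hc.meas n) (hc.meas m)]
  refine Finset.sum_congr rfl fun n _ => ?_
  rw [lintegral_finsetSum _ fun m _ => pair_meast (hc.meas n) (hc.meas m)]

theorem cc_meas {g h : ℝ → ℂ} (hg : Measurable g) (hh : Measurable h) :
    Measurable fun q : ℝ × ℝ => ‖g (q.2 + q.1)‖ₑ ^ 2 * ‖h q.2‖ₑ ^ 2 :=
  ((hg.comp (by fun_prop)).enorm.pow_const 2).mul ((hh.comp measurable_snd).enorm.pow_const 2)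

theorem cc_measv {g h : ℝ → ℂ} (hg : Measurable g) (hh : Measurable h) (d : ℝ) :
    Measurable fun v : ℝ => ‖g (v + d)‖ₑ ^ 2 * ‖h v‖ₑ ^ 2 :=
  ((hg.comp (by fun_prop)).enorm.pow_const 2).mul (hh.enorm.pow_const 2)

theorem cc_measd {g h : ℝ → ℂ} (hg : Measurable g) (hh : Measurable h) (δ : ℝ) :
    Measurable fun d : ℝ => kk δ d * ∫⁻ v, ‖g (v + d)‖ₑ ^ 2 * ‖h v‖ₑ ^ 2 :=
  (kk_meas δ).mul (cc_meas hg hh).lintegral_prod_right'

theorem l4_e4 {c : ℤ → ℝ → ℂ} (hc : Adm c) (δ : ℝ) :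
    ∑ n ∈ F, ∑ m ∈ F, ∫⁻ d, kk δ d * ∫⁻ v, ‖c n (v + d)‖ₑ ^ 2 * ‖c m v‖ₑ ^ 2 =
      ∫⁻ d, kk δ d * ∫⁻ v, Ne F c (v + d) * Ne F c v := by
  have a2 : ∀ d : ℝ, kk δ d * ∫⁻ v, Ne F c (v + d) * Ne F c v =
      ∑ n ∈ F, ∑ m ∈ F, kk δ d * ∫⁻ v, ‖c n (v + d)‖ₑ ^ 2 * ‖c m v‖ₑ ^ 2 := by
    intro d
    simp_rw [← Finset.mul_sum]
    congr 1
    unfold Ne
    simp_rw [NN_ofReal, Finset.sum_mul_sum]
    rw [lintegral_finsetSum _ fun n _ =>
      Finset.measurable_sum _ fun m _ => cc_measv (hc.meas n) (hc.meas m) d]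
    refine Finset.sum_congr rfl fun n _ => ?_
    rw [lintegral_finsetSum _ fun m _ => cc_measv (hc.meas n) (hc.meas m) d]
  simp_rw [a2]
  rw [lintegral_finsetSum _ fun n _ =>
    Finset.measurable_sum _ fun m _ => cc_measd (hc.meas n) (hc.meas m) δ]
  refine Finset.sum_congr rfl fun n _ => ?_
  rw [lintegral_finsetSum _ fun m _ => cc_measd (hc.meas n) (hc.meas m) δ]

theorem Ne_supp {c : ℤ → ℝ → ℂ} (hc : Adm c) (x : ℝ) (hx : 1 / 2 < |x|) : Ne F c x = 0 := by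
  unfold Ne
  rw [NN_ofReal]
  refine Finset.sum_eq_zero fun n _ => ?_
  rw [hc.supp n x hx]
  simp

theorem l4_e5 {c : ℤ → ℝ → ℂ} (hc : Adm c) (d : ℝ) :
    ∫⁻ v, Ne F c (v + d) * Ne F c v ≤ ∫⁻ v, Ne F c v ^ 2 := by
  have hm : Measurable fun v => Ne F c (v + d) := (Ne_meas F hc).comp (by fun_prop)
  have h2 := ENNReal.lintegral_mul_le_Lp_mul_Lq (volume : Measure ℝ)
    Real.HolderConjugate.two_two (f := fun v => Ne F c (v + d)) (g := Ne F c)
    hm.aemeasurable (Ne_meas F hc).aemeasurable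
  have h3 : ∫⁻ v, Ne F c (v + d) ^ (2 : ℝ) = ∫⁻ v, Ne F c v ^ (2 : ℝ) :=
    lintegral_add_right_eq_self (fun v => Ne F c v ^ (2 : ℝ)) d
  rw [h3] at h2
  refine h2.trans (le_of_eq ?_)
  rw [← ENNReal.rpow_add_of_nonneg _ _ (by norm_num) (by norm_num)]
  norm_num

theorem l4_e6 {c : ℤ → ℝ → ℂ} (hc : Adm c) (d : ℝ) (hd : d ∉ Icc (-1 : ℝ) 1) :
    ∫⁻ v, Ne F c (v + d) * Ne F c v = 0 := by
  have : ∀ v, Ne F c (v + d) * Ne F c v = 0 := by
    intro v
    by_cases h1 : 1 / 2 < |v|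
    · rw [Ne_supp F hc v h1, mul_zero]
    · by_cases h2 : 1 / 2 < |v + d|
      · rw [Ne_supp F hc _ h2, zero_mul]
      · exfalso
        push Not at h1 h2
        refine hd ⟨?_, ?_⟩
        · linarith [(abs_le.1 h1).2, (abs_le.1 h2).1]
        · linarith [(abs_le.1 h1).1, (abs_le.1 h2).2]
  simp_rw [this]
  simp

theorem l4_e7 {c : ℤ → ℝ → ℂ} (hc : Adm c) (δ : ℝ) :
    ∫⁻ d, kk δ d * ∫⁻ v, Ne F c (v + d) * Ne F c v ≤
      (∫⁻ d in Icc (-1 : ℝ) 1, kk δ d) * ∫⁻ v, Ne F c v ^ 2 := by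
  rw [← lintegral_mul_const _ (kk_meas δ), ← lintegral_indicator measurableSet_Icc]
  refine lintegral_mono fun d => ?_
  by_cases hd : d ∈ Icc (-1 : ℝ) 1
  · rw [indicator_of_mem hd]
    exact mul_le_mul' le_rfl (l4_e5 F hc d)
  · rw [indicator_of_notMem hd]
    simp only
    rw [l4_e6 F hc d hd, mul_zero]

/-- the `L⁴` endpoint -/
theorem vec_l4 {c : ℤ → ℝ → ℂ} (hc : Adm c) (T : ℝ) (hT : 1 ≤ T) :
    ∫⁻ y, ENNReal.ofReal (SS F c y ^ 2) ∂(slab T) ≤
      ENNReal.ofReal (12 * (1 + Real.log T)) * ∫⁻ x, ENNReal.ofReal (NN F c x ^ 2) := by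
  have hT0 : 0 < T := by linarith
  obtain ⟨δ, hδ⟩ : ∃ δ : ℝ, δ = 1 / T := ⟨_, rfl⟩
  have hδ0 : 0 < δ := by rw [hδ]; positivity
  have hδ1 : δ ≤ 1 := by rw [hδ, div_le_one hT0]; exact hT
  have hTδ : 1 / δ = T := by rw [hδ, one_div_one_div]
  have e3 : ∀ n m, ∫⁻ t in Icc (-T) T, ∫⁻ ξ, ‖E1 (c n) ξ t‖ₑ ^ 2 * ‖E1 (c m) ξ t‖ₑ ^ 2 ≤
      ∫⁻ d, kk δ d * ∫⁻ v, ‖c n (v + d)‖ₑ ^ 2 * ‖c m v‖ₑ ^ 2 := by
    intro n m
    have := bil δ hδ0 (hc.int n) (hc.int m) (hc.meas n) (hc.meas m)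
    rwa [hTδ] at this
  rw [slab_int T _ ((SS_meas F hc).pow_const 2).ennreal_ofReal, l4_e2 F hc T]
  refine (Finset.sum_le_sum fun n _ => Finset.sum_le_sum fun m _ => e3 n m).trans ?_
  rw [l4_e4 F hc δ]
  refine (l4_e7 F hc δ).trans ?_
  refine mul_le_mul' ?_ (le_of_eq ?_)
  · have := kk_int δ hδ0 hδ1
    rwa [hTδ] at this
  · refine lintegral_congr fun x => ?_
    unfold Ne
    rw [ENNReal.ofReal_pow (NN_nonneg F c x)]

/-- constant of the interpolated estimate -/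
noncomputable def Cv (r : ℝ) : ℝ := 20 * (1 / (r - 1) + 1 / (2 - r)) * r

/-- the `ℓ²`-valued local estimate -/
theorem vec_lq {c : ℤ → ℝ → ℂ} (hc : Adm c) (T : ℝ) (hT : 1 ≤ T) (r : ℝ) (hr1 : 1 < r)
    (hr2 : r < 2) :
    ∫⁻ t in Icc (-T) T, ∫⁻ ξ, ENNReal.ofReal (SS F c (ξ, t) ^ r) ≤
      ENNReal.ofReal (Cv r * ((2 * T) ^ (2 - r) * (12 * (1 + Real.log T)) ^ (r - 1))) *
        ∫⁻ x, ENNReal.ofReal (NN F c x ^ r) := by
  rw [← slab_int T _ ((SS_meas F hc).pow_const r).ennreal_ofReal]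
  have hlog : 0 ≤ Real.log T := Real.log_nonneg hT
  refine marc (slab T) (SS F c) (SS_nonneg F c) (SS_meas F hc) (NN F c) (NN_nonneg F c)
    (NN_meas F hc) (2 * T) (12 * (1 + Real.log T)) r (by linarith) (by linarith) hr1 hr2 ?_
  intro s hs
  set c1 : ℤ → ℝ → ℂ := fun n x => if s < NN F c x then c n x else 0 with hc1
  set c2 : ℤ → ℝ → ℂ := fun n x => if s < NN F c x then 0 else c n x with hc2
  have hset : MeasurableSet {x | s < NN F c x} := measurableSet_lt measurable_const (NN_meas F hc)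
  have a1 : Adm c1 := by
    refine ⟨fun n => Measurable.ite hset (hc.meas n) measurable_const, fun n => ?_, fun n x hx => ?_⟩
    · refine (hc.int n).mono (Measurable.ite hset (hc.meas n)
        measurable_const).aestronglyMeasurable (Eventually.of_forall fun x => ?_)
      simp only [hc1]
      split_ifs
      · exact le_rfl
      · rw [norm_zero]; exact norm_nonneg _
    · simp only [hc1]
      rw [hc.supp n x hx]
      split_ifs <;> rfl
  have a2 : Adm c2 := by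
    refine ⟨fun n => Measurable.ite hset measurable_const (hc.meas n), fun n => ?_, fun n x hx => ?_⟩
    · refine (hc.int n).mono (Measurable.ite hset measurable_const
        (hc.meas n)).aestronglyMeasurable (Eventually.of_forall fun x => ?_)
      simp only [hc2]
      split_ifs
      · rw [norm_zero]; exact norm_nonneg _
      · exact le_rfl
    · simp only [hc2]
      rw [hc.supp n x hx]
      split_ifs <;> rfl
  have n1 : ∀ x, NN F c1 x = if s < NN F c x then NN F c x else 0 := by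
    intro x
    by_cases h : s < NN F c x
    · rw [if_pos h]
      unfold NN at h ⊢
      simp only [hc1]
      refine Finset.sum_congr rfl fun n _ => ?_
      rw [if_pos (show s < NN F c x from h)]
    · rw [if_neg h]
      unfold NN
      refine Finset.sum_eq_zero fun n _ => ?_
      simp only [hc1]
      rw [if_neg h]
      simp
  have n2 : ∀ x, NN F c2 x = if s < NN F c x then 0 else NN F c x := by
    intro x
    by_cases h : s < NN F c x
    · rw [if_pos h]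
      unfold NN
      refine Finset.sum_eq_zero fun n _ => ?_
      simp only [hc2]
      rw [if_pos h]
      simp
    · rw [if_neg h]
      unfold NN at h ⊢
      simp only [hc2]
      refine Finset.sum_congr rfl fun n _ => ?_
      rw [if_neg (show ¬ s < NN F c x from h)]
  refine ⟨SS F c1, SS F c2, SS_nonneg F c1, SS_nonneg F c2, SS_meas F a1, SS_meas F a2, ?_, ?_, ?_⟩
  · intro y
    unfold SS
    rw [← Finset.sum_add_distrib, Finset.mul_sum]
    refine Finset.sum_le_sum fun n _ => ?_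
    have hadd : E1 (c n) y.1 y.2 = E1 (c1 n) y.1 y.2 + E1 (c2 n) y.1 y.2 := by
      unfold E1
      have b1 : Integrable fun x => ee (x * y.1 + x ^ 2 * y.2) * c1 n x := by
        refine (a1.int n).bdd_mul (c := 1) ?_ (Eventually.of_forall fun u => (ee_norm _).le)
        exact (ee_meas.comp (by fun_prop)).aestronglyMeasurable
      have b2 : Integrable fun x => ee (x * y.1 + x ^ 2 * y.2) * c2 n x := by
        refine (a2.int n).bdd_mul (c := 1) ?_ (Eventually.of_forall fun u => (ee_norm _).le)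
        exact (ee_meas.comp (by fun_prop)).aestronglyMeasurable
      rw [← integral_add b1 b2]
      refine integral_congr_ae (Eventually.of_forall fun x => ?_)
      simp only [hc1, hc2]
      split_ifs <;> simp
    rw [hadd]
    have h1 : ‖E1 (c1 n) y.1 y.2 + E1 (c2 n) y.1 y.2‖ ≤ ‖E1 (c1 n) y.1 y.2‖ + ‖E1 (c2 n) y.1 y.2‖ :=
      norm_add_le _ _
    have h2 := pow_le_pow_left₀ (norm_nonneg _) h1 2
    nlinarith [sq_nonneg (‖E1 (c1 n) y.1 y.2‖ - ‖E1 (c2 n) y.1 y.2‖)]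
  · refine (vec_l2 F a1 T (by linarith)).trans (le_of_eq ?_)
    congr 1
    refine lintegral_congr fun x => ?_
    rw [n1]
    split_ifs <;> simp
  · refine (vec_l4 F a2 T hT).trans (le_of_eq ?_)
    congr 1
    refine lintegral_congr fun x => ?_
    rw [n2]
    split_ifs <;> simp

end Pool.Agent.J6H76.TS
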