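import Mathlib
import Pool.Agent.J6H76.TS.F
import Pool.Agent.J6H76.TS.V
set_option autoImplicit false

/-! Summation over dyadic times. -/

namespace Pool.Agent.J6H76.TS

open MeasureTheory Complex Set Filter Topology
open scoped ENNReal ComplexConjugate Real
open Pool.Agent.R412.RT (E ee ee_norm ee_add ee_conj ee_meas ee_cont planch)

/-- the extension of a finite sum -/
noncomputable def Ef (F : Finset ℤ) (c : ℤ → ℝ → ℂ) (ξ η t : ℝ) : ℂ :=
  FT (uS F (fun n => E1 (c n) ξ t) t) η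

/-- the coefficients of the dyadic sum -/
noncomputable def aj (γ : ℝ) (j : ℕ) : ℝ := 2 ^ γ * ((2 : ℝ) ^ j) ^ (-γ)

theorem aj_nonneg (γ : ℝ) (j : ℕ) : 0 ≤ aj γ j := by unfold aj; positivity

theorem dyadic (γ : ℝ) (hγ : 0 ≤ γ) (t : ℝ) : ENNReal.ofReal (max 1 |t| ^ (-γ)) ≤
    ∑' j : ℕ, ENNReal.ofReal (aj γ j) * (Icc (-(2 : ℝ) ^ j) (2 ^ j)).indicator 1 t := by
  have hex : ∃ j : ℕ, |t| ≤ (2 : ℝ) ^ j := by
    obtain ⟨j, hj⟩ := pow_unbounded_of_one_lt |t| (one_lt_two : (1 : ℝ) < 2)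
    exact ⟨j, hj.le⟩
  classical
  set j := Nat.find hex with hj
  have h1 : |t| ≤ (2 : ℝ) ^ j := Nat.find_spec hex
  have h2 : max 1 |t| ^ (-γ) ≤ aj γ j := by
    unfold aj
    rcases Nat.eq_zero_or_pos j with h0 | h0
    · rw [h0, pow_zero] at h1 ⊢
      rw [max_eq_left h1, Real.one_rpow, mul_one]
      exact Real.one_le_rpow one_le_two hγ
    · have h3 : (2 : ℝ) ^ (j - 1) < |t| := by
        have := Nat.find_min hex (m := j - 1) (by omega)
        exact not_le.1 this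
      have h4 : (2 : ℝ) ^ j = 2 * 2 ^ (j - 1) := by
        rw [← pow_succ']
        congr 1
        omega
      have h5 : max 1 |t| ^ (-γ) ≤ ((2 : ℝ) ^ (j - 1)) ^ (-γ) :=
        Real.rpow_le_rpow_of_nonpos (by positivity) (h3.le.trans (le_max_right _ _)) (by linarith)
      refine h5.trans (le_of_eq ?_)
      rw [h4, Real.mul_rpow two_pos.le (by positivity), ← mul_assoc, ← Real.rpow_add two_pos,
        add_neg_cancel, Real.rpow_zero, one_mul]
  calc ENNReal.ofReal (max 1 |t| ^ (-γ))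
      ≤ ENNReal.ofReal (aj γ j) * (Icc (-(2 : ℝ) ^ j) (2 ^ j)).indicator 1 t := by
        rw [indicator_of_mem (show t ∈ Icc (-(2 : ℝ) ^ j) (2 ^ j) from abs_le.1 h1)]
        simp only [Pi.one_apply, mul_one]
        exact ENNReal.ofReal_le_ofReal h2
    _ ≤ _ := ENNReal.le_tsum j

/-- the terms of the final series -/
noncomputable def bj (γ r : ℝ) (j : ℕ) : ℝ :=
  aj γ j * (Cv r * ((2 * (2 : ℝ) ^ j) ^ (2 - r) * (12 * (1 + Real.log ((2 : ℝ) ^ j))) ^ (r - 1)))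

theorem Cv_nonneg (r : ℝ) (hr1 : 1 < r) (hr2 : r < 2) : 0 ≤ Cv r := by
  unfold Cv
  have h1 : 0 < r - 1 := by linarith
  have h2 : 0 < 2 - r := by linarith
  positivity

theorem bj_sum (γ r : ℝ) (hr1 : 1 < r) (hr2 : r < 2) (hγ : 2 - r < γ) :
    ∑' j : ℕ, ENNReal.ofReal (bj γ r j) ≠ ∞ := by
  have hCv := Cv_nonneg r hr1 hr2
  set x : ℝ := (2 : ℝ) ^ (2 - r - γ) with hx
  have hx0 : 0 < x := by positivity
  have hx1 : x < 1 := Real.rpow_lt_one_of_one_lt_of_neg one_lt_two (by linarith)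
  have hb : ∀ j, bj γ r j ≤ (2 ^ γ * Cv r * 2 ^ (2 - r) * 12) * ((1 + j) * x ^ j) := by
    intro j
    have hlog : Real.log ((2 : ℝ) ^ j) = j * Real.log 2 := Real.log_pow 2 j
    have hlog2 : Real.log 2 ≤ 1 := by
      have := Real.log_two_lt_d9
      linarith
    have hlog0 : 0 ≤ Real.log 2 := Real.log_nonneg one_le_two
    have h1 : (12 * (1 + Real.log ((2 : ℝ) ^ j))) ^ (r - 1) ≤ 12 * (1 + j) := by
      rw [hlog]
      have h2 : (1 : ℝ) ≤ 12 * (1 + j * Real.log 2) := by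
        have : 0 ≤ (j : ℝ) * Real.log 2 := by positivity
        linarith
      calc (12 * (1 + (j : ℝ) * Real.log 2)) ^ (r - 1) ≤ (12 * (1 + (j : ℝ) * Real.log 2)) ^ (1 : ℝ) :=
            Real.rpow_le_rpow_of_exponent_le h2 (by linarith)
        _ = 12 * (1 + (j : ℝ) * Real.log 2) := Real.rpow_one _
        _ ≤ 12 * (1 + j) := by
            have : (j : ℝ) * Real.log 2 ≤ j * 1 := mul_le_mul_of_nonneg_left hlog2 (by positivity)
            linarith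
    have h3 : ((2 : ℝ) ^ j) ^ (-γ) * (2 * (2 : ℝ) ^ j) ^ (2 - r) = 2 ^ (2 - r) * x ^ j := by
      rw [Real.mul_rpow two_pos.le (by positivity), hx, ← Real.rpow_natCast, ← Real.rpow_natCast,
        ← Real.rpow_mul two_pos.le, ← Real.rpow_mul two_pos.le, ← Real.rpow_mul two_pos.le,
        mul_left_comm, ← Real.rpow_add two_pos]
      congr 2
      ring
    unfold bj aj
    calc 2 ^ γ * ((2 : ℝ) ^ j) ^ (-γ) * (Cv r * ((2 * (2 : ℝ) ^ j) ^ (2 - r) *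
          (12 * (1 + Real.log ((2 : ℝ) ^ j))) ^ (r - 1)))
        ≤ 2 ^ γ * ((2 : ℝ) ^ j) ^ (-γ) * (Cv r * ((2 * (2 : ℝ) ^ j) ^ (2 - r) * (12 * (1 + j)))) := by
          gcongr
      _ = (2 ^ γ * Cv r * 12 * (1 + j)) * (((2 : ℝ) ^ j) ^ (-γ) * (2 * (2 : ℝ) ^ j) ^ (2 - r)) := by
          ring
      _ = _ := by
          rw [h3]
          ring
  have hsum : Summable fun j : ℕ => (2 ^ γ * Cv r * 2 ^ (2 - r) * 12) * ((1 + (j : ℝ)) * x ^ j) := by
    refine Summable.mul_left _ ?_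
    have h1 : Summable fun j : ℕ => x ^ j := summable_geometric_of_lt_one hx0.le hx1
    have h2 : Summable fun j : ℕ => (j : ℝ) ^ 1 * x ^ j :=
      summable_pow_mul_geometric_of_norm_lt_one 1 (by rwa [Real.norm_of_nonneg hx0.le])
    refine (h1.add h2).congr fun j => ?_
    rw [pow_one]
    ring
  refine ne_top_of_le_ne_top hsum.tsum_ofReal_ne_top ?_
  exact ENNReal.tsum_le_tsum fun j => ENNReal.ofReal_le_ofReal (hb j)

/-- the final constant -/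
noncomputable def Cs (κ' A r : ℝ) : ℝ≥0∞ :=
  Cf κ' A r * ∑' j : ℕ, ENNReal.ofReal (bj ((1 - κ') * (r - 1)) r j)

theorem Cs_ne_top (κ' A r : ℝ) (hr1 : 1 < r) (hr2 : r < 2) (hγ : 2 - r < (1 - κ') * (r - 1)) :
    Cs κ' A r ≠ ∞ :=
  ENNReal.mul_ne_top (Cf_ne_top κ' A r hr1.le) (bj_sum _ r hr1 hr2 hγ)

/-- summation of a dispersive bound over dyadic times -/
theorem dyadic_sum (γ r : ℝ) (hγ0 : 0 ≤ γ) (hr1 : 1 < r) (hr2 : r < 2)
    (F : Finset ℤ) {c : ℤ → ℝ → ℂ} (hc : Adm c) (Ψ : ℝ → ℝ → ℝ≥0∞) (K : ℝ≥0∞) (hK : K ≠ ∞)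
    (h1 : ∀ t ξ, Ψ t ξ ≤ K * ENNReal.ofReal (max 1 |t| ^ (-γ)) *
      ENNReal.ofReal (SS F c (ξ, t) ^ r)) :
    ∫⁻ t, ∫⁻ ξ, Ψ t ξ ≤ K * (∑' j : ℕ, ENNReal.ofReal (bj γ r j)) *
      ∫⁻ x, ENNReal.ofReal (NN F c x ^ r) := by
  set R : ℝ≥0∞ := ∫⁻ x, ENNReal.ofReal (NN F c x ^ r) with hR
  have hGm : Measurable fun t : ℝ => ∫⁻ ξ, ENNReal.ofReal (SS F c (ξ, t) ^ r) := by
    have h1 : Measurable fun y : ℝ × ℝ => ENNReal.ofReal (SS F c y ^ r) :=
      ((SS_meas F hc).pow_const r).ennreal_ofReal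
    exact h1.lintegral_prod_left'
  calc ∫⁻ t, ∫⁻ ξ, Ψ t ξ
      ≤ ∫⁻ t, ∫⁻ ξ, K * ENNReal.ofReal (max 1 |t| ^ (-γ)) *
          ENNReal.ofReal (SS F c (ξ, t) ^ r) :=
        lintegral_mono fun t => lintegral_mono fun ξ => h1 t ξ
    _ = ∫⁻ t, K * (ENNReal.ofReal (max 1 |t| ^ (-γ)) *
          ∫⁻ ξ, ENNReal.ofReal (SS F c (ξ, t) ^ r)) := by
        refine lintegral_congr fun t => ?_
        rw [lintegral_const_mul' _ _ (ENNReal.mul_ne_top hK ENNReal.ofReal_ne_top), mul_assoc]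
    _ = K * ∫⁻ t, ENNReal.ofReal (max 1 |t| ^ (-γ)) *
          ∫⁻ ξ, ENNReal.ofReal (SS F c (ξ, t) ^ r) := lintegral_const_mul' _ _ hK
    _ ≤ K * ∫⁻ t, ∑' j : ℕ, ENNReal.ofReal (aj γ j) *
          ((Icc (-(2 : ℝ) ^ j) (2 ^ j)).indicator 1 t *
          ∫⁻ ξ, ENNReal.ofReal (SS F c (ξ, t) ^ r)) := by
        refine mul_le_mul' le_rfl (lintegral_mono fun t => ?_)
        refine (mul_le_mul' (dyadic γ hγ0 t) le_rfl).trans (le_of_eq ?_)
        rw [← ENNReal.tsum_mul_right]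
        refine tsum_congr fun j => ?_
        rw [mul_assoc]
    _ = K * ∑' j : ℕ, ENNReal.ofReal (aj γ j) *
          ∫⁻ t in Icc (-(2 : ℝ) ^ j) (2 ^ j), ∫⁻ ξ, ENNReal.ofReal (SS F c (ξ, t) ^ r) := by
        rw [lintegral_tsum]
        · congr 1
          refine tsum_congr fun j => ?_
          rw [lintegral_const_mul' _ _ ENNReal.ofReal_ne_top, ← lintegral_indicator measurableSet_Icc]
          congr 1
          refine lintegral_congr fun t => ?_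
          by_cases ht : t ∈ Icc (-(2 : ℝ) ^ j) (2 ^ j)
          · rw [indicator_of_mem ht, indicator_of_mem ht, Pi.one_apply, one_mul]
          · rw [indicator_of_notMem ht, indicator_of_notMem ht, zero_mul]
        · intro j
          refine Measurable.aemeasurable (Measurable.const_mul (Measurable.mul ?_ hGm) _)
          exact measurable_one.indicator measurableSet_Icc
    _ ≤ K * ∑' j : ℕ, ENNReal.ofReal (aj γ j) *
          (ENNReal.ofReal (Cv r * ((2 * (2 : ℝ) ^ j) ^ (2 - r) *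
            (12 * (1 + Real.log ((2 : ℝ) ^ j))) ^ (r - 1))) * R) := by
        refine mul_le_mul' le_rfl (ENNReal.tsum_le_tsum fun j => mul_le_mul' le_rfl ?_)
        exact vec_lq F hc (2 ^ j) (one_le_pow₀ one_le_two) r hr1 hr2
    _ = K * (∑' j : ℕ, ENNReal.ofReal (bj γ r j)) * R := by
        rw [mul_assoc, ← ENNReal.tsum_mul_right]
        congr 1
        refine tsum_congr fun j => ?_
        unfold bj
        rw [ENNReal.ofReal_mul (aj_nonneg γ j), mul_assoc]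

/-- **the extension estimate for finite sums** -/
theorem finite_sum {L : Set ℤ} {κ' A : ℝ} (hL : LocL4 L κ' A) (hA : 0 ≤ A) (hκ : 0 ≤ κ')
    (r : ℝ) (hr1 : 1 < r) (hr2 : r < 2) (hγ : 2 - r < (1 - κ') * (r - 1))
    (F : Finset ℤ) (hF : ∀ n ∈ F, n ∈ L) {c : ℤ → ℝ → ℂ} (hc : Adm c) :
    ∫⁻ t, ∫⁻ ξ, ∫⁻ η, ‖Ef F c ξ η t‖ₑ ^ (2 * r) ≤
      Cs κ' A r * ∫⁻ x, ENNReal.ofReal (NN F c x ^ r) := by
  unfold Cs
  refine dyadic_sum ((1 - κ') * (r - 1)) r (by linarith) hr1 hr2 F hc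
    (fun t ξ => ∫⁻ η, ‖Ef F c ξ η t‖ₑ ^ (2 * r)) _ (Cf_ne_top κ' A r hr1.le) fun t ξ => ?_
  exact fixed hL hA hκ r hr1.le hr2.le F hF (fun n => E1 (c n) ξ t) t

end Pool.Agent.J6H76.TS
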