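import Mathlib
import Pool.Agent.J6H76.TS.S
set_option autoImplicit false

/-! Fourier expansions on `J = (-1/4, 1/4]`. -/

namespace Pool.Agent.J6H76.TS

open MeasureTheory Complex Set Filter Topology
open scoped ENNReal ComplexConjugate Real
open Pool.Agent.R412.RT (E ee ee_norm ee_add ee_conj ee_meas ee_cont planch)

/-- the interval -/
def Jq : Set ℝ := Ioc (-(1 / 4)) (1 / 4)

theorem Jq_meas : MeasurableSet Jq := measurableSet_Ioc

theorem Jq_vol : volume Jq = ENNReal.ofReal (1 / 2) := by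
  unfold Jq
  rw [Real.volume_Ioc]
  norm_num

/-- the Fourier coefficients -/
noncomputable def co (g : ℝ → ℂ) (n : ℤ) : ℂ := 2 * ∫ y in Jq, ee (-(2 * n * y)) * g y

/-- the coefficients of the kernel -/
noncomputable def hh (φ : ℝ → ℂ) (n : ℤ) : ℂ := ∫ y in Jq, φ y * ee (2 * n * y)

theorem co_eq (g : ℝ → ℂ) (n : ℤ) :
    fourierCoeffOn (show (-(1 / 4) : ℝ) < 1 / 4 by norm_num) g n = co g n := by
  rw [fourierCoeffOn_eq_integral, intervalIntegral.integral_of_le (by norm_num)]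
  unfold co Jq
  rw [Complex.real_smul]
  have e1 : (((1 / (1 / 4 - -(1 / 4)) : ℝ)) : ℂ) = 2 := by norm_num
  rw [e1]
  congr 1
  refine integral_congr_ae (Eventually.of_forall fun y => ?_)
  simp only
  rw [fourier_coe_apply, smul_eq_mul]
  congr 1
  unfold ee
  congr 1
  push_cast
  ring

theorem parseval_hasSum {g : ℝ → ℂ} (hg : MemLp g 2 (volume.restrict Jq)) :
    HasSum (fun n : ℤ => ‖co g n‖ ^ 2) (2 * ∫ y in Jq, ‖g y‖ ^ 2) := by
  have h := hasSum_sq_fourierCoeffOn (show (-(1 / 4) : ℝ) < 1 / 4 by norm_num) hg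
  simp_rw [co_eq] at h
  rw [intervalIntegral.integral_of_le (by norm_num)] at h
  convert h using 1
  rw [smul_eq_mul]
  norm_num
  rfl

theorem bessel {g : ℝ → ℂ} (hg : MemLp g 2 (volume.restrict Jq)) (F : Finset ℤ) :
    ∑ n ∈ F, ‖co g n‖ ^ 2 ≤ 2 * ∫ y in Jq, ‖g y‖ ^ 2 := by
  have h := parseval_hasSum hg
  rw [← h.tsum_eq]
  exact h.summable.sum_le_tsum F fun _ _ => by positivity

theorem poly_int' (F : Finset ℤ) (b : ℤ → ℂ) :
    ∫ y in Jq, ‖∑ n ∈ F, b n * ee (2 * n * y)‖ ^ 2 = (∑ n ∈ F, ‖b n‖ ^ 2) / 2 := by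
  have := poly_int F b
  rw [intervalIntegral.integral_of_le (by norm_num)] at this
  exact this

theorem memLp_poly (F : Finset ℤ) (b : ℤ → ℂ) :
    MemLp (fun y : ℝ => ∑ n ∈ F, b n * ee (2 * n * y)) 2 (volume.restrict Jq) := by
  have : IsFiniteMeasure (volume.restrict Jq) := ⟨by
    rw [Measure.restrict_apply_univ, Jq_vol]; exact ENNReal.ofReal_lt_top⟩
  refine MemLp.of_bound (poly_cont F b).aestronglyMeasurable (∑ n ∈ F, ‖b n‖)
    (Eventually.of_forall fun y => poly_bound F b y)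

/-- Pythagoras -/
theorem pyth {g : ℝ → ℂ} (hg : MemLp g 2 (volume.restrict Jq)) (F : Finset ℤ) :
    ∫ y in Jq, ‖g y - ∑ n ∈ F, co g n * ee (2 * n * y)‖ ^ 2 =
      (∫ y in Jq, ‖g y‖ ^ 2) - (∑ n ∈ F, ‖co g n‖ ^ 2) / 2 := by
  have : IsFiniteMeasure (volume.restrict Jq) := ⟨by
    rw [Measure.restrict_apply_univ, Jq_vol]; exact ENNReal.ofReal_lt_top⟩
  have hgi : Integrable g (volume.restrict Jq) := hg.integrable one_le_two
  have i1 : Integrable (fun y => ‖g y‖ ^ 2) (volume.restrict Jq) := hg.integrable_norm_pow two_ne_zero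
  have i2 : Integrable (fun y : ℝ => ‖∑ n ∈ F, co g n * ee (2 * n * y)‖ ^ 2)
      (volume.restrict Jq) := (memLp_poly F (co g)).integrable_norm_pow two_ne_zero
  have i3 : ∀ n : ℤ, Integrable (fun y : ℝ => ee (-(2 * n * y)) * g y) (volume.restrict Jq) := by
    intro n
    refine hgi.bdd_mul (c := 1) ?_ (Eventually.of_forall fun u => (ee_norm _).le)
    exact (ee_meas.comp (by fun_prop)).aestronglyMeasurable
  have i4 : Integrable (fun y : ℝ => ∑ n ∈ F, conj (co g n) * (ee (-(2 * n * y)) * g y))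
      (volume.restrict Jq) := integrable_finsetSum _ fun n _ => (i3 n).const_mul _
  have e1 : ∀ y : ℝ, ‖g y - ∑ n ∈ F, co g n * ee (2 * n * y)‖ ^ 2 =
      ‖g y‖ ^ 2 + ‖∑ n ∈ F, co g n * ee (2 * n * y)‖ ^ 2 -
        2 * (∑ n ∈ F, conj (co g n) * (ee (-(2 * n * y)) * g y)).re := by
    intro y
    have h1 : ∑ n ∈ F, conj (co g n) * (ee (-(2 * n * y)) * g y) =
        g y * conj (∑ n ∈ F, co g n * ee (2 * n * y)) := by
      rw [map_sum, Finset.mul_sum]
      refine Finset.sum_congr rfl fun n _ => ?_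
      rw [map_mul, ee_conj]
      ring
    rw [h1, ← Complex.normSq_eq_norm_sq, ← Complex.normSq_eq_norm_sq, ← Complex.normSq_eq_norm_sq,
      Complex.normSq_sub]
  simp_rw [e1]
  have i5 : Integrable (fun y : ℝ => (∑ n ∈ F, conj (co g n) * (ee (-(2 * n * y)) * g y)).re)
      (volume.restrict Jq) := i4.re
  have i12 : Integrable (fun y : ℝ => ‖g y‖ ^ 2 + ‖∑ n ∈ F, co g n * ee (2 * n * y)‖ ^ 2)
      (volume.restrict Jq) := i1.add i2
  rw [integral_sub i12 (i5.const_mul 2), integral_add i1 i2, integral_const_mul, poly_int']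
  have e2 : ∫ y in Jq, (∑ n ∈ F, conj (co g n) * (ee (-(2 * n * y)) * g y)).re =
      (∑ n ∈ F, ‖co g n‖ ^ 2) / 2 := by
    have h1 := integral_re i4
    simp only [RCLike.re_to_complex] at h1
    rw [h1, integral_finsetSum _ fun n _ => (i3 n).const_mul _]
    have h2 : ∀ n ∈ F, ∫ y in Jq, conj (co g n) * (ee (-(2 * n * y)) * g y) =
        ((‖co g n‖ ^ 2 / 2 : ℝ) : ℂ) := by
      intro n _
      rw [integral_const_mul]
      have h3 : ∫ y in Jq, ee (-(2 * n * y)) * g y = co g n / 2 := by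
        unfold co
        ring
      rw [h3, ← Complex.normSq_eq_norm_sq]
      push_cast
      rw [Complex.normSq_eq_conj_mul_self]
      ring
    rw [Finset.sum_congr rfl h2, ← Complex.ofReal_sum, Complex.ofReal_re, Finset.sum_div]
  rw [e2]
  ring

/-- the error of a partial sum -/
theorem partial_err {g : ℝ → ℂ} (hg : MemLp g 2 (volume.restrict Jq)) (φ : ℝ → ℂ)
    (hφ : Continuous φ) (hφ1 : ∀ y, ‖φ y‖ ≤ 1) (F : Finset ℤ) :
    ‖(∫ y in Jq, φ y * g y) - ∑ n ∈ F, hh φ n * co g n‖ ^ 2 ≤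
      (∫ y in Jq, ‖g y‖ ^ 2) - (∑ n ∈ F, ‖co g n‖ ^ 2) / 2 := by
  have : IsFiniteMeasure (volume.restrict Jq) := ⟨by
    rw [Measure.restrict_apply_univ, Jq_vol]; exact ENNReal.ofReal_lt_top⟩
  have hgi : Integrable g (volume.restrict Jq) := hg.integrable one_le_two
  rw [← pyth hg F]
  set w : ℝ → ℂ := fun y => g y - ∑ n ∈ F, co g n * ee (2 * n * y) with hw
  have hwL : MemLp w 2 (volume.restrict Jq) := hg.sub (memLp_poly F (co g))
  have i1 : Integrable (fun y => φ y * g y) (volume.restrict Jq) :=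
    hgi.bdd_mul (c := 1) hφ.aestronglyMeasurable (Eventually.of_forall hφ1)
  have i2 : ∀ n : ℤ, Integrable (fun y : ℝ => φ y * ee (2 * n * y)) (volume.restrict Jq) := by
    intro n
    refine Integrable.of_bound (hφ.mul (ee_cont.comp (by fun_prop))).aestronglyMeasurable 1
      (Eventually.of_forall fun y => ?_)
    rw [norm_mul, ee_norm, mul_one]
    exact hφ1 y
  have e1 : (∫ y in Jq, φ y * g y) - ∑ n ∈ F, hh φ n * co g n = ∫ y in Jq, φ y * w y := by
    have h1 : ∑ n ∈ F, hh φ n * co g n = ∫ y in Jq, ∑ n ∈ F, φ y * ee (2 * n * y) * co g n := by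
      rw [integral_finsetSum _ fun n _ => (i2 n).mul_const _]
      refine Finset.sum_congr rfl fun n _ => ?_
      unfold hh
      rw [integral_mul_const]
    rw [h1, ← integral_sub i1 (integrable_finsetSum _ fun n _ => (i2 n).mul_const _)]
    refine integral_congr_ae (Eventually.of_forall fun y => ?_)
    simp only [hw]
    rw [mul_sub, Finset.mul_sum]
    congr 1
    refine Finset.sum_congr rfl fun n _ => ?_
    ring
  rw [e1]
  have hμ1 : (volume.restrict Jq) univ ≤ 1 := by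
    rw [Measure.restrict_apply_univ, Jq_vol, ← ENNReal.ofReal_one]
    exact ENNReal.ofReal_le_ofReal (by norm_num)
  -- Cauchy-Schwarz
  have h2 : ‖∫ y in Jq, φ y * w y‖ ≤ ∫ y in Jq, ‖w y‖ := by
    refine norm_integral_le_of_norm_le (hwL.integrable one_le_two).norm
      (Eventually.of_forall fun y => ?_)
    rw [norm_mul]
    exact mul_le_of_le_one_left (norm_nonneg _) (hφ1 y)
  refine (pow_le_pow_left₀ (norm_nonneg _) h2 2).trans ?_
  have hwi := (hwL.integrable one_le_two).norm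
  have hw2 : Integrable (fun y => ‖w y‖ ^ 2) (volume.restrict Jq) :=
    hwL.integrable_norm_pow two_ne_zero
  -- variance
  set m : ℝ := ∫ y in Jq, ‖w y‖ with hm
  have h3 : 0 ≤ ∫ y in Jq, (‖w y‖ - 2 * m) ^ 2 := integral_nonneg fun y => sq_nonneg _
  have h4 : ∫ y in Jq, (‖w y‖ - 2 * m) ^ 2 = (∫ y in Jq, ‖w y‖ ^ 2) - 2 * m ^ 2 := by
    have e : ∀ y, (‖w y‖ - 2 * m) ^ 2 = ‖w y‖ ^ 2 - (4 * m) * ‖w y‖ + 4 * m ^ 2 := fun y => by ring
    simp_rw [e]
    have j1 : Integrable (fun y => 4 * m * ‖w y‖) (volume.restrict Jq) := hwi.const_mul _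
    have j2 : Integrable (fun y => ‖w y‖ ^ 2 - 4 * m * ‖w y‖) (volume.restrict Jq) := hw2.sub j1
    rw [integral_add j2 (integrable_const _),
      integral_sub hw2 j1, integral_const_mul, ← hm, integral_const, smul_eq_mul,
      measureReal_def, Measure.restrict_apply_univ, Jq_vol, ENNReal.toReal_ofReal (by norm_num)]
    ring
  rw [h4] at h3
  nlinarith [sq_nonneg m]

end Pool.Agent.J6H76.TS
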