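import Mathlib
import Pool.Agent.J6H76.TS.L
set_option autoImplicit false

/-! The passage to infinite expansions. -/

namespace Pool.Agent.J6H76.TS

open MeasureTheory Complex Set Filter Topology
open scoped ENNReal ComplexConjugate Real
open Pool.Agent.R412.RT (E ee ee_norm ee_add ee_conj ee_meas ee_cont planch)

/-- admissible functions on the plane -/
structure Dat (f : ℝ × ℝ → ℂ) : Prop where
  meas : Measurable f
  int : Integrable f
  sq : Integrable fun p => ‖f p‖ ^ 2
  suppx : ∀ x y, 1 / 4 < |x| → f (x, y) = 0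
  suppy : ∀ x y, y ∉ Jq → f (x, y) = 0

/-- the coefficient functions -/
noncomputable def cf (f : ℝ × ℝ → ℂ) (n : ℤ) (x : ℝ) : ℂ := co (fun y => f (x, y)) n

theorem cf_Adm {f : ℝ × ℝ → ℂ} (hf : Dat f) : Adm (cf f) := by
  have hm : ∀ n : ℤ, Measurable fun q : ℝ × ℝ => ee (-(2 * n * q.2)) * f q := fun n =>
    (ee_meas.comp (by fun_prop)).mul hf.meas
  have hi : ∀ n : ℤ, Integrable (fun q : ℝ × ℝ => ee (-(2 * n * q.2)) * f q)
      (volume.prod (volume.restrict Jq)) := by
    intro n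
    have h1 : Integrable f (volume.prod (volume.restrict Jq)) := by
      have := hf.int.integrableOn (s := univ ×ˢ Jq)
      rwa [IntegrableOn, Measure.volume_eq_prod, ← Measure.prod_restrict,
        Measure.restrict_univ] at this
    refine h1.bdd_mul (c := 1) ?_ (Eventually.of_forall fun u => (ee_norm _).le)
    exact (ee_meas.comp (by fun_prop)).aestronglyMeasurable
  refine ⟨fun n => ?_, fun n => ?_, fun n x hx => ?_⟩
  · unfold cf co
    refine Measurable.const_mul ?_ _
    exact (hm n).stronglyMeasurable.integral_prod_right.measurable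
  · unfold cf co
    exact (hi n).integral_prod_left.const_mul 2
  · unfold cf co
    have : ∀ y, f (x, y) = 0 := fun y => hf.suppx x y (by linarith)
    simp [this]

/-- the extension operator in two variables -/
noncomputable def E2 (f : ℝ × ℝ → ℂ) (ξ η t : ℝ) : ℂ :=
  ∫ x, ee (x * ξ + x ^ 2 * t) * ∫ y in Jq, ee (y * η + y ^ 2 * t) * f (x, y)

/-- the kernel coefficient -/
noncomputable def hc (η t : ℝ) (n : ℤ) : ℂ := hh (fun y => ee (y * η + y ^ 2 * t)) n

theorem Ef_sum (F : Finset ℤ) (c : ℤ → ℝ → ℂ) (ξ η t : ℝ) :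
    Ef F c ξ η t = ∑ n ∈ F, E1 (c n) ξ t * hc η t n := by
  unfold Ef FT
  have h1 : ∫ y, ee (y * η) * uS F (fun n => E1 (c n) ξ t) t y =
      ∫ y in Jq, ∑ n ∈ F, E1 (c n) ξ t * (ee (y * η + y ^ 2 * t) * ee (2 * n * y)) := by
    rw [← integral_indicator Jq_meas]
    refine integral_congr_ae (Eventually.of_forall fun y => ?_)
    simp only
    unfold uS
    by_cases hy : y ∈ Jq
    · rw [indicator_of_mem hy, if_pos ⟨hy.1, hy.2⟩, Finset.mul_sum, Finset.mul_sum]
      refine Finset.sum_congr rfl fun n _ => ?_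
      rw [ee_add]
      ring
    · rw [indicator_of_notMem hy, if_neg (fun h => hy ⟨h.1, h.2⟩), mul_zero]
  rw [h1, integral_finsetSum]
  · refine Finset.sum_congr rfl fun n _ => ?_
    rw [integral_const_mul]
    rfl
  · intro n _
    have : IsFiniteMeasure (volume.restrict Jq) := ⟨by
      rw [Measure.restrict_apply_univ, Jq_vol]; exact ENNReal.ofReal_lt_top⟩
    refine Integrable.const_mul ?_ _
    refine Integrable.of_bound ?_ 1 (Eventually.of_forall fun y => ?_)
    · exact ((ee_cont.comp (by fun_prop)).mul (ee_cont.comp (by fun_prop))).aestronglyMeasurable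
    · rw [norm_mul, ee_norm, ee_norm, mul_one]

theorem Ef_int (F : Finset ℤ) {c : ℤ → ℝ → ℂ} (hc' : Adm c) (ξ η t : ℝ) :
    Ef F c ξ η t = ∫ x, ee (x * ξ + x ^ 2 * t) * ∑ n ∈ F, hc η t n * c n x := by
  rw [Ef_sum]
  have h1 : ∀ n, Integrable fun x => ee (x * ξ + x ^ 2 * t) * c n x := by
    intro n
    refine (hc'.int n).bdd_mul (c := 1) ?_ (Eventually.of_forall fun u => (ee_norm _).le)
    exact (ee_meas.comp (by fun_prop)).aestronglyMeasurable
  have h2 : ∀ x, ee (x * ξ + x ^ 2 * t) * ∑ n ∈ F, hc η t n * c n x =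
      ∑ n ∈ F, ee (x * ξ + x ^ 2 * t) * c n x * hc η t n := by
    intro x
    rw [Finset.mul_sum]
    refine Finset.sum_congr rfl fun n _ => ?_
    ring
  simp_rw [h2]
  rw [integral_finsetSum _ fun n _ => (h1 n).mul_const _]
  refine Finset.sum_congr rfl fun n _ => ?_
  rw [integral_mul_const]
  rfl

open Classical in
/-- the finite sets of frequencies -/
noncomputable def FM (L : Set ℤ) (M : ℕ) : Finset ℤ :=
  (Finset.Icc (-(M : ℤ)) M).filter (fun n => n ∈ L)

theorem FM_mem (L : Set ℤ) (M : ℕ) (n : ℤ) (hn : n ∈ FM L M) : n ∈ L := by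
  classical
  exact (Finset.mem_filter.1 hn).2

theorem Icc_tendsto : Tendsto (fun M : ℕ => Finset.Icc (-(M : ℤ)) M) atTop atTop := by
  refine tendsto_atTop_finset_of_monotone ?_ ?_
  · intro a b hab
    refine Finset.Icc_subset_Icc ?_ ?_ <;> omega
  · intro n
    refine ⟨n.natAbs, ?_⟩
    rw [Finset.mem_Icc]
    omega

theorem partial_tendsto (L : Set ℤ) {g : ℝ → ℂ} (hg : MemLp g 2 (volume.restrict Jq))
    (hL : ∀ n ∉ L, co g n = 0) (φ : ℝ → ℂ) (hφ : Continuous φ) (hφ1 : ∀ y, ‖φ y‖ ≤ 1) :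
    Tendsto (fun M : ℕ => ∑ n ∈ FM L M, hh φ n * co g n) atTop (𝓝 (∫ y in Jq, φ y * g y)) := by
  classical
  have h1 : ∀ M, ∑ n ∈ FM L M, ‖co g n‖ ^ 2 = ∑ n ∈ Finset.Icc (-(M : ℤ)) M, ‖co g n‖ ^ 2 := by
    intro M
    unfold FM
    refine Finset.sum_filter_of_ne fun n _ h => ?_
    by_contra hn
    rw [hL n hn] at h
    simp at h
  have h2 : Tendsto (fun M : ℕ => ∑ n ∈ FM L M, ‖co g n‖ ^ 2) atTop
      (𝓝 (2 * ∫ y in Jq, ‖g y‖ ^ 2)) := by
    simp_rw [h1]
    exact (parseval_hasSum hg).comp Icc_tendsto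
  have h3 : Tendsto (fun M : ℕ => (∫ y in Jq, ‖g y‖ ^ 2) - (∑ n ∈ FM L M, ‖co g n‖ ^ 2) / 2) atTop
      (𝓝 0) := by
    have := (tendsto_const_nhds (x := ∫ y in Jq, ‖g y‖ ^ 2)).sub (h2.div_const 2)
    have e : (∫ y in Jq, ‖g y‖ ^ 2) - (2 * ∫ y in Jq, ‖g y‖ ^ 2) / 2 = 0 := by ring
    rwa [e] at this
  have h4 : Tendsto (fun M : ℕ => ‖(∫ y in Jq, φ y * g y) - ∑ n ∈ FM L M, hh φ n * co g n‖ ^ 2)
      atTop (𝓝 0) :=
    squeeze_zero (fun M => by positivity) (fun M => partial_err hg φ hφ hφ1 (FM L M)) h3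
  have h5 : Tendsto (fun M : ℕ => ‖(∫ y in Jq, φ y * g y) - ∑ n ∈ FM L M, hh φ n * co g n‖)
      atTop (𝓝 0) := by
    have := h4.sqrt
    simp only [Real.sqrt_zero] at this
    refine this.congr fun M => ?_
    rw [Real.sqrt_sq (norm_nonneg _)]
  have h6 := tendsto_zero_iff_norm_tendsto_zero.2 h5
  have h7 := (tendsto_const_nhds (x := ∫ y in Jq, φ y * g y)).sub h6
  rw [sub_zero] at h7
  refine h7.congr fun M => ?_
  ring

theorem slice_memLp {f : ℝ × ℝ → ℂ} (hf : Dat f) :
    ∀ᵐ x : ℝ, MemLp (fun y => f (x, y)) 2 (volume.restrict Jq) := by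
  have h1 : ∀ᵐ x : ℝ, Integrable fun y => ‖f (x, y)‖ ^ 2 := by
    have := hf.sq
    rw [Measure.volume_eq_prod] at this
    exact this.prod_right_ae
  filter_upwards [h1] with x hx
  have hm : AEStronglyMeasurable (fun y => f (x, y)) (volume.restrict Jq) :=
    (hf.meas.comp (by fun_prop : Measurable fun y : ℝ => ((x, y) : ℝ × ℝ))).aestronglyMeasurable
  exact (memLp_two_iff_integrable_sq_norm hm).2 hx.integrableOn

theorem Ef_tendsto (L : Set ℤ) {f : ℝ × ℝ → ℂ} (hf : Dat f)
    (hL : ∀ n ∉ L, ∀ᵐ x : ℝ, cf f n x = 0) (ξ η t : ℝ) :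
    Tendsto (fun M : ℕ => Ef (FM L M) (cf f) ξ η t) atTop (𝓝 (E2 f ξ η t)) := by
  have hA := cf_Adm hf
  simp_rw [Ef_int _ hA]
  unfold E2
  set φ : ℝ → ℂ := fun y => ee (y * η + y ^ 2 * t) with hφ
  have hφc : Continuous φ := ee_cont.comp (by fun_prop)
  have hφ1 : ∀ y, ‖φ y‖ ≤ 1 := fun y => (ee_norm _).le
  set G : ℝ → ℝ := fun x => ∫ y in Jq, ‖f (x, y)‖ ^ 2 with hG
  have hGi : Integrable G := by
    have h1 : Integrable (fun q : ℝ × ℝ => ‖f q‖ ^ 2) (volume.prod (volume.restrict Jq)) := by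
      have := hf.sq.integrableOn (s := univ ×ˢ Jq)
      rwa [IntegrableOn, Measure.volume_eq_prod, ← Measure.prod_restrict,
        Measure.restrict_univ] at this
    exact h1.integral_prod_left
  have hall : ∀ᵐ x : ℝ, ∀ n ∉ L, cf f n x = 0 := by
    rw [ae_all_iff]
    intro n
    by_cases hn : n ∈ L
    · exact Eventually.of_forall fun x h => absurd hn h
    · filter_upwards [hL n hn] with x hx _
      exact hx
  refine tendsto_integral_of_dominated_convergence
    (fun x => (Icc (-(1 / 4) : ℝ) (1 / 4)).indicator (fun _ => (2 : ℝ)) x + 2 * G x) ?_ ?_ ?_ ?_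
  · intro M
    refine Measurable.aestronglyMeasurable ?_
    refine (ee_meas.comp (by fun_prop)).mul ?_
    exact Finset.measurable_sum _ fun n _ => (hA.meas n).const_mul _
  · refine Integrable.add ?_ (hGi.const_mul 2)
    rw [integrable_indicator_iff measurableSet_Icc]
    exact integrableOn_const (by rw [Real.volume_Icc]; exact ENNReal.ofReal_ne_top)
  · intro M
    filter_upwards [slice_memLp hf] with x hx
    rw [norm_mul, ee_norm, one_mul]
    have hG0 : 0 ≤ G x := integral_nonneg fun y => by positivity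
    by_cases hx4 : x ∈ Icc (-(1 / 4) : ℝ) (1 / 4)
    · rw [indicator_of_mem hx4]
      have e1 := partial_err hx φ hφc hφ1 (FM L M)
      have e2 := partial_err hx φ hφc hφ1 ∅
      simp only [Finset.sum_empty, sub_zero, zero_div] at e2
      set a : ℂ := ∫ y in Jq, φ y * f (x, y) with ha
      set b : ℂ := ∑ n ∈ FM L M, hh φ n * co (fun y => f (x, y)) n with hb
      have e3 : ‖a - b‖ ^ 2 ≤ G x := by
        refine e1.trans ?_
        have : 0 ≤ (∑ n ∈ FM L M, ‖co (fun y => f (x, y)) n‖ ^ 2) / 2 := by positivity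
        linarith
      have e4 : ‖a - b‖ ≤ 1 + G x := by nlinarith [sq_nonneg (‖a - b‖ - 1), norm_nonneg (a - b)]
      have e5 : ‖a‖ ≤ 1 + G x := by nlinarith [sq_nonneg (‖a‖ - 1), norm_nonneg a]
      have e6 : ‖b‖ ≤ ‖a‖ + ‖a - b‖ := by
        have : b = a - (a - b) := by ring
        calc ‖b‖ = ‖a - (a - b)‖ := by rw [← this]
          _ ≤ ‖a‖ + ‖a - b‖ := norm_sub_le _ _
      calc ‖∑ n ∈ FM L M, hc η t n * cf f n x‖ = ‖b‖ := rfl
        _ ≤ 2 + 2 * G x := by linarith
    · rw [indicator_of_notMem hx4]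
      have : ∀ n, cf f n x = 0 := by
        intro n
        have h1 : ∀ y, f (x, y) = 0 := fun y => by
          refine hf.suppx x y ?_
          by_contra h2
          exact hx4 (abs_le.1 (not_lt.1 h2))
        unfold cf co
        simp [h1]
      simp only [this, mul_zero, Finset.sum_const_zero, norm_zero]
      linarith
  · filter_upwards [slice_memLp hf, hall] with x hx hx2
    refine Tendsto.const_mul _ ?_
    exact partial_tendsto L hx hx2 φ hφc hφ1

end Pool.Agent.J6H76.TS
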