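import Mathlib
import Pool.Agent.J6H76.TS.L2
set_option autoImplicit false

/-! The main estimate in coordinates. -/

namespace Pool.Agent.J6H76.TS

open MeasureTheory Complex Set Filter Topology
open scoped ENNReal ComplexConjugate Real
open Pool.Agent.R412.RT (E ee ee_norm ee_add ee_conj ee_meas ee_cont planch)

theorem hc_meas3 (n : ℤ) : Measurable fun z : ℝ × ℝ × ℝ => hc z.2.2 z.1 n := by
  unfold hc hh
  have : StronglyMeasurable (Function.uncurry fun (z : ℝ × ℝ × ℝ) (y : ℝ) =>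
      ee (y * z.2.2 + y ^ 2 * z.1) * ee (2 * n * y)) := by
    refine Measurable.stronglyMeasurable ?_
    exact (ee_meas.comp (by fun_prop)).mul (ee_meas.comp (by fun_prop))
  exact this.integral_prod_right.measurable

theorem E1_meas3 (c : ℝ → ℂ) (hc : Measurable c) :
    Measurable fun z : ℝ × ℝ × ℝ => E1 c z.2.1 z.1 := by
  unfold E1
  have : StronglyMeasurable (Function.uncurry fun (z : ℝ × ℝ × ℝ) (x : ℝ) =>
      ee (x * z.2.1 + x ^ 2 * z.1) * c x) := by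
    refine Measurable.stronglyMeasurable ?_
    exact (ee_meas.comp (by fun_prop)).mul (hc.comp measurable_snd)
  exact this.integral_prod_right.measurable

theorem term_meas3 (c : ℝ → ℂ) (hc' : Measurable c) (n : ℤ) :
    Measurable fun z : ℝ × ℝ × ℝ => E1 c z.2.1 z.1 * hc z.2.2 z.1 n :=
  (E1_meas3 c hc').mul (hc_meas3 n)

theorem Ef_meas (F : Finset ℤ) {c : ℤ → ℝ → ℂ} (hA : Adm c) :
    Measurable fun z : ℝ × ℝ × ℝ => Ef F c z.2.1 z.2.2 z.1 := by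
  have h : (fun z : ℝ × ℝ × ℝ => Ef F c z.2.1 z.2.2 z.1) =
      fun z : ℝ × ℝ × ℝ => ∑ n ∈ F, E1 (c n) z.2.1 z.1 * hc z.2.2 z.1 n := by
    ext z
    rw [Ef_sum]
  rw [h]
  exact Finset.measurable_sum _ fun n _ => term_meas3 (c n) (hA.meas n) n

theorem bessel_int {f : ℝ × ℝ → ℂ} (hf : Dat f) (F : Finset ℤ) (r : ℝ) (hr : 0 ≤ r) :
    ∫⁻ x, ENNReal.ofReal (NN F (cf f) x ^ r) ≤
      ∫⁻ x, (2 * ∫⁻ y in Jq, ‖f (x, y)‖ₑ ^ 2) ^ r := by
  refine lintegral_mono_ae ?_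
  filter_upwards [slice_memLp hf] with x hx
  rw [← ENNReal.ofReal_rpow_of_nonneg (NN_nonneg F _ x) hr]
  refine ENNReal.rpow_le_rpow ?_ hr
  have h1 := bessel hx F
  have h2 : ENNReal.ofReal (2 * ∫ y in Jq, ‖f (x, y)‖ ^ 2) = 2 * ∫⁻ y in Jq, ‖f (x, y)‖ₑ ^ 2 := by
    rw [ENNReal.ofReal_mul two_pos.le, ENNReal.ofReal_ofNat, ofReal_integral_eq_lintegral_ofReal]
    · congr 1
      refine lintegral_congr fun y => ?_
      rw [ENNReal.ofReal_pow (norm_nonneg _), ofReal_norm]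
    · exact hx.integrable_norm_pow two_ne_zero
    · exact Eventually.of_forall fun y => by positivity
  rw [← h2]
  exact ENNReal.ofReal_le_ofReal h1

/-- **the main estimate in coordinates** -/
theorem main_coord {L : Set ℤ} {κ' A : ℝ} (hL : LocL4 L κ' A) (hA : 0 ≤ A) (hκ : 0 ≤ κ')
    (r : ℝ) (hr1 : 1 < r) (hr2 : r < 2) (hγ : 2 - r < (1 - κ') * (r - 1))
    {f : ℝ × ℝ → ℂ} (hf : Dat f) (hsp : ∀ n ∉ L, ∀ᵐ x : ℝ, cf f n x = 0) :
    ∫⁻ z : ℝ × ℝ × ℝ, ‖E2 f z.2.1 z.2.2 z.1‖ₑ ^ (2 * r) ≤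
      Cs κ' A r * ∫⁻ x, (2 * ∫⁻ y in Jq, ‖f (x, y)‖ₑ ^ 2) ^ r := by
  have hAd := cf_Adm hf
  set G : ℕ → ℝ × ℝ × ℝ → ℝ≥0∞ := fun M z => ‖Ef (FM L M) (cf f) z.2.1 z.2.2 z.1‖ₑ ^ (2 * r)
    with hG
  have hGm : ∀ M, Measurable (G M) := fun M => (Ef_meas (FM L M) hAd).enorm.pow_const (2 * r)
  have hlim : ∀ z : ℝ × ℝ × ℝ, ‖E2 f z.2.1 z.2.2 z.1‖ₑ ^ (2 * r) = liminf (fun M => G M z) atTop := by
    intro z
    have h1 := (Ef_tendsto L hf hsp z.2.1 z.2.2 z.1).enorm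
    have h2 := (ENNReal.continuous_rpow_const (y := 2 * r)).continuousAt.tendsto.comp h1
    exact h2.liminf_eq.symm
  have hbd : ∀ M, ∫⁻ z, G M z ≤ Cs κ' A r * ∫⁻ x, (2 * ∫⁻ y in Jq, ‖f (x, y)‖ₑ ^ 2) ^ r := by
    intro M
    have h1 : ∫⁻ z, G M z = ∫⁻ t, ∫⁻ ξ, ∫⁻ η, ‖Ef (FM L M) (cf f) ξ η t‖ₑ ^ (2 * r) := by
      rw [Measure.volume_eq_prod, lintegral_prod _ (hGm M).aemeasurable]
      refine lintegral_congr fun t => ?_
      have h2 : Measurable fun p : ℝ × ℝ => G M (t, p) := (hGm M).comp (by fun_prop)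
      rw [Measure.volume_eq_prod, lintegral_prod _ h2.aemeasurable]
    rw [h1]
    refine (finite_sum hL hA hκ r hr1 hr2 hγ (FM L M) (FM_mem L M) hAd).trans ?_
    exact mul_le_mul' le_rfl (bessel_int hf (FM L M) r (by linarith))
  simp_rw [hlim]
  refine (lintegral_liminf_le hGm).trans ?_
  refine (liminf_le_liminf (Eventually.of_forall hbd)).trans ?_
  rw [liminf_const]

end Pool.Agent.J6H76.TS
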