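import Mathlib
import Pool.Agent.J6H76.TS.L3
set_option autoImplicit false

/-! Conversion to the normalisation `e^{-i Φ(x)·ξ}`. -/

namespace Pool.Agent.J6H76.TS

open MeasureTheory Complex Set Filter Topology
open scoped ENNReal NNReal ComplexConjugate Real RealInnerProductSpace
open Pool.Agent.R412.RT (E ee ee_norm ee_add ee_conj ee_meas ee_cont planch)

/-- the paraboloid `x ↦ (x_1, x_2, x_1^2 + x_2^2)` -/
noncomputable def Phi (x : E 2) : E 3 := !₂[x 0, x 1, x 0 ^ 2 + x 1 ^ 2]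

/-- the Fourier extension operator of the paraboloid over `U` -/
noncomputable def ext (U : Set (E 2)) (f : E 2 → ℂ) (ξ : E 3) : ℂ :=
  ∫ x in U, Complex.exp (-((⟪Phi x, ξ⟫ : ℝ) : ℂ) * I) * f x

/-- the square -/
def Q : Set (E 2) := {x | |x 0| ≤ 1 / 4 ∧ |x 1| ≤ 1 / 4}

theorem Phi_inner (x : E 2) (ξ : E 3) :
    ⟪Phi x, ξ⟫ = x 0 * ξ 0 + x 1 * ξ 1 + (x 0 ^ 2 + x 1 ^ 2) * ξ 2 := by
  have h : ⟪Phi x, ξ⟫ = ∑ i, Phi x i * ξ i := by
    simp only [PiLp.inner_apply, RCLike.inner_apply, conj_trivial]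
    exact Finset.sum_congr rfl fun i _ => mul_comm _ _
  rw [h, Fin.sum_univ_three]
  rfl

theorem Q_meas : MeasurableSet Q := by
  have h1 : MeasurableSet {x : E 2 | |x 0| ≤ 1 / 4} :=
    measurableSet_le (by fun_prop) measurable_const
  have h2 : MeasurableSet {x : E 2 | |x 1| ≤ 1 / 4} :=
    measurableSet_le (by fun_prop) measurable_const
  exact h1.inter h2

theorem T2_symm (p : ℝ × ℝ) : T2.symm p = !₂[p.1, p.2] := by
  apply T2.injective
  rw [MeasurableEquiv.apply_symm_apply, T2_apply]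
  rfl

/-- coordinates of the Euclidean space -/
noncomputable def T3 : E 3 ≃ᵐ ℝ × ℝ × ℝ := (MeasurableEquiv.toLp 2 (Fin 3 → ℝ)).symm.trans
  ((MeasurableEquiv.piFinSuccAbove (fun _ => ℝ) 2).trans
    ((MeasurableEquiv.refl ℝ).prodCongr MeasurableEquiv.finTwoArrow))

theorem T3_mp : MeasurePreserving T3 volume volume := by
  have h1 : MeasurePreserving (Prod.map id MeasurableEquiv.finTwoArrow :
      ℝ × (Fin 2 → ℝ) → ℝ × ℝ × ℝ) (volume.prod volume) (volume.prod volume) :=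
    (MeasurePreserving.id (volume : Measure ℝ)).prod (volume_preserving_finTwoArrow ℝ)
  exact (h1.comp (volume_preserving_piFinSuccAbove (fun _ => ℝ) 2)).comp
    (PiLp.volume_preserving_ofLp (Fin 3))

theorem T3_apply (x : E 3) : T3 x = (x 2, x 0, x 1) := rfl

open Classical in
/-- the data in coordinates -/
noncomputable def fq (f : E 2 → ℂ) (p : ℝ × ℝ) : ℂ :=
  if |p.1| ≤ 1 / 4 ∧ p.2 ∈ Jq then f !₂[p.1, p.2] else 0

theorem fq_set : MeasurableSet {p : ℝ × ℝ | |p.1| ≤ 1 / 4 ∧ p.2 ∈ Jq} := by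
  have h1 : MeasurableSet {p : ℝ × ℝ | |p.1| ≤ 1 / 4} :=
    measurableSet_le (by fun_prop) measurable_const
  exact h1.inter (measurable_snd Jq_meas)

theorem line_null : ∀ᵐ p : ℝ × ℝ, p.2 ≠ -(1 / 4) := by
  rw [ae_iff]
  have : {p : ℝ × ℝ | ¬ p.2 ≠ -(1 / 4)} = univ ×ˢ {(-(1 / 4) : ℝ)} := by
    ext p; simp
  rw [this, Measure.volume_eq_prod, Measure.prod_prod]
  simp

theorem fq_ae (f : E 2 → ℂ) : ∀ᵐ p : ℝ × ℝ, fq f p = Q.indicator f (T2.symm p) := by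
  filter_upwards [line_null] with p hp
  unfold fq
  rw [T2_symm]
  by_cases h : |p.1| ≤ 1 / 4 ∧ p.2 ∈ Jq
  · rw [if_pos h, indicator_of_mem]
    exact ⟨h.1, abs_le.2 ⟨h.2.1.le, h.2.2⟩⟩
  · rw [if_neg h, indicator_of_notMem]
    rintro ⟨h1, h2⟩
    have h3 := abs_le.1 h2
    refine h ⟨h1, lt_of_le_of_ne h3.1 hp.symm, h3.2⟩

/-- the extension operator in coordinates -/
theorem ext_coord (f : E 2 → ℂ) (hf : Integrable (fq f)) (ξ : E 3) :
    ext Q f ξ = E2 (fq f) (-(1 / (2 * π)) * ξ 0) (-(1 / (2 * π)) * ξ 1) (-(1 / (2 * π)) * ξ 2) := by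
  have hpi := Real.pi_pos
  set a : ℝ := -(1 / (2 * π)) * ξ 0 with ha
  set b : ℝ := -(1 / (2 * π)) * ξ 1 with hb
  set c : ℝ := -(1 / (2 * π)) * ξ 2 with hc
  have h1 : ∀ x : E 2, Complex.exp (-((⟪Phi x, ξ⟫ : ℝ) : ℂ) * I) =
      ee (x 0 * a + x 1 * b + (x 0 ^ 2 + x 1 ^ 2) * c) := by
    intro x
    rw [Phi_inner]
    unfold ee
    congr 1
    have : x 0 * ξ 0 + x 1 * ξ 1 + (x 0 ^ 2 + x 1 ^ 2) * ξ 2 =
        -(2 * π * (x 0 * a + x 1 * b + (x 0 ^ 2 + x 1 ^ 2) * c)) := by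
      rw [ha, hb, hc]
      field_simp
      ring
    rw [this]
    push_cast
    ring
  clear_value a b c
  unfold ext
  rw [← integral_indicator Q_meas]
  have h2 : ∫ x : E 2, Q.indicator (fun x => Complex.exp (-((⟪Phi x, ξ⟫ : ℝ) : ℂ) * I) * f x) x =
      ∫ p : ℝ × ℝ, Q.indicator (fun x => Complex.exp (-((⟪Phi x, ξ⟫ : ℝ) : ℂ) * I) * f x)
        (T2.symm p) := by
    have := T2_mp.symm.integral_comp T2.symm.measurableEmbedding
      (Q.indicator (fun x => Complex.exp (-((⟪Phi x, ξ⟫ : ℝ) : ℂ) * I) * f x))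
    exact this.symm
  rw [h2]
  have h3 : ∫ p : ℝ × ℝ, Q.indicator (fun x => Complex.exp (-((⟪Phi x, ξ⟫ : ℝ) : ℂ) * I) * f x)
        (T2.symm p) = ∫ p : ℝ × ℝ, ee (p.1 * a + p.2 * b + (p.1 ^ 2 + p.2 ^ 2) * c) * fq f p := by
    refine integral_congr_ae ?_
    filter_upwards [fq_ae f] with p hp
    rw [hp]
    by_cases hq : T2.symm p ∈ Q
    · rw [indicator_of_mem hq, indicator_of_mem hq, h1, T2_symm]
      rfl
    · rw [indicator_of_notMem hq, indicator_of_notMem hq, mul_zero]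
  rw [h3]
  have h4 : Integrable fun p : ℝ × ℝ => ee (p.1 * a + p.2 * b + (p.1 ^ 2 + p.2 ^ 2) * c) * fq f p := by
    refine hf.bdd_mul (c := 1) ?_ (Eventually.of_forall fun u => (ee_norm _).le)
    exact (ee_meas.comp (by fun_prop)).aestronglyMeasurable
  rw [Measure.volume_eq_prod, integral_prod _ h4]
  unfold E2
  refine integral_congr_ae (Eventually.of_forall fun x => ?_)
  simp only
  rw [← integral_const_mul, ← integral_indicator Jq_meas]
  refine integral_congr_ae (Eventually.of_forall fun y => ?_)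
  simp only
  by_cases hy : y ∈ Jq
  · rw [indicator_of_mem hy, ← mul_assoc, ← ee_add]
    congr 2
    ring
  · rw [indicator_of_notMem hy]
    unfold fq
    rw [if_neg (fun h => hy h.2), mul_zero]

/-- the change of variables -/
theorem ext_lint (f : E 2 → ℂ) (hf : Integrable (fq f)) (q : ℝ) :
    ∫⁻ ξ, ‖ext Q f ξ‖ₑ ^ q = ENNReal.ofReal ((2 * π) ^ 3) *
      ∫⁻ z : ℝ × ℝ × ℝ, ‖E2 (fq f) z.2.1 z.2.2 z.1‖ₑ ^ q := by
  have hpi := Real.pi_pos
  obtain ⟨s, hs⟩ : ∃ s : ℝ, s = -(1 / (2 * π)) := ⟨_, rfl⟩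
  have hs0 : s ≠ 0 := by
    rw [hs]
    have : 0 < 1 / (2 * π) := by positivity
    intro h
    linarith
  set G : ℝ × ℝ × ℝ → ℝ≥0∞ := fun z => ‖E2 (fq f) z.2.1 z.2.2 z.1‖ₑ ^ q with hG
  have h1 : ∀ ξ : E 3, ‖ext Q f ξ‖ₑ ^ q = G (s • T3 ξ) := by
    intro ξ
    rw [ext_coord f hf, T3_apply, ← hs]
    rfl
  simp_rw [h1]
  have h2 : ∫⁻ ξ : E 3, G (s • T3 ξ) = ∫⁻ z, G (s • z) :=
    T3_mp.lintegral_comp_emb T3.measurableEmbedding (fun z => G (s • z))
  rw [h2]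
  have hme : MeasurableEmbedding fun z : ℝ × ℝ × ℝ => s • z :=
    (Homeomorph.smulOfNeZero s hs0).toMeasurableEquiv.measurableEmbedding
  have i1 : (volume : Measure (ℝ × ℝ)).IsAddHaarMeasure := by
    rw [Measure.volume_eq_prod]; infer_instance
  have i2 : (volume : Measure (ℝ × ℝ × ℝ)).IsAddHaarMeasure := by
    rw [Measure.volume_eq_prod]; infer_instance
  have h5 := Measure.map_addHaar_smul (volume : Measure (ℝ × ℝ × ℝ)) hs0
  have h6 : ∫⁻ z, G z ∂(Measure.map (s • ·) (volume : Measure (ℝ × ℝ × ℝ))) = ∫⁻ z, G (s • z) :=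
    hme.lintegral_map G
  rw [← h6, h5, lintegral_smul_measure, smul_eq_mul]
  congr 2
  have hfr : Module.finrank ℝ (ℝ × ℝ × ℝ) = 3 := by simp
  rw [hfr, hs, ← inv_pow, abs_pow]
  congr 1
  rw [inv_neg, abs_neg, one_div, inv_inv, abs_of_pos (by positivity)]

end Pool.Agent.J6H76.TS
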