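import Mathlib
import Pool.Agent.J6H76.TS.Z
set_option autoImplicit false

/-! The estimate on the square. -/

namespace Pool.Agent.J6H76.TS

open MeasureTheory Complex Set Filter Topology
open scoped ENNReal NNReal ComplexConjugate Real RealInnerProductSpace
open Pool.Agent.R412.RT (E ee ee_norm ee_add ee_conj ee_meas ee_cont planch)

/-- the side of the square -/
def Iq : Set ℝ := Icc (-1 / 4) (1 / 4)

/-- Lebesgue measure on the side -/
noncomputable abbrev μI : Measure ℝ := volume.restrict Iq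

theorem Iq_meas : MeasurableSet Iq := measurableSet_Icc

theorem mem_Iq (x : ℝ) : x ∈ Iq ↔ |x| ≤ 1 / 4 := by
  unfold Iq
  rw [abs_le, mem_Icc]
  norm_num

theorem Jq_eq : (volume.restrict Jq : Measure ℝ) = μI := by
  unfold Jq μI Iq
  rw [show (-(1 / 4) : ℝ) = -1 / 4 by norm_num]
  exact Measure.restrict_congr_set Ioc_ae_eq_Icc

theorem μI_univ : μI univ ≤ 1 := by
  unfold μI Iq
  rw [Measure.restrict_apply_univ, Real.volume_Icc, ← ENNReal.ofReal_one]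
  exact ENNReal.ofReal_le_ofReal (by norm_num)

instance : IsFiniteMeasure μI := ⟨μI_univ.trans_lt ENNReal.one_lt_top⟩

/-- power means -/
theorem pm {Y : Type*} [MeasurableSpace Y] (μ : Measure Y) (hμ : μ univ ≤ 1) (h : Y → ℝ≥0∞)
    (hm : AEMeasurable h μ) (s : ℝ) (hs : 1 ≤ s) : (∫⁻ y, h y ∂μ) ^ s ≤ ∫⁻ y, h y ^ s ∂μ := by
  have hs0 : 0 < s := by linarith
  have h1 := ENNReal.lintegral_mul_norm_pow_le (μ := μ) (f := fun y => h y ^ s)
    (g := fun _ => 1) (hm.pow_const s) aemeasurable_const (p := 1 / s) (q := 1 - 1 / s)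
    (by positivity) (by
      rw [sub_nonneg, div_le_one hs0]
      exact hs) (by ring)
  have e1 : ∀ y, (h y ^ s) ^ (1 / s) * (1 : ℝ≥0∞) ^ (1 - 1 / s) = h y := by
    intro y
    rw [ENNReal.one_rpow, mul_one, ← ENNReal.rpow_mul, mul_one_div_cancel hs0.ne', ENNReal.rpow_one]
  simp_rw [e1] at h1
  rw [lintegral_const, one_mul] at h1
  have h2 : μ univ ^ (1 - 1 / s) ≤ 1 := by
    calc μ univ ^ (1 - 1 / s) ≤ 1 ^ (1 - 1 / s) := ENNReal.rpow_le_rpow hμ (by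
          rw [sub_nonneg, div_le_one hs0]
          exact hs)
      _ = 1 := ENNReal.one_rpow _
  have h3 : ∫⁻ y, h y ∂μ ≤ (∫⁻ y, h y ^ s ∂μ) ^ (1 / s) := by
    refine h1.trans ?_
    calc (∫⁻ y, h y ^ s ∂μ) ^ (1 / s) * μ univ ^ (1 - 1 / s)
        ≤ (∫⁻ y, h y ^ s ∂μ) ^ (1 / s) * 1 := mul_le_mul' le_rfl h2
      _ = _ := mul_one _
  refine (ENNReal.rpow_le_rpow h3 hs0.le).trans (le_of_eq ?_)
  rw [← ENNReal.rpow_mul, one_div_mul_cancel hs0.ne', ENNReal.rpow_one]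

/-- the mixed integral -/
noncomputable def Mq (q : ℝ) (f : E 2 → ℂ) : ℝ≥0∞ :=
  ∫⁻ x₁, (∫⁻ x₂, ‖f !₂[x₁, x₂]‖ₑ ^ 2 ∂μI) ^ (q / 2) ∂μI

/-- the spectral condition -/
def SpecIn (L : Set ℤ) (f : E 2 → ℂ) : Prop :=
  ∀ n ∉ L, ∀ᵐ x₁ ∂μI, ∫ x₂, cexp (-(4 * π * n * x₂ : ℝ) * I) * f !₂[x₁, x₂] ∂μI = 0

theorem T2Q : MeasurePreserving T2 (volume.restrict Q) (μI.prod μI) := by
  have h1 := T2_mp.restrict_preimage (Iq_meas.prod Iq_meas)
  have h2 : T2 ⁻¹' (Iq ×ˢ Iq) = Q := by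
    ext x
    simp only [mem_preimage, T2_apply, mem_prod, mem_Iq]
    rfl
  rw [h2, Measure.volume_eq_prod, ← Measure.prod_restrict] at h1
  exact h1

theorem ae_slice {f g : E 2 → ℂ} (h : f =ᵐ[volume.restrict Q] g) :
    ∀ᵐ x₁ ∂μI, ∀ᵐ x₂ ∂μI, f !₂[x₁, x₂] = g !₂[x₁, x₂] := by
  have h1 : ∀ᵐ p ∂(μI.prod μI), f (T2.symm p) = g (T2.symm p) :=
    (T2Q.symm).quasiMeasurePreserving.ae h
  have h2 := Measure.ae_ae_of_ae_prod h1
  filter_upwards [h2] with x hx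
  filter_upwards [hx] with y hy
  rwa [T2_symm] at hy

theorem Mq_congr (q : ℝ) {f g : E 2 → ℂ} (h : f =ᵐ[volume.restrict Q] g) : Mq q f = Mq q g := by
  unfold Mq
  refine lintegral_congr_ae ?_
  filter_upwards [ae_slice h] with x hx
  congr 1
  refine lintegral_congr_ae ?_
  filter_upwards [hx] with y hy
  rw [hy]

theorem SpecIn_congr {L : Set ℤ} {f g : E 2 → ℂ} (h : f =ᵐ[volume.restrict Q] g)
    (hf : SpecIn L f) : SpecIn L g := by
  intro n hn
  filter_upwards [ae_slice h, hf n hn] with x hx h2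
  rw [← h2]
  refine integral_congr_ae ?_
  filter_upwards [hx] with y hy
  rw [hy]

theorem ext_congr {f g : E 2 → ℂ} (h : f =ᵐ[volume.restrict Q] g) (ξ : E 3) :
    ext Q f ξ = ext Q g ξ := by
  unfold ext
  refine integral_congr_ae ?_
  filter_upwards [h] with y hy
  rw [hy]

section meas
variable {f : E 2 → ℂ} (hf : Measurable f)
include hf

theorem f_meas2 : Measurable fun p : ℝ × ℝ => f !₂[p.1, p.2] := by
  have h1 : Measurable fun p : ℝ × ℝ => f (T2.symm p) := hf.comp T2.symm.measurable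
  simp_rw [T2_symm] at h1
  exact h1

theorem f_measx (x : ℝ) : Measurable fun y : ℝ => f !₂[x, y] :=
  (f_meas2 hf).comp (by fun_prop : Measurable fun y : ℝ => ((x, y) : ℝ × ℝ))

theorem inner_meas (s : ℝ) : Measurable fun x₁ : ℝ => (∫⁻ x₂, ‖f !₂[x₁, x₂]‖ₑ ^ s ∂μI) :=
  ((f_meas2 hf).enorm.pow_const s).lintegral_prod_right'

theorem inner_meas2 : Measurable fun x₁ : ℝ => (∫⁻ x₂, ‖f !₂[x₁, x₂]‖ₑ ^ 2 ∂μI) :=
  ((f_meas2 hf).enorm.pow_const 2).lintegral_prod_right'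

theorem fq_meas : Measurable (fq f) := by
  unfold fq
  exact Measurable.ite fq_set (f_meas2 hf) measurable_const

/-- `L^q` in coordinates -/
theorem lq_coord (q : ℝ) : ∫⁻ x in Q, ‖f x‖ₑ ^ q = ∫⁻ x₁, ∫⁻ x₂, ‖f !₂[x₁, x₂]‖ₑ ^ q ∂μI ∂μI := by
  have h1 := T2Q.symm.lintegral_comp_emb T2.symm.measurableEmbedding (fun x => ‖f x‖ₑ ^ q)
  rw [← h1]
  simp_rw [T2_symm]
  exact lintegral_prod _ ((f_meas2 hf).enorm.pow_const q).aemeasurable

theorem Mq_le (q : ℝ) (hq : 2 ≤ q) : Mq q f ≤ ∫⁻ x in Q, ‖f x‖ₑ ^ q := by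
  rw [lq_coord hf]
  unfold Mq
  refine lintegral_mono fun x => ?_
  have h1 := pm μI μI_univ (fun y => ‖f !₂[x, y]‖ₑ ^ 2)
    ((f_measx hf x).enorm.pow_const 2).aemeasurable (q / 2) (by linarith)
  refine h1.trans (le_of_eq ?_)
  refine lintegral_congr fun y => ?_
  rw [← ENNReal.rpow_natCast, ← ENNReal.rpow_mul]
  congr 1
  push_cast
  ring

/-- the sup bound -/
theorem sup_bound (q : ℝ) (hq : 2 ≤ q) (ξ : E 3) : ‖ext Q f ξ‖ₑ ^ q ≤ Mq q f := by
  have h1 : ‖ext Q f ξ‖ₑ ≤ ∫⁻ x in Q, ‖f x‖ₑ := by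
    unfold ext
    refine (enorm_integral_le_lintegral_enorm _).trans (le_of_eq ?_)
    refine lintegral_congr fun x => ?_
    rw [enorm_mul]
    have : ‖Complex.exp (-((⟪Phi x, ξ⟫ : ℝ) : ℂ) * I)‖ₑ = 1 := by
      rw [← ofReal_norm, show (-((⟪Phi x, ξ⟫ : ℝ) : ℂ) * I) = ((-⟪Phi x, ξ⟫ : ℝ) : ℂ) * I by
        push_cast; ring, Complex.norm_exp_ofReal_mul_I, ENNReal.ofReal_one]
    rw [this, one_mul]
  have h2 : ∫⁻ x in Q, ‖f x‖ₑ = ∫⁻ x₁, ∫⁻ x₂, ‖f !₂[x₁, x₂]‖ₑ ∂μI ∂μI := by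
    have := lq_coord hf 1
    simpa using this
  have hm1 : Measurable fun x₁ : ℝ => (∫⁻ x₂, ‖f !₂[x₁, x₂]‖ₑ ∂μI) := by
    have := inner_meas hf 1
    simpa using this
  refine (ENNReal.rpow_le_rpow (h1.trans h2.le) (by linarith)).trans ?_
  refine (pm μI μI_univ _ hm1.aemeasurable q (by linarith)).trans ?_
  unfold Mq
  refine lintegral_mono fun x => ?_
  have h3 := cs1 μI μI_univ (fun y => ‖f !₂[x, y]‖ₑ) (f_measx hf x).enorm
  calc (∫⁻ x₂, ‖f !₂[x, x₂]‖ₑ ∂μI) ^ q = ((∫⁻ x₂, ‖f !₂[x, x₂]‖ₑ ∂μI) ^ 2) ^ (q / 2) := by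
        rw [← ENNReal.rpow_natCast, ← ENNReal.rpow_mul]
        congr 1
        push_cast
        ring
    _ ≤ _ := ENNReal.rpow_le_rpow h3 (by linarith)

/-- monotonicity of the mixed norms -/
theorem Mq_mono (q₁ q : ℝ) (h1 : 0 < q₁) (h2 : q₁ ≤ q) : Mq q₁ f ≤ Mq q f ^ (q₁ / q) := by
  have hq : 0 < q := by linarith
  have h3 := pm μI μI_univ (fun x₁ => (∫⁻ x₂, ‖f !₂[x₁, x₂]‖ₑ ^ 2 ∂μI) ^ (q₁ / 2))
    ((inner_meas2 hf).pow_const _).aemeasurable (q / q₁) (by rw [le_div_iff₀ h1]; linarith)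
  have e1 : ∀ x₁ : ℝ, ((∫⁻ x₂, ‖f !₂[x₁, x₂]‖ₑ ^ 2 ∂μI) ^ (q₁ / 2)) ^ (q / q₁) =
      (∫⁻ x₂, ‖f !₂[x₁, x₂]‖ₑ ^ 2 ∂μI) ^ (q / 2) := by
    intro x₁
    rw [← ENNReal.rpow_mul]
    congr 1
    field_simp
  simp_rw [e1] at h3
  have h4 : Mq q₁ f ^ (q / q₁) ≤ Mq q f := h3
  have h5 := ENNReal.rpow_le_rpow h4 (show 0 ≤ q₁ / q by positivity)
  rw [← ENNReal.rpow_mul] at h5
  have e2 : q / q₁ * (q₁ / q) = 1 := by field_simp
  rwa [e2, ENNReal.rpow_one] at h5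

omit hf in
/-- the coordinate form of the mixed integral -/
theorem Mq_fq (q : ℝ) (hq : 0 < q) :
    ∫⁻ x, (∫⁻ y in Jq, ‖fq f (x, y)‖ₑ ^ 2) ^ (q / 2) = Mq q f := by
  unfold Mq
  rw [Jq_eq, ← lintegral_indicator Iq_meas]
  refine lintegral_congr fun x => ?_
  by_cases hx : x ∈ Iq
  · rw [indicator_of_mem hx]
    congr 1
    rw [← Jq_eq]
    refine setLIntegral_congr_fun Jq_meas fun y hy => ?_
    unfold fq
    simp only
    rw [if_pos ⟨(mem_Iq x).1 hx, hy⟩]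
  · rw [indicator_of_notMem hx]
    have : ∀ y, fq f (x, y) = 0 := by
      intro y
      unfold fq
      rw [if_neg (fun h => hx ((mem_Iq x).2 h.1))]
    simp only [this, enorm_zero]
    rw [zero_pow two_ne_zero, lintegral_zero, ENNReal.zero_rpow_of_pos (by positivity)]

theorem fq_Dat (q : ℝ) (hq : 2 ≤ q) (hfin : Mq q f ≠ ∞) : Dat (fq f) := by
  have hm := fq_meas hf
  have hsx : ∀ x y, 1 / 4 < |x| → fq f (x, y) = 0 := by
    intro x y hx
    unfold fq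
    rw [if_neg (fun h => absurd h.1 (not_le.2 hx))]
  have hsy : ∀ x y, y ∉ Jq → fq f (x, y) = 0 := by
    intro x y hy
    unfold fq
    rw [if_neg (fun h => hy h.2)]
  have hI : ∀ x y, fq f (x, y) = 0 ∨ (x ∈ Iq ∧ y ∈ Jq) := by
    intro x y
    by_cases h : |x| ≤ 1 / 4 ∧ y ∈ Jq
    · exact Or.inr ⟨(mem_Iq x).2 h.1, h.2⟩
    · left
      unfold fq
      rw [if_neg h]
  -- the mass
  have h2 : ∫⁻ p : ℝ × ℝ, ‖fq f p‖ₑ ^ 2 ≤ 1 + Mq q f := by
    rw [Measure.volume_eq_prod, lintegral_prod _ (hm.enorm.pow_const 2).aemeasurable]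
    calc ∫⁻ x, ∫⁻ y, ‖fq f (x, y)‖ₑ ^ 2
        ≤ ∫⁻ x, (Iq.indicator (fun _ => 1) x + (∫⁻ y in Jq, ‖fq f (x, y)‖ₑ ^ 2) ^ (q / 2)) := by
          refine lintegral_mono fun x => ?_
          simp only
          have e1 : ∫⁻ y, ‖fq f (x, y)‖ₑ ^ 2 = ∫⁻ y in Jq, ‖fq f (x, y)‖ₑ ^ 2 := by
            rw [← lintegral_indicator Jq_meas]
            refine lintegral_congr fun y => ?_
            by_cases hy : y ∈ Jq
            · rw [indicator_of_mem hy]
            · rw [indicator_of_notMem hy, hsy x y hy]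
              simp
          rw [e1]
          by_cases hx : x ∈ Iq
          · rw [indicator_of_mem hx]
            rcases le_total (∫⁻ y in Jq, ‖fq f (x, y)‖ₑ ^ 2) 1 with h | h
            · exact h.trans le_self_add
            · refine le_trans ?_ le_add_self
              calc ∫⁻ y in Jq, ‖fq f (x, y)‖ₑ ^ 2
                  = (∫⁻ y in Jq, ‖fq f (x, y)‖ₑ ^ 2) ^ (1 : ℝ) := (ENNReal.rpow_one _).symm
                _ ≤ _ := ENNReal.rpow_le_rpow_of_exponent_le h (by linarith)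
          · have : ∀ y, fq f (x, y) = 0 := by
              intro y
              rcases hI x y with h | h
              · exact h
              · exact absurd h.1 hx
            simp [this]
      _ = (∫⁻ x, Iq.indicator (fun _ => 1) x) + Mq q f := by
          rw [lintegral_add_left (measurable_const.indicator Iq_meas), Mq_fq q (by linarith)]
      _ ≤ 1 + Mq q f := by
          refine add_le_add ?_ le_rfl
          rw [lintegral_indicator Iq_meas, lintegral_const, one_mul]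
          exact μI_univ
  have h2' : ∫⁻ p : ℝ × ℝ, ‖fq f p‖ₑ ^ 2 < ∞ :=
    h2.trans_lt (ENNReal.add_lt_top.2 ⟨ENNReal.one_lt_top, hfin.lt_top⟩)
  have hsq : Integrable fun p => ‖fq f p‖ ^ 2 := by
    refine ⟨(hm.norm.pow_const 2).aestronglyMeasurable, ?_⟩
    refine lt_of_le_of_lt (le_of_eq ?_) h2'
    refine lintegral_congr fun p => ?_
    rw [← ofReal_norm, Real.norm_of_nonneg (by positivity), ENNReal.ofReal_pow (norm_nonneg _),
      ofReal_norm]
  refine ⟨hm, ?_, hsq, hsx, hsy⟩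
  have hR : Integrable ((Iq ×ˢ Jq).indicator fun _ : ℝ × ℝ => (1 : ℝ)) := by
    rw [integrable_indicator_iff (Iq_meas.prod Jq_meas)]
    refine integrableOn_const ?_
    rw [Measure.volume_eq_prod, Measure.prod_prod]
    refine ENNReal.mul_ne_top ?_ ?_
    · unfold Iq; rw [Real.volume_Icc]; exact ENNReal.ofReal_ne_top
    · rw [Jq_vol]; exact ENNReal.ofReal_ne_top
  refine (hR.add hsq).mono hm.aestronglyMeasurable (Eventually.of_forall fun p => ?_)
  rw [Pi.add_apply, Real.norm_of_nonneg (add_nonneg (indicator_nonneg (fun _ _ => zero_le_one) _)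
    (by positivity))]
  rcases hI p.1 p.2 with h | h
  · rw [show p = (p.1, p.2) from rfl, h]
    simp only [norm_zero]
    exact add_nonneg (indicator_nonneg (fun _ _ => zero_le_one) _) (by positivity)
  · rw [indicator_of_mem (show p ∈ Iq ×ˢ Jq from h)]
    nlinarith [sq_nonneg (‖fq f p‖ - 1), norm_nonneg (fq f p)]

theorem fq_spec {L : Set ℤ} (hL : SpecIn L f) : ∀ n ∉ L, ∀ᵐ x : ℝ, cf (fq f) n x = 0 := by
  intro n hn
  have h1 := hL n hn
  rw [ae_restrict_iff' Iq_meas] at h1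
  filter_upwards [h1] with x hx
  unfold cf co
  by_cases hxI : x ∈ Iq
  · have h2 := hx hxI
    have h3 : ∫ y in Jq, ee (-(2 * n * y)) * fq f (x, y) =
        ∫ x₂, cexp (-(4 * π * n * x₂ : ℝ) * I) * f !₂[x, x₂] ∂μI := by
      rw [← Jq_eq]
      refine setIntegral_congr_fun Jq_meas fun y hy => ?_
      unfold fq
      rw [if_pos ⟨(mem_Iq x).1 hxI, hy⟩]
      congr 1
      unfold ee
      congr 1
      push_cast
      ring
    rw [h3, h2, mul_zero]
  · have : ∀ y, fq f (x, y) = 0 := by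
      intro y
      unfold fq
      rw [if_neg (fun h => hxI ((mem_Iq x).2 h.1))]
    simp only [this, mul_zero, integral_zero]

end meas

/-- the estimate for `q < 4` -/
theorem thin_low {L : Set ℤ} {κ' A : ℝ} (hL : LocL4 L κ' A) (hA : 0 ≤ A) (hκ : 0 ≤ κ')
    (r : ℝ) (hr1 : 1 < r) (hr2 : r < 2) (hγ : 2 - r < (1 - κ') * (r - 1)) :
    ∃ C : ℝ≥0∞, C ≠ ∞ ∧ ∀ f : E 2 → ℂ, Measurable f → SpecIn L f →
      ∫⁻ ξ, ‖ext Q f ξ‖ₑ ^ (2 * r) ≤ C * Mq (2 * r) f := by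
  refine ⟨ENNReal.ofReal ((2 * π) ^ 3) * (Cs κ' A r * 2 ^ r) + 1, ?_, ?_⟩
  · refine ENNReal.add_ne_top.2 ⟨ENNReal.mul_ne_top ENNReal.ofReal_ne_top
      (ENNReal.mul_ne_top (Cs_ne_top κ' A r hr1 hr2 hγ) ?_), ENNReal.one_ne_top⟩
    exact ENNReal.rpow_ne_top_of_nonneg (by linarith) (by norm_num)
  · intro f hf hsp
    by_cases hfin : Mq (2 * r) f = ∞
    · rw [hfin, ENNReal.mul_top (by simp)]
      exact le_top
    · have hD := fq_Dat hf (2 * r) (by linarith) hfin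
      rw [ext_lint f hD.int]
      have h1 := main_coord hL hA hκ r hr1 hr2 hγ hD (fq_spec hf hsp)
      have h2 : ∫⁻ x, (2 * ∫⁻ y in Jq, ‖fq f (x, y)‖ₑ ^ 2) ^ r = 2 ^ r * Mq (2 * r) f := by
        rw [← Mq_fq (2 * r) (by linarith), ← lintegral_const_mul' _ _
          (ENNReal.rpow_ne_top_of_nonneg (by linarith) (by norm_num))]
        refine lintegral_congr fun x => ?_
        rw [ENNReal.mul_rpow_of_nonneg _ _ (by linarith : 0 ≤ r)]
        congr 2
        ring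
      rw [h2] at h1
      calc ENNReal.ofReal ((2 * π) ^ 3) *
            ∫⁻ z : ℝ × ℝ × ℝ, ‖E2 (fq f) z.2.1 z.2.2 z.1‖ₑ ^ (2 * r)
          ≤ ENNReal.ofReal ((2 * π) ^ 3) * (Cs κ' A r * (2 ^ r * Mq (2 * r) f)) :=
            mul_le_mul' le_rfl h1
        _ = ENNReal.ofReal ((2 * π) ^ 3) * (Cs κ' A r * 2 ^ r) * Mq (2 * r) f := by ring
        _ ≤ _ := mul_le_mul' le_self_add le_rfl

/-- **the estimate in the full range** -/
theorem thin_all {L : Set ℤ} {κ' A : ℝ} (hL : LocL4 L κ' A) (hA : 0 ≤ A) (hκ : 0 ≤ κ')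
    (hκ1 : κ' < 1) (q : ℝ) (hq : 2 + 2 / (2 - κ') < q) :
    ∃ C : ℝ≥0∞, C ≠ ∞ ∧ ∀ f : E 2 → ℂ, Measurable f → SpecIn L f →
      ∫⁻ ξ, ‖ext Q f ξ‖ₑ ^ q ≤ C * Mq q f := by
  have h2κ : 0 < 2 - κ' := by linarith
  have hlt4 : 2 + 2 / (2 - κ') < 4 := by
    have : 2 / (2 - κ') < 2 := by
      rw [div_lt_iff₀ h2κ]
      linarith
    linarith
  have hge3 : 3 ≤ 2 + 2 / (2 - κ') := by
    have : 1 ≤ 2 / (2 - κ') := by
      rw [le_div_iff₀ h2κ]
      linarith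
    linarith
  have low : ∀ q : ℝ, 2 + 2 / (2 - κ') < q → q < 4 → ∃ C : ℝ≥0∞, C ≠ ∞ ∧ ∀ f : E 2 → ℂ,
      Measurable f → SpecIn L f → ∫⁻ ξ, ‖ext Q f ξ‖ₑ ^ q ≤ C * Mq q f := by
    intro q h1 h2
    have h3 : 2 / (2 - κ') < q - 2 := by linarith
    rw [div_lt_iff₀ h2κ] at h3
    have := thin_low hL hA hκ (q / 2) (by linarith) (by linarith) (by nlinarith)
    rwa [show 2 * (q / 2) = q by ring] at this
  rcases lt_or_ge q 4 with h4 | h4
  · exact low q hq h4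
  · obtain ⟨q₁, hq1, hq2⟩ := exists_between hlt4
    obtain ⟨C, hC, hmain⟩ := low q₁ hq1 hq2
    refine ⟨C + 1, ENNReal.add_ne_top.2 ⟨hC, ENNReal.one_ne_top⟩, fun f hf hsp => ?_⟩
    have hq0 : 0 < q := by linarith
    have hsup : ∀ ξ, ‖ext Q f ξ‖ₑ ^ (q - q₁) ≤ Mq q f ^ ((q - q₁) / q) := by
      intro ξ
      have h5 := ENNReal.rpow_le_rpow (sup_bound hf q (by linarith) ξ)
        (show 0 ≤ (q - q₁) / q by
          have : 0 ≤ q - q₁ := by linarith
          positivity)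
      rw [← ENNReal.rpow_mul] at h5
      rwa [show q * ((q - q₁) / q) = q - q₁ by field_simp] at h5
    by_cases hM : Mq q f = ∞
    · rw [hM, ENNReal.mul_top (by simp)]
      exact le_top
    · calc ∫⁻ ξ, ‖ext Q f ξ‖ₑ ^ q
          ≤ ∫⁻ ξ, Mq q f ^ ((q - q₁) / q) * ‖ext Q f ξ‖ₑ ^ q₁ := by
            refine lintegral_mono fun ξ => ?_
            simp only
            have : ‖ext Q f ξ‖ₑ ^ q = ‖ext Q f ξ‖ₑ ^ (q - q₁) * ‖ext Q f ξ‖ₑ ^ q₁ := by
              rw [← ENNReal.rpow_add_of_nonneg _ _ (by linarith) (by linarith)]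
              congr 1
              ring
            rw [this]
            exact mul_le_mul' (hsup ξ) le_rfl
        _ = Mq q f ^ ((q - q₁) / q) * ∫⁻ ξ, ‖ext Q f ξ‖ₑ ^ q₁ := by
            rw [lintegral_const_mul' _ _ (ENNReal.rpow_ne_top_of_nonneg
              (by
                have : 0 ≤ q - q₁ := by linarith
                positivity) hM)]
        _ ≤ Mq q f ^ ((q - q₁) / q) * (C * Mq q f ^ (q₁ / q)) := by
            refine mul_le_mul' le_rfl ((hmain f hf hsp).trans (mul_le_mul' le_rfl ?_))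
            exact Mq_mono hf q₁ q (by linarith) (by linarith)
        _ = C * Mq q f := by
            rw [mul_left_comm, ← ENNReal.rpow_add_of_nonneg _ _
              (by
                have : 0 ≤ q - q₁ := by linarith
                positivity)
              (by
                have : 0 ≤ q₁ := by linarith
                positivity)]
            rw [show (q - q₁) / q + q₁ / q = 1 by field_simp; ring, ENNReal.rpow_one]
        _ ≤ (C + 1) * Mq q f := mul_le_mul' le_self_add le_rfl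

end Pool.Agent.J6H76.TS
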