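import Mathlib
import Pool.Agent.J6H76.TS.Z2
import Pool.Agent.J6H76.TS.N
set_option autoImplicit false

/-! Random signs. -/

namespace Pool.Agent.J6H76.TS

open MeasureTheory Complex Set Filter Topology
open scoped ENNReal ComplexConjugate Real
open Pool.Agent.R412.RT (E ee ee_norm ee_add ee_conj ee_meas ee_cont planch)

open Classical in
/-- the sign `1` on `S` and `-1` off `S` -/
noncomputable def sg (S : Finset ℤ) (n : ℤ) : ℂ := if n ∈ S then 1 else -1

theorem sg_norm (S : Finset ℤ) (n : ℤ) : ‖sg S n‖ = 1 := by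
  unfold sg
  split_ifs <;> simp

theorem par4 (x a : ℂ) : ‖x - a‖ ^ 4 + ‖x + a‖ ^ 4 ≤
    2 * ‖x‖ ^ 4 + 12 * (‖x‖ ^ 2 * ‖a‖ ^ 2) + 2 * ‖a‖ ^ 4 := by
  have e : ∀ z : ℂ, ‖z‖ ^ 4 = (z.re ^ 2 + z.im ^ 2) ^ 2 := by
    intro z
    rw [show (4 : ℕ) = 2 * 2 by norm_num, pow_mul, ← Complex.normSq_eq_norm_sq,
      Complex.normSq_apply]
    ring
  have e' : ∀ z : ℂ, ‖z‖ ^ 2 = z.re ^ 2 + z.im ^ 2 := by
    intro z
    rw [← Complex.normSq_eq_norm_sq, Complex.normSq_apply]
    ring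
  rw [e, e, e, e, e', e']
  simp only [Complex.add_re, Complex.add_im, Complex.sub_re, Complex.sub_im]
  nlinarith [sq_nonneg (x.re * a.im - x.im * a.re)]

/-- second and fourth moments of random sums -/
theorem khin (F : Finset ℤ) (a : ℤ → ℂ) :
    ∑ S ∈ F.powerset, ‖∑ n ∈ F, sg S n * a n‖ ^ 2 = 2 ^ F.card * ∑ n ∈ F, ‖a n‖ ^ 2 ∧
    ∑ S ∈ F.powerset, ‖∑ n ∈ F, sg S n * a n‖ ^ 4 ≤
      2 ^ F.card * (3 * (∑ n ∈ F, ‖a n‖ ^ 2) ^ 2) := by
  classical
  induction F using Finset.induction_on with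
  | empty => simp
  | insert m F hm ih =>
    obtain ⟨ih2, ih4⟩ := ih
    have h1 : ∀ S ∈ F.powerset, ∑ n ∈ insert m F, sg S n * a n =
        (∑ n ∈ F, sg S n * a n) - a m := by
      intro S hS
      have hmS : m ∉ S := fun h => hm (Finset.mem_powerset.1 hS h)
      rw [Finset.sum_insert hm]
      have : sg S m = -1 := by unfold sg; rw [if_neg hmS]
      rw [this]
      ring
    have h2 : ∀ S ∈ F.powerset, ∑ n ∈ insert m F, sg (insert m S) n * a n =
        (∑ n ∈ F, sg S n * a n) + a m := by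
      intro S hS
      rw [Finset.sum_insert hm]
      have e1 : sg (insert m S) m = 1 := by
        unfold sg
        rw [if_pos (Finset.mem_insert_self m S)]
      have e2 : ∑ n ∈ F, sg (insert m S) n * a n = ∑ n ∈ F, sg S n * a n := by
        refine Finset.sum_congr rfl fun n hn => ?_
        congr 1
        unfold sg
        have : n ∈ insert m S ↔ n ∈ S := by
          rw [Finset.mem_insert]
          constructor
          · rintro (h | h)
            · exact absurd (h ▸ hn) hm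
            · exact h
          · exact Or.inr
        simp only [this]
      rw [e1, e2]
      ring
    have hcard : (2 : ℝ) ^ (insert m F).card = 2 * 2 ^ F.card := by
      rw [Finset.card_insert_of_notMem hm, pow_succ]
      ring
    have hp : ((F.powerset.card : ℕ) : ℝ) = 2 ^ F.card := by
      rw [Finset.card_powerset]
      push_cast
      rfl
    rw [Finset.sum_powerset_insert hm, Finset.sum_powerset_insert hm, Finset.sum_insert hm, hcard]
    rw [Finset.sum_congr rfl fun S hS => by rw [h1 S hS],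
      Finset.sum_congr (f := fun S => ‖∑ n ∈ insert m F, sg (insert m S) n * a n‖ ^ 2) rfl
        fun S hS => by rw [h2 S hS],
      Finset.sum_congr (f := fun S => ‖∑ n ∈ insert m F, sg S n * a n‖ ^ 4) rfl
        fun S hS => by rw [h1 S hS],
      Finset.sum_congr (f := fun S => ‖∑ n ∈ insert m F, sg (insert m S) n * a n‖ ^ 4) rfl
        fun S hS => by rw [h2 S hS]]
    constructor
    · rw [← Finset.sum_add_distrib]
      have e1 : ∀ S ∈ F.powerset, ‖(∑ n ∈ F, sg S n * a n) - a m‖ ^ 2 +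
          ‖(∑ n ∈ F, sg S n * a n) + a m‖ ^ 2 =
          2 * ‖∑ n ∈ F, sg S n * a n‖ ^ 2 + 2 * ‖a m‖ ^ 2 := by
        intro S _
        have := parallelogram_law_with_norm ℝ (∑ n ∈ F, sg S n * a n) (a m)
        nlinarith
      rw [Finset.sum_congr rfl e1, Finset.sum_add_distrib, ← Finset.mul_sum, ih2, Finset.sum_const,
        nsmul_eq_mul, hp]
      ring
    · rw [← Finset.sum_add_distrib]
      calc ∑ S ∈ F.powerset, (‖(∑ n ∈ F, sg S n * a n) - a m‖ ^ 4 +
            ‖(∑ n ∈ F, sg S n * a n) + a m‖ ^ 4)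
          ≤ ∑ S ∈ F.powerset, (2 * ‖∑ n ∈ F, sg S n * a n‖ ^ 4 +
              12 * (‖∑ n ∈ F, sg S n * a n‖ ^ 2 * ‖a m‖ ^ 2) + 2 * ‖a m‖ ^ 4) :=
            Finset.sum_le_sum fun S _ => par4 _ _
        _ = 2 * ∑ S ∈ F.powerset, ‖∑ n ∈ F, sg S n * a n‖ ^ 4 +
              12 * ((∑ S ∈ F.powerset, ‖∑ n ∈ F, sg S n * a n‖ ^ 2) * ‖a m‖ ^ 2) +
              2 ^ F.card * (2 * ‖a m‖ ^ 4) := by
            rw [Finset.sum_add_distrib, Finset.sum_add_distrib, ← Finset.mul_sum,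
              ← Finset.mul_sum, ← Finset.sum_mul, Finset.sum_const, nsmul_eq_mul, hp]
        _ ≤ 2 * (2 ^ F.card * (3 * (∑ n ∈ F, ‖a n‖ ^ 2) ^ 2)) +
              12 * ((2 ^ F.card * ∑ n ∈ F, ‖a n‖ ^ 2) * ‖a m‖ ^ 2) +
              2 ^ F.card * (2 * ‖a m‖ ^ 4) := by
            rw [ih2]
            linarith
        _ ≤ _ := by
            have h3 : (0 : ℝ) ≤ 2 ^ F.card := by positivity
            have h4 : 0 ≤ 2 ^ F.card * ‖a m‖ ^ 4 := by positivity
            nlinarith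

/-- moments of order at most four -/
theorem khin_r (F : Finset ℤ) (a : ℤ → ℂ) (r : ℝ) (hr1 : 0 < r) (hr2 : r ≤ 2) :
    ∑ S ∈ F.powerset, ‖∑ n ∈ F, sg S n * a n‖ ^ (2 * r) ≤
      2 ^ F.card * (6 * (∑ n ∈ F, ‖a n‖ ^ 2) ^ r) := by
  set σ : ℝ := ∑ n ∈ F, ‖a n‖ ^ 2 with hσ
  have hσ0 : 0 ≤ σ := Finset.sum_nonneg fun _ _ => by positivity
  have h4 := (khin F a).2
  rw [← hσ] at h4
  rcases hσ0.eq_or_lt with h0 | h0
  · have hz : ∀ n ∈ F, a n = 0 := by
      intro n hn
      have := (Finset.sum_eq_zero_iff_of_nonneg (fun i _ => by positivity)).1 (h0.symm : σ = 0) n hn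
      simpa using this
    have : ∀ S, ∑ n ∈ F, sg S n * a n = 0 := fun S =>
      Finset.sum_eq_zero fun n hn => by rw [hz n hn, mul_zero]
    simp only [this, norm_zero]
    rw [Real.zero_rpow (by positivity), Finset.sum_const_zero]
    positivity
  · set lam : ℝ := 3 * σ ^ 2 with hlam
    have hlam0 : 0 < lam := by positivity
    have hpt : ∀ x : ℝ, 0 ≤ x → x ^ (2 * r) ≤ lam ^ (r / 2) * (1 + x ^ 4 / lam) := by
      intro x hx
      have e1 : x ^ (2 * r) = lam ^ (r / 2) * (x ^ 4 / lam) ^ (r / 2) := by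
        rw [← Real.mul_rpow hlam0.le (by positivity), mul_div_cancel₀ _ hlam0.ne',
          ← Real.rpow_natCast, ← Real.rpow_mul hx]
        congr 1
        push_cast
        ring
      rw [e1]
      refine mul_le_mul_of_nonneg_left ?_ (by positivity)
      have hy : 0 ≤ x ^ 4 / lam := by positivity
      rcases le_total (x ^ 4 / lam) 1 with h | h
      · have := Real.rpow_le_one hy h (show 0 ≤ r / 2 by positivity)
        linarith
      · have := Real.rpow_le_rpow_of_exponent_le h (show r / 2 ≤ 1 by linarith)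
        rw [Real.rpow_one] at this
        linarith
    have hlamr : lam ^ (r / 2) ≤ 3 * σ ^ r := by
      rw [hlam, Real.mul_rpow (by norm_num) (by positivity), ← Real.rpow_natCast,
        ← Real.rpow_mul hσ0]
      have e : ((2 : ℕ) : ℝ) * (r / 2) = r := by push_cast; ring
      rw [e]
      refine mul_le_mul_of_nonneg_right ?_ (by positivity)
      calc (3 : ℝ) ^ (r / 2) ≤ 3 ^ (1 : ℝ) :=
            Real.rpow_le_rpow_of_exponent_le (by norm_num) (by linarith)
        _ = 3 := Real.rpow_one _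
    calc ∑ S ∈ F.powerset, ‖∑ n ∈ F, sg S n * a n‖ ^ (2 * r)
        ≤ ∑ S ∈ F.powerset, lam ^ (r / 2) * (1 + ‖∑ n ∈ F, sg S n * a n‖ ^ 4 / lam) :=
          Finset.sum_le_sum fun S _ => hpt _ (norm_nonneg _)
      _ = lam ^ (r / 2) * (2 ^ F.card + (∑ S ∈ F.powerset, ‖∑ n ∈ F, sg S n * a n‖ ^ 4) / lam) := by
          rw [← Finset.mul_sum, Finset.sum_add_distrib, Finset.sum_const, nsmul_eq_mul, mul_one,
            Finset.card_powerset, ← Finset.sum_div]
          push_cast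
          rfl
      _ ≤ lam ^ (r / 2) * (2 ^ F.card + (2 ^ F.card * lam) / lam) := by
          gcongr
      _ = 2 ^ F.card * (2 * lam ^ (r / 2)) := by
          field_simp
          ring
      _ ≤ 2 ^ F.card * (6 * σ ^ r) := by
          refine mul_le_mul_of_nonneg_left ?_ (by positivity)
          linarith

/-- Jensen's inequality -/
theorem jensen (F : Finset ℤ) (β g : ℤ → ℝ) (hβ : ∀ n, 0 ≤ β n) (hg : ∀ n, 0 ≤ g n) (r : ℝ)
    (hr : 1 ≤ r) :
    (∑ n ∈ F, β n * g n) ^ r ≤ (∑ n ∈ F, β n) ^ (r - 1) * ∑ n ∈ F, β n * g n ^ r := by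
  have hB : 0 ≤ ∑ n ∈ F, β n := Finset.sum_nonneg fun n _ => hβ n
  rcases hB.eq_or_lt with h0 | h0
  · have hz : ∀ n ∈ F, β n = 0 := fun n hn =>
      (Finset.sum_eq_zero_iff_of_nonneg (fun i _ => hβ i)).1 h0.symm n hn
    have : ∑ n ∈ F, β n * g n = 0 := Finset.sum_eq_zero fun n hn => by rw [hz n hn, zero_mul]
    rw [this, Real.zero_rpow (by linarith)]
    refine mul_nonneg (Real.rpow_nonneg hB _) (Finset.sum_nonneg fun n _ => ?_)
    exact mul_nonneg (hβ n) (Real.rpow_nonneg (hg n) _)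
  · set B : ℝ := ∑ n ∈ F, β n with hBd
    have h1 := Real.rpow_arith_mean_le_arith_mean_rpow F (fun n => β n / B) g
      (fun n _ => by have := hβ n; positivity) (by rw [← Finset.sum_div, div_self h0.ne'])
      (fun n _ => hg n) hr
    have e1 : ∑ n ∈ F, β n / B * g n = (∑ n ∈ F, β n * g n) / B := by
      rw [Finset.sum_div]
      exact Finset.sum_congr rfl fun n _ => by ring
    have e2 : ∑ n ∈ F, β n / B * g n ^ r = (∑ n ∈ F, β n * g n ^ r) / B := by
      rw [Finset.sum_div]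
      exact Finset.sum_congr rfl fun n _ => by ring
    rw [e1, e2, Real.div_rpow (Finset.sum_nonneg fun n _ => mul_nonneg (hβ n) (hg n)) h0.le,
      div_le_div_iff₀ (by positivity) h0] at h1
    rw [Real.rpow_sub_one h0.ne', div_mul_eq_mul_div, le_div_iff₀ h0, mul_comm (B ^ r)]
    exact h1

theorem single_locL4 (n : ℤ) : LocL4 {n} 0 1 := by
  have h : FewDiff {n} 0 0 := by
    intro k hk
    have : {m : ℤ | m ∈ ({n} : Set ℤ) ∧ m + k ∈ ({n} : Set ℤ)} = ∅ := by
      ext m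
      simp only [mem_singleton_iff, mem_ofPred_eq, mem_empty_iff_false, iff_false, not_and]
      intro h1 h2
      omega
    rw [this]
    simp
  have := fewDiff_locL4 le_rfl le_rfl h
  rwa [add_zero] at this

/-- the dispersive estimate for a single frequency -/
theorem hc_disp (n : ℤ) (r : ℝ) (hr1 : 1 ≤ r) (hr2 : r ≤ 2) (t : ℝ) :
    ∫⁻ η, ‖hc η t n‖ₑ ^ (2 * r) ≤
      Cf 0 1 r * ENNReal.ofReal (max 1 |t| ^ (-(r - 1))) := by
  have h1 := fixed (single_locL4 n) zero_le_one le_rfl r hr1 hr2 {n} (fun m hm => by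
    rw [Finset.mem_singleton] at hm
    exact hm) (fun _ => 1) t
  have h2 : Sb {n} (fun _ => (1 : ℂ)) = 1 := by
    unfold Sb
    simp
  rw [h2, Real.one_rpow, ENNReal.ofReal_one, mul_one, sub_zero, one_mul] at h1
  refine le_trans (le_of_eq ?_) h1
  refine lintegral_congr fun η => ?_
  congr 2
  unfold hc hh FT
  rw [← integral_indicator Jq_meas]
  refine integral_congr_ae (Eventually.of_forall fun y => ?_)
  simp only
  unfold uS
  by_cases hy : y ∈ Jq
  · rw [indicator_of_mem hy, if_pos ⟨hy.1, hy.2⟩, Finset.sum_singleton, ee_add]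
    ring
  · rw [indicator_of_notMem hy, if_neg (fun h => hy ⟨h.1, h.2⟩), mul_zero]

theorem hc_measη (n : ℤ) (t : ℝ) : Measurable fun η : ℝ => hc η t n := by
  unfold hc hh
  have : StronglyMeasurable (Function.uncurry fun (η : ℝ) (y : ℝ) =>
      ee (y * η + y ^ 2 * t) * ee (2 * n * y)) := by
    refine Measurable.stronglyMeasurable ?_
    exact (ee_meas.comp (by fun_prop)).mul (ee_meas.comp (by fun_prop))
  exact this.integral_prod_right.measurable

/-- the random estimate at a fixed time -/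
theorem random_fixed (F : Finset ℤ) (b : ℤ → ℂ) (r : ℝ) (hr1 : 1 ≤ r) (hr2 : r ≤ 2) (t : ℝ) :
    ∫⁻ η, ∑ S ∈ F.powerset, ‖∑ n ∈ F, sg S n * (b n * hc η t n)‖ₑ ^ (2 * r) ≤
      ENNReal.ofReal (2 ^ F.card * 6) * Cf 0 1 r * ENNReal.ofReal (max 1 |t| ^ (-(r - 1))) *
        ENNReal.ofReal ((∑ n ∈ F, ‖b n‖ ^ 2) ^ r) := by
  set B : ℝ := ∑ n ∈ F, ‖b n‖ ^ 2 with hB
  have hB0 : 0 ≤ B := Finset.sum_nonneg fun _ _ => by positivity
  have h1 : ∀ η, ∑ S ∈ F.powerset, ‖∑ n ∈ F, sg S n * (b n * hc η t n)‖ₑ ^ (2 * r) ≤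
      ENNReal.ofReal (2 ^ F.card * 6 * B ^ (r - 1)) *
        ∑ n ∈ F, ENNReal.ofReal (‖b n‖ ^ 2) * ‖hc η t n‖ₑ ^ (2 * r) := by
    intro η
    have e1 : ∑ S ∈ F.powerset, ‖∑ n ∈ F, sg S n * (b n * hc η t n)‖ₑ ^ (2 * r) =
        ENNReal.ofReal (∑ S ∈ F.powerset, ‖∑ n ∈ F, sg S n * (b n * hc η t n)‖ ^ (2 * r)) := by
      rw [ENNReal.ofReal_sum_of_nonneg fun _ _ => by positivity]
      refine Finset.sum_congr rfl fun S _ => ?_
      rw [← ofReal_norm, ENNReal.ofReal_rpow_of_nonneg (norm_nonneg _) (by linarith)]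
    have e2 : ∑ n ∈ F, ENNReal.ofReal (‖b n‖ ^ 2) * ‖hc η t n‖ₑ ^ (2 * r) =
        ENNReal.ofReal (∑ n ∈ F, ‖b n‖ ^ 2 * (‖hc η t n‖ ^ 2) ^ r) := by
      rw [ENNReal.ofReal_sum_of_nonneg fun _ _ => by positivity]
      refine Finset.sum_congr rfl fun n _ => ?_
      rw [ENNReal.ofReal_mul (by positivity), ← ofReal_norm,
        ENNReal.ofReal_rpow_of_nonneg (norm_nonneg _) (by linarith), ← Real.rpow_natCast (‖hc η t n‖),
        ← Real.rpow_mul (norm_nonneg _)]
      norm_num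
    rw [e1, e2, ← ENNReal.ofReal_mul (by positivity)]
    refine ENNReal.ofReal_le_ofReal ?_
    refine (khin_r F (fun n => b n * hc η t n) r (by linarith) hr2).trans ?_
    have h2 := jensen F (fun n => ‖b n‖ ^ 2) (fun n => ‖hc η t n‖ ^ 2) (fun n => by positivity)
      (fun n => by positivity) r hr1
    have h3 : ∑ n ∈ F, ‖b n * hc η t n‖ ^ 2 = ∑ n ∈ F, ‖b n‖ ^ 2 * ‖hc η t n‖ ^ 2 :=
      Finset.sum_congr rfl fun n _ => by rw [norm_mul, mul_pow]
    rw [h3]
    have h4 : (0 : ℝ) ≤ 2 ^ F.card * 6 := by positivity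
    have h5 := mul_le_mul_of_nonneg_left h2 h4
    rw [← hB] at h5
    linarith
  calc ∫⁻ η, ∑ S ∈ F.powerset, ‖∑ n ∈ F, sg S n * (b n * hc η t n)‖ₑ ^ (2 * r)
      ≤ ∫⁻ η, ENNReal.ofReal (2 ^ F.card * 6 * B ^ (r - 1)) *
        ∑ n ∈ F, ENNReal.ofReal (‖b n‖ ^ 2) * ‖hc η t n‖ₑ ^ (2 * r) := lintegral_mono h1
    _ = ENNReal.ofReal (2 ^ F.card * 6 * B ^ (r - 1)) *
        ∑ n ∈ F, ENNReal.ofReal (‖b n‖ ^ 2) * ∫⁻ η, ‖hc η t n‖ₑ ^ (2 * r) := by
        rw [lintegral_const_mul' _ _ ENNReal.ofReal_ne_top, lintegral_finsetSum _ fun n _ =>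
          ((hc_measη n t).enorm.pow_const (2 * r)).const_mul _]
        congr 1
        refine Finset.sum_congr rfl fun n _ => ?_
        rw [lintegral_const_mul' _ _ ENNReal.ofReal_ne_top]
    _ ≤ ENNReal.ofReal (2 ^ F.card * 6 * B ^ (r - 1)) *
        ∑ n ∈ F, ENNReal.ofReal (‖b n‖ ^ 2) *
          (Cf 0 1 r * ENNReal.ofReal (max 1 |t| ^ (-(r - 1)))) := by
        gcongr with n hn
        exact hc_disp n r hr1 hr2 t
    _ = _ := by
        rw [← Finset.sum_mul, ← ENNReal.ofReal_sum_of_nonneg fun _ _ => by positivity, ← hB]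
        have e1 : ENNReal.ofReal (B ^ r) = ENNReal.ofReal (B ^ (r - 1)) * ENNReal.ofReal B := by
          rw [← ENNReal.ofReal_mul (by positivity)]
          congr 1
          rcases hB0.eq_or_lt with h | h
          · rw [← h, mul_zero, Real.zero_rpow (by linarith)]
          · rw [Real.rpow_sub_one h.ne']
            field_simp
        rw [e1, ENNReal.ofReal_mul (by positivity : (0 : ℝ) ≤ 2 ^ F.card * 6)]
        ring

end Pool.Agent.J6H76.TS
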