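import Mathlib
import Pool.Agent.J6H76.TS.R
set_option autoImplicit false

/-! Random signs: the estimate on the square. -/

namespace Pool.Agent.J6H76.TS

open MeasureTheory Complex Set Filter Topology
open scoped ENNReal NNReal ComplexConjugate Real RealInnerProductSpace
open Pool.Agent.R412.RT (E ee ee_norm ee_add ee_conj ee_meas ee_cont planch)

/-- the series with signs -/
noncomputable def ser (F : Finset ℤ) (c : ℤ → ℝ → ℂ) (S : Finset ℤ) (x : E 2) : ℂ :=
  ∑ n ∈ F, sg S n * (c n (x 0) * cexp (4 * π * n * x 1 * I))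

theorem cexp_ee (n : ℤ) (y : ℝ) : cexp (4 * π * n * y * I) = ee (2 * n * y) := by
  unfold ee
  congr 1
  push_cast
  ring

theorem ser_coord (F : Finset ℤ) (c : ℤ → ℝ → ℂ) (S : Finset ℤ) (x y : ℝ) :
    ser F c S !₂[x, y] = ∑ n ∈ F, (sg S n * c n x) * ee (2 * n * y) := by
  unfold ser
  refine Finset.sum_congr rfl fun n _ => ?_
  have e0 : (!₂[x, y] : E 2) 0 = x := rfl
  have e1 : (!₂[x, y] : E 2) 1 = y := rfl
  rw [e0, e1, cexp_ee]
  ring

theorem ser_meas (F : Finset ℤ) {c : ℤ → ℝ → ℂ} (hc : ∀ n, Measurable (c n)) (S : Finset ℤ) :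
    Measurable (ser F c S) := by
  unfold ser
  refine Finset.measurable_sum _ fun n _ => Measurable.const_mul (Measurable.mul ?_ ?_) _
  · exact (hc n).comp (by fun_prop)
  · fun_prop

/-- the mixed integral of the series -/
theorem ser_Mq (q : ℝ) (F : Finset ℤ) (c : ℤ → ℝ → ℂ) (S : Finset ℤ) :
    Mq q (ser F c S) = ∫⁻ x, ENNReal.ofReal ((∑ n ∈ F, ‖c n x‖ ^ 2) / 2) ^ (q / 2) ∂μI := by
  unfold Mq
  refine lintegral_congr fun x => ?_
  congr 1
  simp_rw [ser_coord]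
  have h1 := poly_int' F (fun n => sg S n * c n x)
  have h2 : ∑ n ∈ F, ‖sg S n * c n x‖ ^ 2 = ∑ n ∈ F, ‖c n x‖ ^ 2 :=
    Finset.sum_congr rfl fun n _ => by rw [norm_mul, sg_norm, one_mul]
  rw [h2] at h1
  rw [← h1, ← Jq_eq, ofReal_integral_eq_lintegral_ofReal]
  · refine lintegral_congr fun y => ?_
    rw [ENNReal.ofReal_pow (norm_nonneg _), ofReal_norm]
  · exact ((memLp_poly F _).integrable_norm_pow two_ne_zero)
  · exact Eventually.of_forall fun y => by positivity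

open Classical in
/-- the truncated coefficients -/
noncomputable def ct (F : Finset ℤ) (c : ℤ → ℝ → ℂ) (n : ℤ) (x : ℝ) : ℂ :=
  if n ∈ F ∧ |x| ≤ 1 / 4 then c n x else 0

theorem ct_meas (F : Finset ℤ) {c : ℤ → ℝ → ℂ} (hc : ∀ n, Measurable (c n)) (n : ℤ) :
    Measurable (ct F c n) := by
  unfold ct
  refine Measurable.ite ?_ (hc n) measurable_const
  have h1 : MeasurableSet {x : ℝ | |x| ≤ 1 / 4} :=
    measurableSet_le (by fun_prop) measurable_const
  by_cases hn : n ∈ F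
  · simpa [hn] using h1
  · simp [hn]

theorem ct_Adm (q : ℝ) (hq : 2 ≤ q) (F : Finset ℤ) {c : ℤ → ℝ → ℂ} (hc : ∀ n, Measurable (c n))
    (hfin : Mq q (ser F c F) ≠ ∞) : Adm (ct F c) := by
  refine ⟨ct_meas F hc, fun n => ?_, fun n x hx => ?_⟩
  · refine ⟨(ct_meas F hc n).aestronglyMeasurable, ?_⟩
    by_cases hn : n ∈ F
    · have h1 : ∫⁻ x, ‖ct F c n x‖ₑ ≤ ∫⁻ x, (3 + 2 *
          ENNReal.ofReal ((∑ n ∈ F, ‖c n x‖ ^ 2) / 2) ^ (q / 2)) ∂μI := by
        rw [← lintegral_indicator Iq_meas]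
        refine lintegral_mono fun x => ?_
        simp only
        by_cases hx : x ∈ Iq
        · rw [indicator_of_mem hx]
          unfold ct
          rw [if_pos ⟨hn, (mem_Iq x).1 hx⟩]
          have e1 : ‖c n x‖ ≤ 1 + 2 * ((∑ n ∈ F, ‖c n x‖ ^ 2) / 2) := by
            have : ‖c n x‖ ^ 2 ≤ ∑ n ∈ F, ‖c n x‖ ^ 2 :=
              Finset.single_le_sum (f := fun n => ‖c n x‖ ^ 2) (fun i _ => by positivity) hn
            nlinarith [sq_nonneg (‖c n x‖ - 1), norm_nonneg (c n x)]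
          set s : ℝ := (∑ n ∈ F, ‖c n x‖ ^ 2) / 2 with hs
          have hs0 : 0 ≤ s := by
            rw [hs]
            have : 0 ≤ ∑ n ∈ F, ‖c n x‖ ^ 2 := Finset.sum_nonneg fun _ _ => by positivity
            positivity
          have e2 : s ≤ 1 + s ^ (q / 2) := by
            rcases le_total s 1 with h | h
            · have : 0 ≤ s ^ (q / 2) := by positivity
              linarith
            · have := Real.rpow_le_rpow_of_exponent_le h (show 1 ≤ q / 2 by linarith)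
              rw [Real.rpow_one] at this
              linarith
          rw [ENNReal.ofReal_rpow_of_nonneg hs0 (by linarith), ← ofReal_norm]
          have e3 : (3 : ℝ≥0∞) + 2 * ENNReal.ofReal (s ^ (q / 2)) =
              ENNReal.ofReal (3 + 2 * s ^ (q / 2)) := by
            rw [ENNReal.ofReal_add (by norm_num) (by positivity), ENNReal.ofReal_mul (by norm_num)]
            norm_num
          rw [e3]
          refine ENNReal.ofReal_le_ofReal ?_
          linarith
        · rw [indicator_of_notMem hx]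
          unfold ct
          rw [if_neg (fun h => hx ((mem_Iq x).2 h.2))]
          simp
      refine h1.trans_lt ?_
      rw [lintegral_add_left measurable_const, lintegral_const_mul' _ _ (by norm_num),
        ← ser_Mq q F c F, lintegral_const]
      refine ENNReal.add_lt_top.2 ⟨ENNReal.mul_lt_top (by norm_num)
        (μI_univ.trans_lt ENNReal.one_lt_top), ENNReal.mul_lt_top (by norm_num) hfin.lt_top⟩
    · have : ∀ x, ct F c n x = 0 := fun x => by
        unfold ct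
        rw [if_neg (fun h => hn h.1)]
      simp [HasFiniteIntegral, this]
  · unfold ct
    rw [if_neg (fun h => absurd h.2 (not_le.2 (by linarith)))]

theorem fq_ser (F : Finset ℤ) (c : ℤ → ℝ → ℂ) (S : Finset ℤ) (p : ℝ × ℝ) :
    fq (ser F c S) p = ∑ n ∈ F, sg S n * (ct F c n p.1 * Jq.indicator (fun y => ee (2 * n * y)) p.2) := by
  unfold fq
  by_cases h : |p.1| ≤ 1 / 4 ∧ p.2 ∈ Jq
  · rw [if_pos h, ser_coord]
    refine Finset.sum_congr rfl fun n hn => ?_
    rw [indicator_of_mem h.2]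
    unfold ct
    rw [if_pos ⟨hn, h.1⟩]
    ring
  · rw [if_neg h]
    refine (Finset.sum_eq_zero fun n hn => ?_).symm
    by_cases h1 : |p.1| ≤ 1 / 4
    · have h2 : p.2 ∉ Jq := fun h2 => h ⟨h1, h2⟩
      rw [indicator_of_notMem h2]
      ring
    · unfold ct
      rw [if_neg (fun h => h1 h.2)]
      ring

theorem fq_ser_int (F : Finset ℤ) {c : ℤ → ℝ → ℂ} (hA : Adm (ct F c)) (S : Finset ℤ) :
    Integrable (fq (ser F c S)) := by
  have h1 : fq (ser F c S) = fun p : ℝ × ℝ => ∑ n ∈ F, sg S n *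
      (ct F c n p.1 * Jq.indicator (fun y => ee (2 * n * y)) p.2) := by
    ext p
    exact fq_ser F c S p
  rw [h1]
  refine integrable_finsetSum _ fun n _ => Integrable.const_mul ?_ _
  have h2 : Integrable (Jq.indicator fun y : ℝ => ee (2 * n * y)) := by
    rw [integrable_indicator_iff Jq_meas]
    have : IsFiniteMeasure (volume.restrict Jq) := ⟨by
      rw [Measure.restrict_apply_univ, Jq_vol]; exact ENNReal.ofReal_lt_top⟩
    refine Integrable.of_bound (ee_cont.comp (by fun_prop)).aestronglyMeasurable 1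
      (Eventually.of_forall fun y => (ee_norm _).le)
  exact (hA.int n).mul_prod h2

theorem E2_ser (F : Finset ℤ) {c : ℤ → ℝ → ℂ} (hA : Adm (ct F c)) (S : Finset ℤ) (ξ η t : ℝ) :
    E2 (fq (ser F c S)) ξ η t = ∑ n ∈ F, sg S n * (E1 (ct F c n) ξ t * hc η t n) := by
  have : IsFiniteMeasure (volume.restrict Jq) := ⟨by
    rw [Measure.restrict_apply_univ, Jq_vol]; exact ENNReal.ofReal_lt_top⟩
  unfold E2
  have h1 : ∀ x, ∫ y in Jq, ee (y * η + y ^ 2 * t) * fq (ser F c S) (x, y) =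
      ∑ n ∈ F, sg S n * (ct F c n x * hc η t n) := by
    intro x
    have e1 : ∀ y ∈ Jq, ee (y * η + y ^ 2 * t) * fq (ser F c S) (x, y) =
        ∑ n ∈ F, (sg S n * ct F c n x) * (ee (y * η + y ^ 2 * t) * ee (2 * n * y)) := by
      intro y hy
      rw [fq_ser, Finset.mul_sum]
      refine Finset.sum_congr rfl fun n _ => ?_
      simp only
      rw [indicator_of_mem hy]
      ring
    rw [setIntegral_congr_fun Jq_meas e1, integral_finsetSum]
    · refine Finset.sum_congr rfl fun n _ => ?_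
      rw [integral_const_mul]
      unfold hc hh
      ring
    · intro n _
      refine Integrable.const_mul ?_ _
      refine Integrable.of_bound ?_ 1 (Eventually.of_forall fun y => ?_)
      · exact ((ee_cont.comp (by fun_prop)).mul (ee_cont.comp (by fun_prop))).aestronglyMeasurable
      · rw [norm_mul, ee_norm, ee_norm, mul_one]
  simp_rw [h1]
  have h2 : ∀ x, ee (x * ξ + x ^ 2 * t) * ∑ n ∈ F, sg S n * (ct F c n x * hc η t n) =
      ∑ n ∈ F, (ee (x * ξ + x ^ 2 * t) * ct F c n x) * (sg S n * hc η t n) := by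
    intro x
    rw [Finset.mul_sum]
    refine Finset.sum_congr rfl fun n _ => ?_
    ring
  simp_rw [h2]
  rw [integral_finsetSum]
  · refine Finset.sum_congr rfl fun n _ => ?_
    rw [integral_mul_const]
    unfold E1
    ring
  · intro n _
    refine Integrable.mul_const ?_ _
    refine (hA.int n).bdd_mul (c := 1) ?_ (Eventually.of_forall fun u => (ee_norm _).le)
    exact (ee_meas.comp (by fun_prop)).aestronglyMeasurable

theorem ser_term_meas (F : Finset ℤ) {c : ℤ → ℝ → ℂ} (hA : Adm c) (S : Finset ℤ) :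
    Measurable fun z : ℝ × ℝ × ℝ => ∑ n ∈ F, sg S n * (E1 (c n) z.2.1 z.1 * hc z.2.2 z.1 n) :=
  Finset.measurable_sum _ fun n _ => (term_meas3 (c n) (hA.meas n) n).const_mul _

/-- the constant -/
noncomputable def Kr (r : ℝ) : ℝ≥0∞ :=
  ENNReal.ofReal ((2 * π) ^ 3) * (6 * Cf 0 1 r * (∑' j : ℕ, ENNReal.ofReal (bj (r - 1) r j)) * 2 ^ r)

theorem Kr_ne_top (r : ℝ) (hr1 : 3 / 2 < r) (hr2 : r < 2) : Kr r ≠ ∞ := by
  unfold Kr
  refine ENNReal.mul_ne_top ENNReal.ofReal_ne_top (ENNReal.mul_ne_top (ENNReal.mul_ne_top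
    (ENNReal.mul_ne_top (by norm_num) (Cf_ne_top 0 1 r (by linarith)))
    (bj_sum (r - 1) r (by linarith) hr2 (by linarith))) ?_)
  exact ENNReal.rpow_ne_top_of_nonneg (by linarith) (by norm_num)

theorem random_low (r : ℝ) (hr1 : 3 / 2 < r) (hr2 : r < 2) (F : Finset ℤ) {c : ℤ → ℝ → ℂ}
    (hcm : ∀ n, Measurable (c n)) (hfin : Mq (2 * r) (ser F c F) ≠ ∞) :
    ∑ S ∈ F.powerset, ∫⁻ ξ, ‖ext Q (ser F c S) ξ‖ₑ ^ (2 * r) ≤
      Kr r * 2 ^ F.card * Mq (2 * r) (ser F c F) := by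
  have hA := ct_Adm (2 * r) (by linarith) F hcm hfin
  have h1 : ∀ S, ∫⁻ ξ, ‖ext Q (ser F c S) ξ‖ₑ ^ (2 * r) = ENNReal.ofReal ((2 * π) ^ 3) *
      ∫⁻ z : ℝ × ℝ × ℝ, ‖∑ n ∈ F, sg S n * (E1 (ct F c n) z.2.1 z.1 * hc z.2.2 z.1 n)‖ₑ ^ (2 * r) := by
    intro S
    rw [ext_lint _ (fq_ser_int F hA S)]
    simp_rw [E2_ser F hA S]
  simp_rw [h1]
  rw [← Finset.mul_sum]
  set G : ℝ × ℝ × ℝ → ℝ≥0∞ := fun z => ∑ S ∈ F.powerset,
    ‖∑ n ∈ F, sg S n * (E1 (ct F c n) z.2.1 z.1 * hc z.2.2 z.1 n)‖ₑ ^ (2 * r) with hG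
  have hGm : Measurable G :=
    Finset.measurable_sum _ fun S _ => (ser_term_meas F hA S).enorm.pow_const (2 * r)
  have h2 : ∑ S ∈ F.powerset, ∫⁻ z : ℝ × ℝ × ℝ,
      ‖∑ n ∈ F, sg S n * (E1 (ct F c n) z.2.1 z.1 * hc z.2.2 z.1 n)‖ₑ ^ (2 * r) = ∫⁻ z, G z :=
    (lintegral_finsetSum _ fun S _ => (ser_term_meas F hA S).enorm.pow_const (2 * r)).symm
  have h3 : ∫⁻ z, G z = ∫⁻ t, ∫⁻ ξ, ∫⁻ η, G (t, ξ, η) := by
    rw [Measure.volume_eq_prod, lintegral_prod _ hGm.aemeasurable]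
    refine lintegral_congr fun t => ?_
    have h2 : Measurable fun p : ℝ × ℝ => G (t, p) := hGm.comp (by fun_prop)
    rw [Measure.volume_eq_prod, lintegral_prod _ h2.aemeasurable]
  have h4 := dyadic_sum (r - 1) r (by linarith) (by linarith) hr2 F hA
    (fun t ξ => ∫⁻ η, G (t, ξ, η)) (ENNReal.ofReal (2 ^ F.card * 6) * Cf 0 1 r)
    (ENNReal.mul_ne_top ENNReal.ofReal_ne_top (Cf_ne_top 0 1 r (by linarith)))
    (fun t ξ => random_fixed F (fun n => E1 (ct F c n) ξ t) r (by linarith) hr2.le t)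
  have h5 : ∫⁻ x, ENNReal.ofReal (NN F (ct F c) x ^ r) = 2 ^ r * Mq (2 * r) (ser F c F) := by
    rw [ser_Mq (2 * r) F c F, ← lintegral_const_mul' _ _
      (ENNReal.rpow_ne_top_of_nonneg (by linarith) (by norm_num)),
      ← lintegral_indicator Iq_meas]
    refine lintegral_congr fun x => ?_
    by_cases hx : x ∈ Iq
    · rw [indicator_of_mem hx]
      have e1 : NN F (ct F c) x = ∑ n ∈ F, ‖c n x‖ ^ 2 := by
        unfold NN ct
        refine Finset.sum_congr rfl fun n hn => ?_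
        rw [if_pos ⟨hn, (mem_Iq x).1 hx⟩]
      have e0 : 0 ≤ ∑ n ∈ F, ‖c n x‖ ^ 2 := Finset.sum_nonneg fun _ _ => by positivity
      rw [e1, show 2 * r / 2 = r by ring, ← ENNReal.mul_rpow_of_nonneg _ _ (by linarith : 0 ≤ r),
        ← ENNReal.ofReal_rpow_of_nonneg e0 (by linarith)]
      congr 1
      rw [← ENNReal.ofReal_ofNat, ← ENNReal.ofReal_mul (by norm_num)]
      congr 1
      ring
    · rw [indicator_of_notMem hx]
      have e1 : NN F (ct F c) x = 0 := by
        unfold NN ct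
        refine Finset.sum_eq_zero fun n hn => ?_
        rw [if_neg (fun h => hx ((mem_Iq x).2 h.2))]
        simp
      rw [e1, Real.zero_rpow (by linarith), ENNReal.ofReal_zero]
  rw [h2, h3]
  calc ENNReal.ofReal ((2 * π) ^ 3) * ∫⁻ t, ∫⁻ ξ, ∫⁻ η, G (t, ξ, η)
      ≤ ENNReal.ofReal ((2 * π) ^ 3) * (ENNReal.ofReal (2 ^ F.card * 6) * Cf 0 1 r *
          (∑' j : ℕ, ENNReal.ofReal (bj (r - 1) r j)) * (2 ^ r * Mq (2 * r) (ser F c F))) := by
        rw [← h5]
        exact mul_le_mul' le_rfl h4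
    _ = Kr r * 2 ^ F.card * Mq (2 * r) (ser F c F) := by
        have e6 : ENNReal.ofReal (2 ^ F.card * 6) = 2 ^ F.card * 6 := by
          rw [ENNReal.ofReal_mul (by positivity), ENNReal.ofReal_pow (by norm_num)]
          simp
        unfold Kr
        rw [e6]
        ring

/-- **random signs, all `q > 3`** -/
theorem random_all (q : ℝ) (hq : 3 < q) : ∃ C : ℝ≥0∞, C ≠ ∞ ∧ ∀ (F : Finset ℤ) (c : ℤ → ℝ → ℂ),
    (∀ n, Measurable (c n)) →
    ∑ S ∈ F.powerset, ∫⁻ ξ, ‖ext Q (ser F c S) ξ‖ₑ ^ q ≤ C * 2 ^ F.card * Mq q (ser F c F) := by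
  have low : ∀ q : ℝ, 3 < q → q < 4 → ∃ C : ℝ≥0∞, C ≠ ∞ ∧ C ≠ 0 ∧ ∀ (F : Finset ℤ)
      (c : ℤ → ℝ → ℂ), (∀ n, Measurable (c n)) → Mq q (ser F c F) ≠ ∞ →
      ∑ S ∈ F.powerset, ∫⁻ ξ, ‖ext Q (ser F c S) ξ‖ₑ ^ q ≤ C * 2 ^ F.card * Mq q (ser F c F) := by
    intro q h1 h2
    refine ⟨Kr (q / 2) + 1, ENNReal.add_ne_top.2 ⟨Kr_ne_top _ (by linarith) (by linarith),
      ENNReal.one_ne_top⟩, by simp, fun F c hcm hfin => ?_⟩
    have e : 2 * (q / 2) = q := by ring
    have := random_low (q / 2) (by linarith) (by linarith) F hcm (by rwa [e])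
    rw [e] at this
    refine this.trans ?_
    gcongr
    exact le_self_add
  have h2F : ∀ F : Finset ℤ, (2 : ℝ≥0∞) ^ F.card ≠ 0 := fun F => pow_ne_zero _ two_ne_zero
  rcases lt_or_ge q 4 with h4 | h4
  · obtain ⟨C, hC, hC0, hmain⟩ := low q hq h4
    refine ⟨C, hC, fun F c hcm => ?_⟩
    by_cases hM : Mq q (ser F c F) = ∞
    · rw [hM, ENNReal.mul_top (mul_ne_zero hC0 (h2F F))]
      exact le_top
    · exact hmain F c hcm hM
  · obtain ⟨q₁, hq1, hq2⟩ := exists_between (show (3 : ℝ) < 4 by norm_num)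
    obtain ⟨C, hC, hC0, hmain⟩ := low q₁ hq1 hq2
    refine ⟨C, hC, fun F c hcm => ?_⟩
    by_cases hM : Mq q (ser F c F) = ∞
    · rw [hM, ENNReal.mul_top (mul_ne_zero hC0 (h2F F))]
      exact le_top
    have hq0 : 0 < q := by linarith
    have hqq : 0 ≤ (q - q₁) / q := by
      have : 0 ≤ q - q₁ := by linarith
      positivity
    have hMS : ∀ S, Mq q (ser F c S) = Mq q (ser F c F) := fun S => by
      rw [ser_Mq, ser_Mq]
    have hsup : ∀ S ξ, ‖ext Q (ser F c S) ξ‖ₑ ^ (q - q₁) ≤ Mq q (ser F c F) ^ ((q - q₁) / q) := by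
      intro S ξ
      have h5 := ENNReal.rpow_le_rpow (sup_bound (ser_meas F hcm S) q (by linarith) ξ) hqq
      rw [← ENNReal.rpow_mul, hMS] at h5
      rwa [show q * ((q - q₁) / q) = q - q₁ by field_simp] at h5
    have hmono := Mq_mono (ser_meas F hcm F) q₁ q (by linarith) (by linarith)
    have hM1 : Mq q₁ (ser F c F) ≠ ∞ :=
      ne_top_of_le_ne_top (ENNReal.rpow_ne_top_of_nonneg (by
        have : 0 ≤ q₁ := by linarith
        positivity) hM) hmono
    calc ∑ S ∈ F.powerset, ∫⁻ ξ, ‖ext Q (ser F c S) ξ‖ₑ ^ q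
        ≤ ∑ S ∈ F.powerset, Mq q (ser F c F) ^ ((q - q₁) / q) *
            ∫⁻ ξ, ‖ext Q (ser F c S) ξ‖ₑ ^ q₁ := by
          refine Finset.sum_le_sum fun S _ => ?_
          rw [← lintegral_const_mul' _ _ (ENNReal.rpow_ne_top_of_nonneg hqq hM)]
          refine lintegral_mono fun ξ => ?_
          simp only
          have : ‖ext Q (ser F c S) ξ‖ₑ ^ q =
              ‖ext Q (ser F c S) ξ‖ₑ ^ (q - q₁) * ‖ext Q (ser F c S) ξ‖ₑ ^ q₁ := by
            rw [← ENNReal.rpow_add_of_nonneg _ _ (by linarith) (by linarith)]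
            congr 1
            ring
          rw [this]
          exact mul_le_mul' (hsup S ξ) le_rfl
      _ = Mq q (ser F c F) ^ ((q - q₁) / q) *
            ∑ S ∈ F.powerset, ∫⁻ ξ, ‖ext Q (ser F c S) ξ‖ₑ ^ q₁ := by rw [Finset.mul_sum]
      _ ≤ Mq q (ser F c F) ^ ((q - q₁) / q) *
            (C * 2 ^ F.card * Mq q (ser F c F) ^ (q₁ / q)) :=
          mul_le_mul' le_rfl ((hmain F c hcm hM1).trans (mul_le_mul' le_rfl hmono))
      _ = C * 2 ^ F.card * Mq q (ser F c F) := by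
          rw [mul_left_comm, ← ENNReal.rpow_add_of_nonneg _ _ hqq (by
            have : 0 ≤ q₁ := by linarith
            positivity), show (q - q₁) / q + q₁ / q = 1 by field_simp; ring, ENNReal.rpow_one]

end Pool.Agent.J6H76.TS
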