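import Mathlib
import Pool.Agent.J6H76.TS.R2
set_option autoImplicit false

/-! Few frequencies. -/

namespace Pool.Agent.J6H76.TS

open MeasureTheory Complex Set Filter Topology
open scoped ENNReal ComplexConjugate Real
open Pool.Agent.R412.RT (E ee ee_norm ee_add ee_conj ee_meas ee_cont planch)

/-- the estimate without decay -/
theorem fixed0 (r : ℝ) (hr1 : 1 ≤ r) (F : Finset ℤ) (b : ℤ → ℂ) (t : ℝ) :
    ∫⁻ η, ‖FT (uS F b t) η‖ₑ ^ (2 * r) ≤ ENNReal.ofReal (Sb F b ^ r) := by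
  have hS := Sb_nonneg F b
  have hSr : ENNReal.ofReal (Sb F b ^ r) = ENNReal.ofReal (Sb F b) ^ r := by
    rw [ENNReal.ofReal_rpow_of_nonneg hS (by linarith)]
  have h1 : ∀ η, ‖FT (uS F b t) η‖ₑ ^ (2 * r) =
      (‖FT (uS F b t) η‖ₑ ^ 2) ^ (r - 1) * ‖FT (uS F b t) η‖ₑ ^ 2 := by
    intro η
    rw [← ENNReal.rpow_natCast, ← ENNReal.rpow_mul,
      ← ENNReal.rpow_add_of_nonneg _ _ (by push_cast; nlinarith) (by norm_num)]
    congr 1
    push_cast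
    ring
  calc ∫⁻ η, ‖FT (uS F b t) η‖ₑ ^ (2 * r)
      ≤ ∫⁻ η, ENNReal.ofReal (Sb F b) ^ (r - 1) * ‖FT (uS F b t) η‖ₑ ^ 2 := by
        refine lintegral_mono fun η => ?_
        rw [h1]
        exact mul_le_mul' (ENNReal.rpow_le_rpow (FT_sup F b t η) (by linarith)) le_rfl
    _ = ENNReal.ofReal (Sb F b) ^ (r - 1) * ∫⁻ η, ‖FT (uS F b t) η‖ₑ ^ 2 := by
        rw [lintegral_const_mul' _ _
          (ENNReal.rpow_ne_top_of_nonneg (by linarith) ENNReal.ofReal_ne_top)]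
    _ ≤ ENNReal.ofReal (Sb F b) ^ (r - 1) * ENNReal.ofReal (Sb F b) :=
        mul_le_mul' le_rfl (FT_l2 F b t)
    _ = ENNReal.ofReal (Sb F b ^ r) := by
        rw [hSr]
        nth_rewrite 2 [← ENNReal.rpow_one (ENNReal.ofReal (Sb F b))]
        rw [← ENNReal.rpow_add_of_nonneg _ _ (by linarith) (by norm_num)]
        congr 1
        ring

/-- the local `L⁴` bound by the number of frequencies -/
theorem card_locL4 (F : Finset ℤ) (A : ℝ) (hcard : (F.card : ℝ) ≤ A) :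
    LocL4 (F : Set ℤ) 0 A := by
  intro a N hN F' b hF'
  have hsub : F' ⊆ F := fun n hn => (hF' n hn).1
  have hA : (F'.card : ℝ) ≤ A := le_trans (by exact_mod_cast Finset.card_le_card hsub) hcard
  have hc : Continuous fun x : ℝ => ∑ n ∈ F', b n * ee (n * x) :=
    continuous_finsetSum _ fun n _ => continuous_const.mul (ee_cont.comp (by fun_prop))
  have h1 : ∀ x : ℝ, ‖∑ n ∈ F', b n * ee (n * x)‖ ^ 4 ≤
      (A * ∑ n ∈ F', ‖b n‖ ^ 2) * ‖∑ n ∈ F', b n * ee (n * x)‖ ^ 2 := by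
    intro x
    rw [show (4 : ℕ) = 2 + 2 by norm_num, pow_add]
    refine mul_le_mul_of_nonneg_right ?_ (by positivity)
    have e1 : ‖∑ n ∈ F', b n * ee (n * x)‖ ≤ ∑ n ∈ F', ‖b n‖ := by
      refine (norm_sum_le _ _).trans (Finset.sum_le_sum fun n _ => ?_)
      rw [norm_mul, ee_norm, mul_one]
    refine (pow_le_pow_left₀ (norm_nonneg _) e1 2).trans ?_
    refine (sq_sum_le_card_mul_sum_sq).trans ?_
    exact mul_le_mul_of_nonneg_right hA (Finset.sum_nonneg fun _ _ => by positivity)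
  calc ∫ x in (0 : ℝ)..1, ‖∑ n ∈ F', b n * ee (n * x)‖ ^ 4
      ≤ ∫ x in (0 : ℝ)..1, (A * ∑ n ∈ F', ‖b n‖ ^ 2) * ‖∑ n ∈ F', b n * ee (n * x)‖ ^ 2 :=
        intervalIntegral.integral_mono_on zero_le_one ((hc.norm.pow 4).intervalIntegrable _ _)
          ((continuous_const.mul (hc.norm.pow 2)).intervalIntegrable _ _) fun x _ => h1 x
    _ = (A * ∑ n ∈ F', ‖b n‖ ^ 2) * ∑ n ∈ F', ‖b n‖ ^ 2 := by
        rw [intervalIntegral.integral_const_mul, parseval]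
    _ = A * (N : ℝ) ^ (0 : ℝ) * (∑ n ∈ F', ‖b n‖ ^ 2) ^ 2 := by
        rw [Real.rpow_zero]
        ring

theorem Cf_scale (A r : ℝ) (hA : 1 ≤ A) (hr : 1 ≤ r) :
    Cf 0 A r ≤ ENNReal.ofReal (A ^ (r - 1)) * Cf 0 1 r := by
  have hA0 : 0 ≤ A := by linarith
  have hK : K1 0 A = A * K1 0 1 := by unfold K1; ring
  have h1 : (1 : ℝ≥0∞) ≤ ENNReal.ofReal (A ^ (r - 1)) := by
    rw [← ENNReal.ofReal_one]
    exact ENNReal.ofReal_le_ofReal (Real.one_le_rpow hA (by linarith))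
  unfold Cf
  rw [mul_add, mul_one, hK, ENNReal.ofReal_mul hA0]
  refine add_le_add h1 (le_of_eq ?_)
  rw [← ENNReal.ofReal_rpow_of_nonneg hA0 (by linarith),
    ← ENNReal.mul_rpow_of_nonneg _ _ (by linarith : 0 ≤ r - 1)]
  congr 1
  ring

/-- the fixed time estimate for few frequencies -/
theorem fixedN (F : Finset ℤ) (A : ℝ) (hA : 1 ≤ A) (hcard : (F.card : ℝ) ≤ A) (γ r : ℝ)
    (hγ : 0 ≤ γ) (hγr : γ ≤ r - 1) (hr2 : r ≤ 2) (b : ℤ → ℂ) (t : ℝ) :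
    ∫⁻ η, ‖FT (uS F b t) η‖ₑ ^ (2 * r) ≤
      Cf 0 1 r * ENNReal.ofReal (A ^ γ) * ENNReal.ofReal (max 1 |t| ^ (-γ)) *
        ENNReal.ofReal (Sb F b ^ r) := by
  have hA0 : 0 < A := by linarith
  have hm0 : 0 < max 1 |t| := lt_of_lt_of_le one_pos (le_max_left _ _)
  have hr1 : 1 ≤ r := by linarith
  have h1 := fixed (card_locL4 F A hcard) hA0.le le_rfl r hr1 hr2 F (fun n hn => hn) b t
  have h0 := fixed0 r hr1 F b t
  have hCf : (1 : ℝ≥0∞) ≤ Cf 0 1 r := by unfold Cf; exact le_self_add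
  rw [mul_assoc (Cf 0 1 r), ← ENNReal.ofReal_mul (by positivity)]
  rcases le_total A (max 1 |t|) with h | h
  · refine h1.trans ?_
    refine mul_le_mul' ?_ le_rfl
    rw [sub_zero, one_mul]
    refine (mul_le_mul' (Cf_scale A r hA hr1) le_rfl).trans ?_
    rw [mul_comm (ENNReal.ofReal (A ^ (r - 1))), mul_assoc, ← ENNReal.ofReal_mul (by positivity)]
    refine mul_le_mul' le_rfl (ENNReal.ofReal_le_ofReal ?_)
    rw [Real.rpow_neg hm0.le, Real.rpow_neg hm0.le, ← div_eq_mul_inv, ← div_eq_mul_inv,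
      ← Real.div_rpow hA0.le hm0.le, ← Real.div_rpow hA0.le hm0.le]
    exact Real.rpow_le_rpow_of_exponent_ge (by positivity) ((div_le_one hm0).2 h) hγr
  · refine h0.trans ?_
    rw [← one_mul (ENNReal.ofReal (Sb F b ^ r))]
    refine mul_le_mul' ?_ (by rw [one_mul])
    rw [← one_mul (1 : ℝ≥0∞)]
    refine mul_le_mul' hCf ?_
    rw [← ENNReal.ofReal_one]
    refine ENNReal.ofReal_le_ofReal ?_
    rw [Real.rpow_neg hm0.le, ← div_eq_mul_inv, ← Real.div_rpow hA0.le hm0.le]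
    exact Real.one_le_rpow ((one_le_div hm0).2 h) hγ

/-- the constant of the estimate for few frequencies -/
noncomputable def Kn (γ r : ℝ) : ℝ≥0∞ := Cf 0 1 r * ∑' j : ℕ, ENNReal.ofReal (bj γ r j)

theorem Kn_ne_top (γ r : ℝ) (hr1 : 1 < r) (hr2 : r < 2) (hγ : 2 - r < γ) : Kn γ r ≠ ∞ :=
  ENNReal.mul_ne_top (Cf_ne_top 0 1 r hr1.le) (bj_sum γ r hr1 hr2 hγ)

/-- **few frequencies** -/
theorem finite_card (γ r : ℝ) (hr1 : 1 < r) (hr2 : r < 2) (hγ : 2 - r < γ) (hγr : γ ≤ r - 1)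
    (F : Finset ℤ) (A : ℝ) (hA : 1 ≤ A) (hcard : (F.card : ℝ) ≤ A) {c : ℤ → ℝ → ℂ} (hc : Adm c) :
    ∫⁻ t, ∫⁻ ξ, ∫⁻ η, ‖Ef F c ξ η t‖ₑ ^ (2 * r) ≤
      ENNReal.ofReal (A ^ γ) * Kn γ r * ∫⁻ x, ENNReal.ofReal (NN F c x ^ r) := by
  have h := dyadic_sum γ r (by linarith) hr1 hr2 F hc
    (fun t ξ => ∫⁻ η, ‖Ef F c ξ η t‖ₑ ^ (2 * r)) (Cf 0 1 r * ENNReal.ofReal (A ^ γ))
    (ENNReal.mul_ne_top (Cf_ne_top 0 1 r hr1.le) ENNReal.ofReal_ne_top) fun t ξ =>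
      fixedN F A hA hcard γ r (by linarith) hγr hr2.le (fun n => E1 (c n) ξ t) t
  refine h.trans (le_of_eq ?_)
  unfold Kn
  ring

/-- passage to the limit -/
theorem fatou_coord {f : ℝ × ℝ → ℂ} (hf : Dat f) (Fs : ℕ → Finset ℤ)
    (hl : ∀ ξ η t, Tendsto (fun M => Ef (Fs M) (cf f) ξ η t) atTop (𝓝 (E2 f ξ η t)))
    (r : ℝ) (B : ℝ≥0∞)
    (hB : ∀ M, ∫⁻ t, ∫⁻ ξ, ∫⁻ η, ‖Ef (Fs M) (cf f) ξ η t‖ₑ ^ (2 * r) ≤ B) :
    ∫⁻ z : ℝ × ℝ × ℝ, ‖E2 f z.2.1 z.2.2 z.1‖ₑ ^ (2 * r) ≤ B := by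
  have hAd := cf_Adm hf
  set G : ℕ → ℝ × ℝ × ℝ → ℝ≥0∞ := fun M z => ‖Ef (Fs M) (cf f) z.2.1 z.2.2 z.1‖ₑ ^ (2 * r)
    with hG
  have hGm : ∀ M, Measurable (G M) := fun M => (Ef_meas (Fs M) hAd).enorm.pow_const (2 * r)
  have hlim : ∀ z : ℝ × ℝ × ℝ, ‖E2 f z.2.1 z.2.2 z.1‖ₑ ^ (2 * r) = liminf (fun M => G M z) atTop := by
    intro z
    have h1 := (hl z.2.1 z.2.2 z.1).enorm
    have h2 := (ENNReal.continuous_rpow_const (y := 2 * r)).continuousAt.tendsto.comp h1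
    exact h2.liminf_eq.symm
  have hbd : ∀ M, ∫⁻ z, G M z ≤ B := by
    intro M
    have h1 : ∫⁻ z, G M z = ∫⁻ t, ∫⁻ ξ, ∫⁻ η, ‖Ef (Fs M) (cf f) ξ η t‖ₑ ^ (2 * r) := by
      rw [Measure.volume_eq_prod, lintegral_prod _ (hGm M).aemeasurable]
      refine lintegral_congr fun t => ?_
      have h2 : Measurable fun p : ℝ × ℝ => G M (t, p) := (hGm M).comp (by fun_prop)
      rw [Measure.volume_eq_prod, lintegral_prod _ h2.aemeasurable]
    rw [h1]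
    exact hB M
  simp_rw [hlim]
  refine (lintegral_liminf_le hGm).trans ?_
  refine (liminf_le_liminf (Eventually.of_forall hbd)).trans ?_
  rw [liminf_const]

/-- few frequencies on the square, for `q < 4` -/
theorem few_low (γ r : ℝ) (hr1 : 1 < r) (hr2 : r < 2) (hγ : 2 - r < γ) (hγr : γ ≤ r - 1) :
    ∃ C : ℝ≥0∞, C ≠ ∞ ∧ ∀ (F : Finset ℤ) (A : ℝ), 1 ≤ A → (F.card : ℝ) ≤ A →
      ∀ f : E 2 → ℂ, Measurable f → SpecIn (F : Set ℤ) f →
      ∫⁻ ξ, ‖ext Q f ξ‖ₑ ^ (2 * r) ≤ C * ENNReal.ofReal (A ^ γ) * Mq (2 * r) f := by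
  refine ⟨ENNReal.ofReal ((2 * π) ^ 3) * (Kn γ r * 2 ^ r) + 1, ?_, ?_⟩
  · refine ENNReal.add_ne_top.2 ⟨ENNReal.mul_ne_top ENNReal.ofReal_ne_top
      (ENNReal.mul_ne_top (Kn_ne_top γ r hr1 hr2 hγ) ?_), ENNReal.one_ne_top⟩
    exact ENNReal.rpow_ne_top_of_nonneg (by linarith) (by norm_num)
  · intro F A hA hcard f hf hsp
    have hAγ : ENNReal.ofReal (A ^ γ) ≠ 0 := by
      have : 0 < A ^ γ := Real.rpow_pos_of_pos (by linarith) _
      simpa using this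
    by_cases hfin : Mq (2 * r) f = ∞
    · rw [hfin, ENNReal.mul_top (mul_ne_zero (by simp) hAγ)]
      exact le_top
    · have hD := fq_Dat hf (2 * r) (by linarith) hfin
      rw [ext_lint f hD.int]
      have h1 := fatou_coord hD (FM (F : Set ℤ)) (Ef_tendsto _ hD (fq_spec hf hsp)) r
        (ENNReal.ofReal (A ^ γ) * Kn γ r * ∫⁻ x, (2 * ∫⁻ y in Jq, ‖fq f (x, y)‖ₑ ^ 2) ^ r)
        (fun M => by
          have hsub : FM (F : Set ℤ) M ⊆ F := fun n hn => FM_mem _ M n hn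
          refine (finite_card γ r hr1 hr2 hγ hγr (FM (F : Set ℤ) M) A hA
            (le_trans (by exact_mod_cast Finset.card_le_card hsub) hcard) (cf_Adm hD)).trans ?_
          exact mul_le_mul' le_rfl (bessel_int hD _ r (by linarith)))
      have h2 : ∫⁻ x, (2 * ∫⁻ y in Jq, ‖fq f (x, y)‖ₑ ^ 2) ^ r = 2 ^ r * Mq (2 * r) f := by
        rw [← Mq_fq (2 * r) (by linarith), ← lintegral_const_mul' _ _
          (ENNReal.rpow_ne_top_of_nonneg (by linarith) (by norm_num))]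
        refine lintegral_congr fun x => ?_
        rw [ENNReal.mul_rpow_of_nonneg _ _ (by linarith : 0 ≤ r)]
        congr 2
        ring
      rw [h2] at h1
      calc ENNReal.ofReal ((2 * π) ^ 3) *
            ∫⁻ z : ℝ × ℝ × ℝ, ‖E2 (fq f) z.2.1 z.2.2 z.1‖ₑ ^ (2 * r)
          ≤ ENNReal.ofReal ((2 * π) ^ 3) *
              (ENNReal.ofReal (A ^ γ) * Kn γ r * (2 ^ r * Mq (2 * r) f)) :=
            mul_le_mul' le_rfl h1
        _ = ENNReal.ofReal ((2 * π) ^ 3) * (Kn γ r * 2 ^ r) * ENNReal.ofReal (A ^ γ) *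
              Mq (2 * r) f := by ring
        _ ≤ _ := mul_le_mul' (mul_le_mul' le_self_add le_rfl) le_rfl

end Pool.Agent.J6H76.TS
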